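import Mathlib
import Pool.Agent.MP_d8b1b3_co.H68.Design
import Pool.Agent.MP_d8b1b3_co.H7.Base

/-!
Half tiles of odd weight, the two families of stars, systems of pieces and their development
under the translations of two sides.
-/

set_option autoImplicit false

namespace Pool.Agent.MP_d8b1b3_co.H68.Od

open Matrix Finset

section

variable {X X' : Type} [DecidableEq X] [DecidableEq X']

/-- push forward of a function along a map -/
def push [Fintype X] (g : X → X') : (X → ℤ) →+ (X' → ℤ) where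
  toFun f := ∑ x, f x • pt (g x)
  map_zero' := by simp
  map_add' f f' := by simp [add_smul, sum_add_distrib]

lemma push_pt [Fintype X] (g : X → X') (x : X) : push g (pt x) = pt (g x) := by
  simp [push, pt]

lemma push_star [Fintype X] (g : X → X') {I : Type} [Fintype I] (Y : Matrix I I ℤ) (σ : I → X)
    (i : I) : push g (star Y σ i) = star Y (fun j => g (σ j)) i := by
  simp only [star, map_sum, map_zsmul, push_pt]

lemma push_one [Fintype X] [Fintype X'] (e : X ≃ X') : push e 1 = 1 := by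
  ext y
  simp [push, pt, Finset.sum_apply, ← e.eq_symm_apply]

lemma blocks_symm {I I' : Type} {Y : Matrix I I ℤ} {Y' : Matrix I' I' ℤ} (h : Yᵀ = Y)
    (h' : Y'ᵀ = Y') : (fromBlocks Y 0 0 Y')ᵀ = fromBlocks Y 0 0 Y' := by
  rw [fromBlocks_transpose, h, h', transpose_zero, transpose_zero]

variable (X)

/-- the multisets of stars of the symmetric weighing matrices of weight `w` -/
def SSt (w : ℕ) : AddSubmonoid (Multiset (X → ℤ)) where
  carrier := {μ | ∃ (I : Type) (_ : Fintype I) (_ : DecidableEq I) (Y : Matrix I I ℤ)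
    (σ : I → X), IsW Y w ∧ Yᵀ = Y ∧ μ = ∑ i, {star Y σ i}}
  zero_mem' := ⟨Empty, _, _, 0, Empty.elim,
    ⟨fun i => i.elim, Subsingleton.elim _ _, Subsingleton.elim _ _⟩, Subsingleton.elim _ _, by simp⟩
  add_mem' := by
    rintro _ _ ⟨I, _, _, Y, σ, h1, h2, rfl⟩ ⟨I', _, _, Y', σ', h1', h2', rfl⟩
    refine ⟨I ⊕ I', _, _, _, Sum.elim σ σ', h1.blocks h1', blocks_symm h2 h2', ?_⟩
    simp [Fintype.sum_sum_type, star]

/-- the stars of a symmetric weighing matrix under two maps of its columns -/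
def SS2 (w : ℕ) : AddSubmonoid (Multiset (X → ℤ)) where
  carrier := {μ | ∃ (I : Type) (_ : Fintype I) (_ : DecidableEq I) (Y : Matrix I I ℤ)
    (σ : Bool → I → X), IsW Y w ∧ Yᵀ = Y ∧ μ = ∑ b, ∑ i, {star Y (σ b) i}}
  zero_mem' := ⟨Empty, _, _, 0, fun _ => Empty.elim,
    ⟨fun i => i.elim, Subsingleton.elim _ _, Subsingleton.elim _ _⟩, Subsingleton.elim _ _, by simp⟩
  add_mem' := by
    rintro _ _ ⟨I, _, _, Y, σ, h1, h2, rfl⟩ ⟨I', _, _, Y', σ', h1', h2', rfl⟩
    refine ⟨I ⊕ I', _, _, _, fun b => Sum.elim (σ b) (σ' b), h1.blocks h1', blocks_symm h2 h2', ?_⟩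
    rw [← sum_add_distrib]
    simp [Fintype.sum_sum_type, star]

/-- the multisets whose double is a multiset of stars -/
def Hs (w : ℕ) : AddSubmonoid (Multiset (X → ℤ)) where
  carrier := {μ | 2 • μ ∈ St X w}
  zero_mem' := by simp
  add_mem' := fun {a b} ha hb => by
    simp only [Set.mem_ofPred_eq, smul_add] at ha hb ⊢
    exact add_mem ha hb

variable {X}

lemma SSt.st {w : ℕ} {μ : Multiset (X → ℤ)} (h : μ ∈ SSt X w) : μ ∈ St X w := by
  obtain ⟨I, _, _, Y, σ, h1, -, h3⟩ := h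
  exact ⟨I, _, _, Y, σ, h1, h3⟩

lemma SSt.ss2 {w : ℕ} {μ : Multiset (X → ℤ)} (h : μ ∈ SSt X w) : 2 • μ ∈ SS2 X w := by
  obtain ⟨I, _, _, Y, σ, h1, h2, rfl⟩ := h
  exact ⟨I, _, _, Y, fun _ => σ, h1, h2, by simp [two_smul]⟩

lemma St.hs {w : ℕ} {μ : Multiset (X → ℤ)} (h : μ ∈ St X w) : μ ∈ Hs X w := nsmul_mem h 2

/-- `K` copies of the family of all sets `L - y`, where `L` has `w + 1` points -/
def FamC (S : AddSubmonoid (Multiset (X → ℤ))) (K w : ℕ) : Prop :=
  ∀ (D : Type) [Fintype D], Fintype.card D = w + 1 → ∀ φ : D → X,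
    K • ∑ d, ({∑ d', pt (φ d') - pt (φ d)} : Multiset (X → ℤ)) ∈ S

/-- `K` copies of the family of all sets `L + y'` and `L' + y`, where `L`, `L'` have `w - 1`
points -/
def FamD (S : AddSubmonoid (Multiset (X → ℤ))) (K w : ℕ) : Prop :=
  ∀ (D : Type) [Fintype D], Fintype.card D + 1 = w → ∀ φ ψ : D → X,
    K • (∑ d, ({∑ d', pt (φ d') + pt (ψ d)} : Multiset (X → ℤ)) +
      ∑ d, {∑ d', pt (ψ d') + pt (φ d)}) ∈ S

end

/-- a half tile of weight `w` on a grid with `a` rows and `b` columns -/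
def HT (w a b : ℕ) : Prop := ∃ μ ∈ Hs (Fin b) w, (a, μ) ∈ Rows (Fin b)

/-- the points: side, label of the line, position on the line -/
abbrev Pt (G C Γ : Type) : Type := Bool × G × (C ⊕ Γ)

section

variable {G C Γ : Type} [Fintype G] [DecidableEq G] [Fintype C] [DecidableEq C] [Fintype Γ]
  [DecidableEq Γ]

/-- a full line -/
def Ln (C Γ : Type) [Fintype C] [DecidableEq C] [Fintype Γ] [DecidableEq Γ] (s : Bool) (g : G) :
    Pt G C Γ → ℤ := ∑ y, pt (s, g, y)

/-- a line with one point removed and one point of a line of the other side added -/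
def Tr (s : Bool) (g : G) (y : C ⊕ Γ) (h : G) (z : C ⊕ Γ) : Pt G C Γ → ℤ :=
  Ln C Γ s g - pt (s, g, y) + pt (!s, h, z)

variable (G)

/-- the modified lines of a given shape over all pairs of lines -/
def tt (s : Bool) (y z : C ⊕ Γ) : Multiset (Pt G C Γ → ℤ) := ∑ g, ∑ h, {Tr s g y h z}

/-- a swap (or no swap) over all pairs of lines -/
def sw : Option ((C ⊕ Γ) × (C ⊕ Γ)) → Multiset (Pt G C Γ → ℤ)
  | none => ∑ g : G, ∑ h : G, ({Ln C Γ false g} + {Ln C Γ true h})
  | some p => tt G false p.1 p.2 + tt G true p.2 p.1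

/-- the point `x` is removed, a special point is added -/
def AA (x : Bool × (C ⊕ Γ)) : Multiset (Pt G C Γ → ℤ) := ∑ k, tt G x.1 x.2 (Sum.inr k)

/-- a special point is removed, the point `x` is added -/
def BB (x : Bool × (C ⊕ Γ)) : Multiset (Pt G C Γ → ℤ) := ∑ k, tt G (!x.1) (Sum.inr k) x.2

variable (C Γ)

/-- all families of the first kind -/
def CC : Multiset (Pt G C Γ → ℤ) :=
  ∑ s, ∑ k, ∑ g, ∑ h, ({Ln C Γ s g} + ∑ y, {Tr s g y h (Sum.inr k)})

/-- all families of the second kind -/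
def DD : Multiset (Pt G C Γ → ℤ) :=
  ∑ k, ∑ g, ∑ h, (∑ y : {y : C ⊕ Γ // y ≠ Sum.inr k}, {Tr false g (Sum.inr k) h y} +
    ∑ y : {y : C ⊕ Γ // y ≠ Sum.inr k}, {Tr true h (Sum.inr k) g y})

/-- `(ρ, N)`: the stars `ρ` are completed to rows by any choice of `N` swaps -/
def Md : AddSubmonoid (Multiset (Pt G C Γ → ℤ) × ℕ) where
  carrier := {p | ∀ f : Multiset (Option ((C ⊕ Γ) × (C ⊕ Γ))), Multiset.card f = p.2 →
    ∃ n, (n, p.1 + (f.map (sw G)).sum) ∈ Rows (Pt G C Γ)}
  zero_mem' := fun f hf => ⟨0, by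
    rw [Multiset.card_eq_zero.1 hf, Multiset.map_zero, Multiset.sum_zero, add_zero]
    exact zero_mem (Rows (Pt G C Γ))⟩
  add_mem' := by
    rintro ⟨ρ, N⟩ ⟨ρ', N'⟩ h h' f hf
    induction f using Quotient.inductionOn with
    | h l =>
      have hl : l.length = N + N' := hf
      obtain ⟨n, h1⟩ := h (l.take N : List _) (by simp; omega)
      obtain ⟨n', h1'⟩ := h' (l.drop N : List _) (by simp; omega)
      refine ⟨n + n', ?_⟩
      have e : (⟦l⟧ : Multiset _) = Multiset.ofList (l.take N) + Multiset.ofList (l.drop N) := by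
        rw [Multiset.coe_add, List.take_append_drop]; rfl
      rw [e, Multiset.map_add, Multiset.sum_add, Prod.fst_add, add_add_add_comm]
      exact add_mem h1 h1'

variable {G C Γ}

/-- translation of the labels on the two sides -/
def sh [AddCommGroup G] (t : G × G) (x : Pt G C Γ) : Pt G C Γ :=
  (x.1, x.2.1 + (if x.1 = true then t.2 else t.1), x.2.2)

/-- a developed system of `c` stars, completed by modified lines and at most `N` swaps -/
def Dev (S : AddSubmonoid (Multiset (Pt G C Γ → ℤ))) (c x y B N : ℕ) : Prop :=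
  ∃ μ ∈ S, ∃ (ex ho : Bool × (C ⊕ Γ) → ℕ) (N' : ℕ), Multiset.card μ = c ∧
    (μ + ∑ p, ex p • AA G p + ∑ p, ho p • BB G p, N') ∈ Md G C Γ ∧
    (∀ s z, ex (s, Sum.inl z) + x = ho (s, Sum.inl z) + y) ∧
    (∀ k k', ex (false, Sum.inr k) + ho (true, Sum.inr k') =
      ex (true, Sum.inr k') + ho (false, Sum.inr k)) ∧
    (∀ p, ho p ≤ B) ∧ (∀ s k, ex (s, Sum.inr k) ≤ B) ∧ N' ≤ N

end

/-- A system of pieces. The rows are indexed by a group `γ` and a member `m` of the group; a
column has a side, a node, a label and a position; it is long in a row if its node is the node of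
the row and single otherwise. -/
structure PS (C Γ J Nd V O Gr Mb : Type) where
  inc : Gr → Mb → Finset J
  sd : J → Bool
  nd : J → Nd
  lb : J → V
  ps : J → C ⊕ Γ
  rn : Gr → Mb → Nd
  off : Mb → O
  gen : Gr → Bool

/-- the conditions on a system of pieces -/
structure PS.OK {C Γ J Nd V O Gr Mb : Type} [DecidableEq C] [DecidableEq Γ] [Fintype J]
    [DecidableEq J] [DecidableEq Nd] [Fintype V] [DecidableEq V] [Fintype O] [DecidableEq O]
    [Fintype Gr] [Fintype Mb] (P : PS C Γ J Nd V O Gr Mb) (w c B S : ℕ) : Prop where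
  row : ∀ γ m, #(P.inc γ m) = w
  col : ∀ j, ∑ γ, #{m | j ∈ P.inc γ m} = w
  mb : Fintype.card Mb = 2 * (Fintype.card V * Fintype.card O)
  long : ∀ γ m j m' j', j ∈ P.inc γ m → P.nd j = P.rn γ m → j' ∈ P.inc γ m' → P.nd j' = P.rn γ m' →
    P.sd j = P.sd j' → P.lb j = P.lb j' → P.off m = P.off m' → P.ps j = P.ps j' → m = m' ∧ j = j'
  single : ∀ γ m j j', j ∈ P.inc γ m → j' ∈ P.inc γ m → P.nd j ≠ P.rn γ m →
    P.sd j = P.sd j' → P.nd j = P.nd j' → P.lb j = P.lb j' → j = j'
  bal : ∀ γ, ∑ m, #{j ∈ P.inc γ m | P.sd j = false} = ∑ m, #{j ∈ P.inc γ m | P.sd j = true}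
  bal' : ∀ γ, ∑ m, #{j ∈ P.inc γ m | P.sd j = false ∧ (P.ps j).isRight = true} =
    ∑ m, #{j ∈ P.inc γ m | P.sd j = true ∧ (P.ps j).isRight = true}
  core : ∀ γ m j, P.gen γ = true → j ∈ P.inc γ m → P.nd j ≠ P.rn γ m → (P.ps j).isRight = false
  cols : ∀ s y, #{j | P.sd j = s ∧ P.ps j = Sum.inl y} = c
  special : #{γ | P.gen γ = false} ≤ B
  holes : ∀ y, ∃ T : Finset Gr, #T ≤ B ∧ ∀ γ, γ ∉ T → ∀ s v o, ∃ m, ∃ j ∈ P.inc γ m,
    P.nd j = P.rn γ m ∧ P.sd j = s ∧ P.lb j = v ∧ P.off m = o ∧ P.ps j = Sum.inl y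
  few : ∀ γ, ∑ m, #{j ∈ P.inc γ m | P.nd j ≠ P.rn γ m} ≤ S

/-- a system of pieces with `nb` base lines on each side whose stars always lie in `S'` -/
def HasPS (C Γ : Type) [DecidableEq C] [DecidableEq Γ] {X : Type} [DecidableEq X]
    (S' : AddSubmonoid (Multiset (X → ℤ))) (w c B S n nb : ℕ) : Prop :=
  ∃ (J Nd V O Gr Mb : Type) (_ : Fintype J) (_ : DecidableEq J) (_ : Fintype Nd)
    (_ : DecidableEq Nd) (_ : Fintype V) (_ : DecidableEq V) (_ : Fintype O) (_ : DecidableEq O)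
    (_ : Fintype Gr) (_ : Fintype Mb) (P : PS C Γ J Nd V O Gr Mb), P.OK w c B S ∧
    Fintype.card Nd ≤ n ∧ Fintype.card V ≤ n ∧ Fintype.card O ≤ n ∧ Fintype.card Mb ≤ n ∧
    Fintype.card Gr * (Fintype.card V * Fintype.card O) = nb ∧ Fintype.card Gr ≤ nb ∧
    ∀ φ : J → X, ∑ γ, ∑ m, ({∑ j ∈ P.inc γ m, pt (φ j)} : Multiset (X → ℤ)) ∈ S'

/-- an inner system: a symmetric weighing matrix with two maps of its columns whose stars form
rows -/
def Inner (k a v : ℕ) : Prop :=
  ∃ (Y : Matrix (Fin (a * v)) (Fin (a * v)) ℤ) (σ : Bool → Fin (a * v) → Bool × Fin v × Fin k)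
    (e : Fin a × Fin (2 * v) ≃ Fin (a * v) × Bool), IsW Y k ∧ Yᵀ = Y ∧
    ∀ i, ∑ m, star Y (σ (e (i, m)).2) (e (i, m)).1 = 1

end Pool.Agent.MP_d8b1b3_co.H68.Od

namespace Pool.Agent.MP_d8b1b3_co.H68.Od

open Matrix Finset
open scoped Kronecker

lemma HT_map_sum {V W I : Type} [Fintype I] (g : V → W) (ρ : I → Multiset V) :
    (∑ i, ρ i).map g = ∑ i, (ρ i).map g :=
  map_sum (Multiset.mapAddMonoidHom g) _ _

lemma HT_enum {V : Type} {ρ : Multiset V} {β : ℕ} (h : Multiset.card ρ = β) :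
    ∃ f : Fin β → V, ρ = ∑ j, {f j} := by
  classical
  let e : Fin β ≃ ρ.ToType := Fintype.equivOfCardEq (by simp [h])
  refine ⟨fun j => (e j : V), ?_⟩
  rw [Equiv.sum_comp e fun t => ({(t : V)} : Multiset V), Finset.sum_eq_multiset_sum,
    Multiset.map_univ ρ fun v => ({v} : Multiset V), Multiset.sum_map_singleton]

section

variable {X X' : Type} [Fintype X] [DecidableEq X] [DecidableEq X']

lemma St.push {w : ℕ} {μ : Multiset (X → ℤ)} (h : μ ∈ St X w) (g : X → X') :
    μ.map (push g) ∈ St X' w := by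
  obtain ⟨I, _, _, Y, σ, h1, rfl⟩ := h
  refine ⟨I, _, _, Y, fun j => g (σ j), h1, ?_⟩
  simp only [HT_map_sum, Multiset.map_singleton, push_star]

lemma HT_star {I : Type} [Fintype I] [DecidableEq I] {Y : Matrix I I ℤ} {w : ℕ} (h : IsW Y w)
    (σ : I → X) (i : I) : ∑ x, star Y σ i x = w := by
  simp only [star, Finset.sum_apply]
  rw [sum_comm, ← h.sum_abs i]
  simp [pt]

lemma St.mass {w : ℕ} {μ : Multiset (X → ℤ)} (h : μ ∈ St X w) : ∀ f ∈ μ, ∑ x, f x = w := by
  obtain ⟨I, _, _, Y, σ, h1, rfl⟩ := h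
  intro f hf
  obtain ⟨i, -, hi⟩ := Multiset.mem_sum.1 hf
  rw [Multiset.mem_singleton.1 hi, HT_star h1]

lemma Hs.mass {w : ℕ} {μ : Multiset (X → ℤ)} (h : μ ∈ Hs X w) : ∀ f ∈ μ, ∑ x, f x = w :=
  fun f hf => St.mass h f ((Multiset.mem_nsmul_of_ne_zero two_ne_zero).2 hf)

lemma SS2.mass {w : ℕ} {μ : Multiset (X → ℤ)} (h : μ ∈ SS2 X w) : ∀ f ∈ μ, ∑ x, f x = w := by
  obtain ⟨I, _, _, Y, σ, h1, -, rfl⟩ := h
  intro f hf
  obtain ⟨b, -, hb⟩ := Multiset.mem_sum.1 hf
  obtain ⟨i, -, hi⟩ := Multiset.mem_sum.1 hb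
  rw [Multiset.mem_singleton.1 hi, HT_star h1]

omit [DecidableEq X] in
lemma Rows.count {n w : ℕ} {μ : Multiset (X → ℤ)} (h : (n, μ) ∈ Rows X)
    (hm : ∀ f ∈ μ, ∑ x, f x = w) : n * Fintype.card X = w * Multiset.card μ := by
  obtain ⟨A, _, ρ, h1, h2, h3⟩ := h
  simp only at h1 h2
  let S : (X → ℤ) →+ ℤ := ∑ x, Pi.evalAddMonoidHom (fun _ => ℤ) x
  have hS : ∀ f, S f = ∑ x, f x := fun f => by simp [S]
  have e1 : μ.sum = n • (1 : X → ℤ) := by
    rw [h2, Multiset.sum_sum]
    simp [h3, h1]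
  have e2 := congrArg S e1
  rw [map_multiset_sum, Multiset.map_congr rfl fun f hf => (hS f).trans (hm f hf), map_nsmul,
    hS] at e2
  simp only [Multiset.map_const', Multiset.sum_replicate, Pi.one_apply, sum_const, card_univ,
    nsmul_eq_mul, mul_one] at e2
  rw [mul_comm w]
  exact_mod_cast e2.symm

lemma HT_push {w : ℕ} {μ : Multiset (X → ℤ)} (h : μ ∈ Hs X w) (g : X → X') :
    μ.map (push g) ∈ Hs X' w := by
  have := St.push h g
  rwa [Multiset.map_nsmul] at this

lemma HT.of_card {w a b : ℕ} {μ : Multiset (X → ℤ)} (h : μ ∈ Hs X w) (h' : (a, μ) ∈ Rows X)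
    (hb : Fintype.card X = b) : HT w a b := by
  let e := Fintype.equivFinOfCardEq hb
  obtain ⟨A, _, ρ, h1, h2, h3⟩ := h'
  refine ⟨_, HT_push h e, A, _, fun x => (ρ x).map (push e), h1, ?_, fun x => ?_⟩
  · simp only at h2 ⊢
    rw [h2, HT_map_sum]
  · rw [← map_multiset_sum, h3, push_one]

end

lemma HT.add_left {w a a' b : ℕ} (h : HT w a b) (h' : HT w a' b) : HT w (a + a') b := by
  obtain ⟨μ, h1, h2⟩ := h
  obtain ⟨μ', h1', h2'⟩ := h'
  exact ⟨μ + μ', add_mem h1 h1', add_mem h2 h2'⟩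

lemma HT.add_right {w a b b' : ℕ} (h : HT w a b) (h' : HT w a b') : HT w a (b + b') := by
  obtain ⟨μ, h1, A, _, ρ, h2, h3, h4⟩ := h
  obtain ⟨μ', h1', A', _, ρ', h2', h3', h4'⟩ := h'
  simp only at h2 h3 h2' h3'
  let e : A ≃ A' := Fintype.equivOfCardEq (h2.trans h2'.symm)
  refine HT.of_card (X := Fin b ⊕ Fin b')
    (add_mem (HT_push h1 Sum.inl) (HT_push h1' Sum.inr)) ⟨A, _, fun x =>
      (ρ x).map (push Sum.inl) + (ρ' (e x)).map (push Sum.inr), h2, ?_, fun x => ?_⟩ (by simp)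
  · simp only
    rw [sum_add_distrib, h3, h3', HT_map_sum, HT_map_sum,
      Equiv.sum_comp e fun x => (ρ' x).map (push Sum.inr)]
  · rw [Multiset.sum_add, ← map_multiset_sum, ← map_multiset_sum, h4, h4']
    ext (y | y) <;> simp [push, pt, Finset.sum_apply]

lemma HT.mul_left {w a b : ℕ} (h : HT w a b) (n : ℕ) : HT w (n * a) b := by
  induction n with
  | zero => rw [zero_mul]; exact ⟨0, zero_mem _, zero_mem (Rows (Fin b))⟩
  | succ n ih => rw [Nat.succ_mul]; exact ih.add_left h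

lemma HT.mul_right {w a b : ℕ} (h : HT w a b) (n : ℕ) : HT w a (n * b) := by
  induction n with
  | zero =>
    rw [zero_mul]
    exact ⟨0, zero_mem _, Fin a, inferInstance, fun _ => 0, by simp, by simp, fun _ => Subsingleton.elim _ _⟩
  | succ n ih => rw [Nat.succ_mul]; exact ih.add_right h

lemma Tile.ht {w a b : ℕ} (h : Tile w a b) : HT w a b := by
  obtain ⟨I, _, _, Y, π, σ, h1, h2⟩ := h
  refine ⟨_, St.hs ⟨I, _, _, Y, σ, h1, rfl⟩, Fin a, inferInstance,
    fun x => ∑ i, if π i = x then {star Y σ i} else 0, by simp, ?_, fun x => ?_⟩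
  · simp only
    rw [sum_comm]
    simp
  · ext y
    rw [Multiset.sum_sum, Finset.sum_apply, Pi.one_apply, ← h2 x y]
    refine sum_congr rfl fun i _ => ?_
    split_ifs with hi
    · simp [hi, star, pt, Finset.sum_apply]
    · simp [hi]

/-- Half of a Hadamard matrix. -/
lemma half_had {β : ℕ} (h : HadOn (Fin (2 * β))) :
    ∃ L : Matrix (Fin β × Bool) (Fin β × Bool) ℤ, IsW L β ∧
      ∀ i j, |L i (j, false)| + |L i (j, true)| = 1 := by
  obtain ⟨H, h1, h2⟩ := HadOn.isW (h.of_card (J := Fin β × Bool) (by simp [mul_comm]))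
  have h3 : ∀ i j, H i j = 1 ∨ H i j = -1 := fun i j => abs_eq_abs.1 ((h2 i j).trans abs_one.symm)
  have hK := (IsW.one (I := Fin β)).kron isW_H2
  let L : Matrix (Fin β × Bool) (Fin β × Bool) ℤ := Matrix.of fun i j =>
    (H i (j.1, false) + (if j.2 = true then -1 else 1) * H i (j.1, true)) / 2
  have e : (2 : ℤ) • L = H * ((1 : Matrix (Fin β) (Fin β) ℤ) ⊗ₖ H2) := by
    ext i ⟨j, c⟩
    simp only [L, Matrix.smul_apply, Matrix.of_apply, Matrix.mul_apply, Fintype.sum_prod_type,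
      kronecker_apply, Matrix.one_apply, ite_mul, zero_mul, mul_ite, mul_zero, sum_add_distrib,
      Fintype.sum_bool, H2]
    rcases h3 i (j, false) with a | a <;> rcases h3 i (j, true) with b | b <;> cases c <;>
      simp [a, b]
  have k : ∀ M : Matrix (Fin β × Bool) (Fin β × Bool) ℤ, (4 : ℤ) • M = (4 * β : ℤ) • 1 →
      M = (β : ℤ) • 1 := fun M hM =>
    smul_right_injective _ (four_ne_zero (α := ℤ)) (by simp only [hM, smul_smul])
  refine ⟨L, ⟨fun i j => ?_, k _ ?_, k _ ?_⟩, fun i j => ?_⟩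
  · obtain ⟨j, c⟩ := j
    rcases h3 i (j, false) with a | a <;> rcases h3 i (j, true) with b | b <;> cases c <;>
      simp [L, a, b]
  · have : (4 : ℤ) • (L * Lᵀ) = ((2 : ℤ) • L) * ((2 : ℤ) • L)ᵀ := by
      rw [transpose_smul, Matrix.smul_mul, Matrix.mul_smul, smul_smul]; rfl
    rw [this, e, transpose_mul, Matrix.mul_assoc, ← Matrix.mul_assoc _ _ Hᵀ, hK.row,
      Matrix.smul_mul, Matrix.one_mul, Matrix.mul_smul, h1.row, smul_smul]
    congr 1
    simp
    ring
  · have : (4 : ℤ) • (Lᵀ * L) = ((2 : ℤ) • L)ᵀ * ((2 : ℤ) • L) := by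
      rw [transpose_smul, Matrix.smul_mul, Matrix.mul_smul, smul_smul]; rfl
    rw [this, e, transpose_mul, Matrix.mul_assoc, ← Matrix.mul_assoc Hᵀ, h1.col,
      Matrix.smul_mul, Matrix.one_mul, Matrix.mul_smul, hK.col, smul_smul]
    congr 1
    simp
    ring
  · rcases h3 i (j, false) with a | a <;> rcases h3 i (j, true) with b | b <;> simp [L, a, b]

/-- Flattening of a half tile. -/
theorem HT.had {w α β : ℕ} (h : HT w (α * w) (β * w)) (hw : 0 < w) (hα : HadOn (Fin (2 * α)))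
    (hβ : HadOn (Fin (2 * β))) : HadOn (Fin (2 * α * β * w)) := by
  obtain ⟨μ, hμ, A, _, ρ, h3, h4, h5⟩ := h
  classical
  simp only at h3 h4
  have hρ : ∀ a, Multiset.card (ρ a) = β := fun a => by
    have := Rows.count (Rows.one (h5 a)) fun f hf => Hs.mass hμ f (by
      rw [h4]; exact Multiset.mem_sum.2 ⟨a, mem_univ _, hf⟩)
    rw [one_mul, Fintype.card_fin] at this
    exact (Nat.eq_of_mul_eq_mul_left hw ((mul_comm _ _).trans this)).symm
  choose f hf using fun a => HT_enum (hρ a)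
  have f1 : ∀ a y, ∑ k, f a k y = 1 := fun a y => by
    have := congrFun (h5 a) y
    rw [hf, Multiset.sum_sum, Finset.sum_apply] at this
    simpa using this
  obtain ⟨I, _, _, Y, σ, h1, h2⟩ := hμ
  obtain ⟨e, he⟩ := exists_equiv_of_sum_eq (star Y σ)
    (fun p : A × (Fin β × Bool) => f p.1 p.2.1) (by
      rw [← h2, h4]
      simp only [hf, Fintype.sum_prod_type, sum_const, card_univ, Fintype.card_bool, smul_sum])
  have st : ∀ i y, star Y σ i y = ∑ j, if σ j = y then |Y i j| else 0 := fun i y => by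
    simp [star, pt, Finset.sum_apply]
  have fib : ∀ y, Fintype.card {j // σ j = y} = 2 * α := fun y => by
    have e1 : ∑ i, star Y σ i y = ((2 * α * w : ℕ) : ℤ) := by
      simp only [← he]
      rw [Equiv.sum_comp e fun p => f p.1 p.2.1 y]
      simp only [Fintype.sum_prod_type, sum_const, card_univ, Fintype.card_bool, ← smul_sum, f1,
        h3]
      simp
      ring
    have e2 : ∀ j, ∑ i, |Y i j| = w := h1.transpose.sum_abs
    simp only [st] at e1
    rw [sum_comm] at e1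
    simp only [sum_ite_irrel, sum_const_zero, e2] at e1
    rw [← sum_filter, sum_const, nsmul_eq_mul, ← Fintype.card_subtype] at e1
    exact Nat.eq_of_mul_eq_mul_right hw (by exact_mod_cast e1)
  obtain ⟨hc, R, r1, r2⟩ := block_had fib hα
  obtain ⟨L0, l0, l2⟩ := half_had hβ
  have l1 := ((IsW.one (I := A)).kron l0).submatrix e e
  rw [one_mul] at l1
  obtain ⟨L, hL⟩ : ∃ L, L = ((1 : Matrix A A ℤ) ⊗ₖ L0).submatrix e e := ⟨_, rfl⟩
  rw [← hL] at l1
  rw [Fintype.card_fin] at hc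
  have hI : HadOn I := by
    refine ⟨L * Y * R, fun i j => ?_, ?_⟩
    · have e0 : (L * Y * R) i j = ∑ p : I × I, L i p.1 * Y p.1 p.2 * R p.2 j := by
        simp only [Matrix.mul_apply, sum_mul, Fintype.sum_prod_type]
        rw [sum_comm]
      rw [e0]
      apply sum_sign
      have e1 : ∀ i', ∑ j', |L i i' * Y i' j' * R j' j| = |L i i'| * star Y σ i' (σ j) := by
        intro i'
        simp only [st, abs_mul, r2, mul_sum, mul_ite, mul_one, mul_zero]
      simp only [Fintype.sum_prod_type, e1, ← he]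
      simp only [hL, submatrix_apply]
      rw [Equiv.sum_comp e fun p => |((1 : Matrix A A ℤ) ⊗ₖ L0) (e i) p| * f p.1 p.2.1 (σ j),
        ← f1 (e i).1 (σ j)]
      simp only [Fintype.sum_prod_type, kroneckerMap_apply, Matrix.one_apply, ite_mul, one_mul,
        zero_mul, apply_ite abs, abs_zero, sum_ite_irrel, sum_const_zero, sum_ite_eq, mem_univ,
        if_true, ← sum_mul, Fintype.sum_bool, add_comm |L0 _ (_, true)|, l2]
    · rw [transpose_mul, transpose_mul, Matrix.mul_assoc, ← Matrix.mul_assoc R, r1.row,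
        Matrix.smul_mul, Matrix.one_mul, Matrix.mul_smul, Matrix.mul_assoc, ← Matrix.mul_assoc Y,
        h1.row, Matrix.smul_mul, Matrix.one_mul, Matrix.mul_smul, l1.row, smul_smul, smul_smul, hc]
      congr 1
      push_cast
      ring
  exact hI.of_card (by rw [Fintype.card_fin, hc]; ring)

end Pool.Agent.MP_d8b1b3_co.H68.Od

namespace Pool.Agent.MP_d8b1b3_co.H68.Od

open Matrix Finset

variable {X : Type} [DecidableEq X]

/-- the bordered matrix is a symmetric weighing matrix -/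
lemma isW_border {I : Type} [Fintype I] [DecidableEq I] {V : Matrix I I ℤ} {w : ℕ} (h : IsW V w) :
    IsW (fromBlocks 1 V Vᵀ (-1)) (w + 1) ∧ (fromBlocks 1 V Vᵀ (-1))ᵀ = fromBlocks 1 V Vᵀ (-1) := by
  have hs : (fromBlocks 1 V Vᵀ (-1))ᵀ = fromBlocks 1 V Vᵀ (-1) := by
    rw [fromBlocks_transpose, transpose_one, transpose_transpose, transpose_neg, transpose_one]
  refine ⟨IsW.of_row (by omega) ?_ ?_, hs⟩
  · rintro (i | i) (j | j)
    · exact IsW.one.ent i j
    · exact h.ent i j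
    · exact h.ent j i
    · exact IsW.one.neg.ent i j
  · rw [hs, fromBlocks_multiply, h.row, h.col, ← fromBlocks_one, fromBlocks_smul]
    push_cast
    congr 1 <;> simp [add_smul, add_comm]

lemma Fam_sum {I : Type} [Fintype I] [DecidableEq I] {V : Matrix I I ℤ} {w : ℕ} (h : IsW V w)
    (σ τ : I → X) :
    ∑ i, ({∑ j, |V i j| • pt (τ j) + pt (σ i)} : Multiset (X → ℤ)) +
      ∑ i, ({∑ j, |V j i| • pt (σ j) + pt (τ i)} : Multiset (X → ℤ)) ∈ SSt X (w + 1) := by
  refine ⟨_, _, _, _, Sum.elim σ τ, (isW_border h).1, (isW_border h).2, ?_⟩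
  rw [Fintype.sum_sum_type]
  congr 1 <;> refine sum_congr rfl fun i _ => ?_ <;> congr 1 <;>
    simp [H68.star, Fintype.sum_sum_type, Matrix.one_apply, apply_ite abs, add_comm]

/-- the first family, from the bordered periodisation on `ZMod (2 l + 2)` -/
theorem G_famC {t l : ℕ} (h : G t l) (hl : 0 < l) :
    FamC (SSt X (2 * l + 1)) (2 ^ (t + 2)) (2 * l + 1) := by
  intro D _ hD φ
  let e : ZMod (2 * l + 2) ≃ D := Fintype.equivOfCardEq (by rw [ZMod.card, hD])
  obtain ⟨Y, hY, y1, y2⟩ := H7.G_per (n := 2 * l + 2) h hl (by omega)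
  let L : ZMod (2 * l + 2) := l + 1
  have hL : L + L = 0 := by
    rw [← ZMod.natCast_self (2 * l + 2)]
    push_cast
    ring
  let s : Bool → ZMod (2 * l + 2) := fun c => if c then L else 0
  let g : ZMod (2 * l + 2) → X → ℤ := fun b => pt (φ (e b))
  have hn : l ≤ 2 * l + 2 := by omega
  have hr : range (2 * l + 2) = range (l + 1 + (l + 1)) := by congr 1; ring
  have k := Fam_sum hY (fun p => φ (e (p.1 + l + s p.2.1))) fun p => φ (e (p.1 + s p.2.1))
  have k1 : ∀ i : ZMod (2 * l + 2) × Bool × Fin (2 ^ t), ∑ j, |Y i j| • pt (φ (e (j.1 + s j.2.1))) +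
      pt (φ (e (i.1 + l + s i.2.1))) = ∑ b, g b - g (i.1 + (l + s (!i.2.1))) := by
    rintro ⟨a, c, k⟩
    rw [H7.Odd_blk (fun j => |Y (a, c, k) j|) (fun b _ => (b - a).val < l)
      (fun b c' => y1 _ _ b c') fun b c' => g (b + s c'), H7.Odd_add hn, H7.Odd_add hn,
      H7.Odd_tot g a, hr, sum_range_add, sum_range_succ, sum_range_succ, eq_sub_iff_add_eq]
    have q2 : ∀ r : ℕ, a + r + s true = a + (l + 1 + r : ℕ) := fun r => by
      simp only [s, L]; push_cast; ring
    have q3 : g (a + l + s c) + g (a + (l + s (!c))) = g (a + l) + g (a + (l + 1 + l : ℕ)) := by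
      have q : ((l + 1 + l : ℕ) : ZMod (2 * l + 2)) = l + L := by simp only [L]; push_cast; ring
      rw [q]
      cases c
      · simp [s]
      · simp [s, add_assoc, add_comm]
    have q1 : s false = 0 := rfl
    simp only [q1, q2, add_zero]
    linear_combination (exp := 1) q3
  have k2 : ∀ i : ZMod (2 * l + 2) × Bool × Fin (2 ^ t),
      ∑ j, |Y j i| • pt (φ (e (j.1 + l + s j.2.1))) + pt (φ (e (i.1 + s i.2.1))) =
        ∑ b, g b - g (i.1 + s (!i.2.1)) := by
    rintro ⟨a, c, k⟩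
    rw [H7.Odd_blk (fun j => |Y j (a, c, k)|) (fun b _ => (a - b).val < l)
      (fun b c' => y2 _ _ b c') fun b c' => g (b + l + s c'), H7.Odd_sub hn, H7.Odd_sub hn,
      H7.Odd_tot' g (a + l), hr, sum_range_add, sum_range_succ, sum_range_succ, eq_sub_iff_add_eq]
    have q1 : ∀ r : ℕ, a - r + l + s false = a + l - r := fun r => by
      simp only [s]; simp; ring
    have q2 : ∀ r : ℕ, a - r + l + s true = a + l - (l + 1 + r : ℕ) := fun r => by
      simp only [s, L, if_true]; push_cast; linear_combination hL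
    have q3 : g (a + s c) + g (a + s (!c)) = g (a + l - l) + g (a + l - (l + 1 + l : ℕ)) := by
      have q' : a + l - (l + 1 + l : ℕ) = a + L := by
        push_cast
        linear_combination -hL
      rw [q', add_sub_cancel_right]
      cases c
      · simp [s]
      · simp [s, add_comm]
    simp only [q1, q2]
    linear_combination (exp := 1) q3
  have k3 : ∀ z, ∑ a, ({∑ b, g b - g (a + z)} : Multiset (X → ℤ)) = ∑ a, {∑ b, g b - g a} :=
    fun z => Equiv.sum_comp (Equiv.addRight z) fun a => ({∑ b, g b - g a} : Multiset (X → ℤ))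
  simp only [k1, k2] at k
  simp only [Fintype.sum_prod_type_right (α₁ := ZMod (2 * l + 2))] at k
  simp only [k3, sum_const, card_univ, Fintype.card_prod, Fintype.card_bool, Fintype.card_fin,
    ← add_nsmul] at k
  rw [← Equiv.sum_comp e, ← Equiv.sum_comp e fun d => pt (φ d),
    show 2 ^ (t + 2) = 2 * 2 ^ t + 2 * 2 ^ t by ring]
  exact k

/-- the second family, from the bordered periodisation on `ZMod l` -/
theorem G_famD {t l : ℕ} (h : G t l) (hl : 0 < l) :
    FamD (SSt X (2 * l + 1)) (2 ^ (t + 2)) (2 * l + 1) := by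
  intro D _ hD φ ψ
  have : NeZero l := ⟨hl.ne'⟩
  let e : ZMod l × Bool ≃ D := Fintype.equivOfCardEq (by simp [ZMod.card]; omega)
  obtain ⟨Y, hY, y1, y2⟩ := H7.G_per (n := l) h hl le_rfl
  have k := Fam_sum hY (fun p => ψ (e (p.1, p.2.1))) fun p => φ (e (p.1, p.2.1))
  have k0 : ∀ (y : ZMod l × Bool × Fin (2 ^ t) → ℤ) (f : D → X), (∀ b c, ∑ k, y (b, (c, k)) = 1) →
      ∑ j, y j • pt (f (e (j.1, j.2.1))) = ∑ d, pt (f d) := fun y f hy => by
    simp only [← Equiv.sum_comp e, Fintype.sum_prod_type, ← sum_smul, hy, one_smul]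
  have k1 := fun i : ZMod l × Bool × Fin (2 ^ t) => k0 (fun j => |Y i j|) φ fun b c =>
    (y1 i.1 i.2 b c).trans (if_pos (ZMod.val_lt _))
  have k2 := fun i : ZMod l × Bool × Fin (2 ^ t) => k0 (fun j => |Y j i|) ψ fun b c =>
    (y2 i.1 i.2 b c).trans (if_pos (ZMod.val_lt _))
  have k3 : ∀ F : D → Multiset (X → ℤ), ∑ i : ZMod l × Bool × Fin (2 ^ t), F (e (i.1, i.2.1)) =
      2 ^ t • ∑ d, F d := fun F => by
    simp only [← Equiv.sum_comp e, Fintype.sum_prod_type, sum_const, card_univ, Fintype.card_fin,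
      smul_sum]
  simp only [k1, k2] at k
  rw [k3 fun d => {∑ d', pt (φ d') + pt (ψ d)}, k3 fun d => {∑ d', pt (ψ d') + pt (φ d)},
    ← smul_add] at k
  rw [pow_add, mul_comm (2 ^ t), mul_smul]
  exact nsmul_mem k _

/-- the second family, from a Hadamard matrix -/
theorem had_famD {n : ℕ} (h : HadOn (Fin n)) : FamD (St X (n + 1)) 1 (n + 1) := by
  intro D _ hD φ ψ
  classical
  obtain ⟨H, h1, h2⟩ := HadOn.isW (h.of_card (J := D) (by simp; omega))
  have k := SSt.st (Fam_sum h1 ψ φ)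
  simp only [h2, one_smul] at k ⊢
  rwa [hD] at k

/-- the first family, from a conference matrix -/
theorem conf_famC {q : ℕ} (hq : q.Prime) (h2 : q ≠ 2) : FamC (St X q) 1 q := by
  intro D _ hD φ
  have := Fact.mk hq
  have := conf_piece (ZMod q) (by rw [ZMod.ringChar_zmod_n]; exact h2) (by simp [hD]) φ
  rwa [ZMod.card, ← one_smul ℕ (∑ d, _)] at this

omit [DecidableEq X] in
lemma FamC.mono [DecidableEq X] {S S' : AddSubmonoid (Multiset (X → ℤ))} {K c w : ℕ}
    (h : FamC S K w) (h' : ∀ μ ∈ S, c • μ ∈ S') : FamC S' (c * K) w := fun D _ hD φ => by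
  rw [mul_smul]; exact h' _ (h D hD φ)

omit [DecidableEq X] in
lemma FamD.mono [DecidableEq X] {S S' : AddSubmonoid (Multiset (X → ℤ))} {K c w : ℕ}
    (h : FamD S K w) (h' : ∀ μ ∈ S, c • μ ∈ S') : FamD S' (c * K) w := fun D _ hD φ ψ => by
  rw [mul_smul]; exact h' _ (h D hD φ ψ)

end Pool.Agent.MP_d8b1b3_co.H68.Od

namespace Pool.Agent.MP_d8b1b3_co.H68.Od

open Matrix Finset

variable {G C Γ : Type} [Fintype G] [DecidableEq G] [AddCommGroup G] [Fintype C] [DecidableEq C]
  [Fintype Γ] [DecidableEq Γ]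

/-- Translation of a line. -/
lemma push_Ln (t : G × G) (s : Bool) (g : G) :
    push (sh t) (Ln C Γ s g) = Ln C Γ s (g + if s = true then t.2 else t.1) := by
  simp only [Ln, map_sum, push_pt, sh]

lemma push_Tr (t : G × G) (s : Bool) (g : G) (y : C ⊕ Γ) (h : G) (z : C ⊕ Γ) :
    push (sh t) (Tr s g y h z) =
      Tr s (g + if s = true then t.2 else t.1) y (h + if s = true then t.1 else t.2) z := by
  simp only [Tr, map_add, map_sub, push_Ln, push_pt, sh]
  cases s <;> rfl

omit [DecidableEq G] in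
lemma MdA_shift {M : Type} [AddCommMonoid M] (F : G → G → M) (a b : G) :
    ∑ t : G × G, F (a + t.1) (b + t.2) = ∑ g, ∑ h, F g h := by
  rw [Fintype.sum_prod_type, ← Equiv.sum_comp (Equiv.addLeft a) fun g => ∑ h, F g h]
  exact sum_congr rfl fun g _ => Equiv.sum_comp (Equiv.addLeft b) (F (a + g))

/-- Development of a modified line. -/
lemma dev_Tr (s : Bool) (g : G) (y : C ⊕ Γ) (h : G) (z : C ⊕ Γ) :
    ∑ t : G × G, ({push (sh t) (Tr s g y h z)} : Multiset (Pt G C Γ → ℤ)) = tt G s y z := by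
  simp only [push_Tr, tt]
  cases s
  · exact MdA_shift (fun a b => ({Tr false a y b z} : Multiset (Pt G C Γ → ℤ))) g h
  · rw [sum_comm]
    exact MdA_shift (fun b a => ({Tr true a y b z} : Multiset (Pt G C Γ → ℤ))) h g

omit [AddCommGroup G] in
lemma sum_Ln_one : ∑ s, ∑ g : G, Ln C Γ s g = 1 := by
  have h : ∑ x : Pt G C Γ, pt x = 1 := by
    ext y
    simp [pt, Finset.sum_apply]
  rw [← h, Fintype.sum_prod_type]
  exact sum_congr rfl fun s _ =>
    (Fintype.sum_prod_type fun p : G × (C ⊕ Γ) => pt ((s, p) : Pt G C Γ)).symm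

/-- a swap (or no swap) on one pair of lines -/
def MdA_sa : Option ((C ⊕ Γ) × (C ⊕ Γ)) → G → G → Multiset (Pt G C Γ → ℤ)
  | none, g, h => {Ln C Γ false g} + {Ln C Γ true h}
  | some p, g, h => {Tr false g p.1 h p.2} + {Tr true h p.2 g p.1}

omit [AddCommGroup G] [Fintype G] in
lemma MdA_sa_sum (o : Option ((C ⊕ Γ) × (C ⊕ Γ))) (g h : G) :
    (MdA_sa o g h).sum = Ln C Γ false g + Ln C Γ true h := by
  cases o
  · simp only [MdA_sa, Multiset.sum_add, Multiset.sum_singleton]
  · simp only [MdA_sa, Multiset.sum_add, Multiset.sum_singleton, Tr, Bool.not_false, Bool.not_true]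
    abel

omit [AddCommGroup G] in
lemma MdA_sw (o : Option ((C ⊕ Γ) × (C ⊕ Γ))) : ∑ g : G, ∑ h : G, MdA_sa o g h = sw G o := by
  cases o
  · rfl
  · simp only [MdA_sa, sw, tt, sum_add_distrib]
    rw [sum_comm (f := fun g h : G => ({Tr true h _ g _} : Multiset (Pt G C Γ → ℤ)))]

omit [AddCommGroup G] in
lemma MdA_split {K M : Type} [Fintype K] [AddCommMonoid M] {g : K → Bool × G}
    (hg : Function.Injective g) (F : Bool → G → M) :
    ∑ κ, F (g κ).1 (g κ).2 + (∑ x with (false, x) ∉ univ.image g, F false x +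
      ∑ x with (true, x) ∉ univ.image g, F true x) = ∑ s, ∑ x, F s x := by
  rw [← Fintype.sum_prod_type', ← sum_filter_add_sum_filter_not univ (· ∈ univ.image g),
    filter_mem_eq_inter, univ_inter, sum_image hg.injOn, sum_filter (· ∉ univ.image g),
    Fintype.sum_prod_type, Fintype.sum_bool, sum_filter, sum_filter]
  exact congrArg _ (add_comm _ _)

/-- The rows are indexed by `G × G`; the untouched lines are paired and carry the swaps. -/
theorem Md.base {K : Type} [Fintype K] {g : K → Bool × G} (hg : Function.Injective g)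
    (hc : #{κ | (g κ).1 = false} = #{κ | (g κ).1 = true}) {ρ : Multiset (Pt G C Γ → ℤ)}
    (h : ρ.sum = ∑ κ, Ln C Γ (g κ).1 (g κ).2) :
    ∃ N ≤ Fintype.card G, (∑ t : G × G, ρ.map (push (sh t)), N) ∈ Md G C Γ := by
  have h0 := MdA_split hg fun s _ => if s = false then 1 else 0
  have h1 := MdA_split hg fun s _ => if s = true then 1 else 0
  rw [← card_filter] at h0 h1
  simp only [Fintype.sum_bool, Bool.true_eq_false, Bool.false_eq_true, if_true, if_false,
    sum_const_zero, sum_const, smul_eq_mul, mul_one, add_zero, zero_add, card_univ] at h0 h1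
  obtain ⟨N, hN⟩ : ∃ N, #{x | (false, x) ∉ univ.image g} = N := ⟨_, rfl⟩
  have hN' : #{x | (true, x) ∉ univ.image g} = N := by omega
  let a := (equivFinOfCardEq hN).symm
  let b := (equivFinOfCardEq hN').symm
  refine ⟨N, hN ▸ card_le_univ _, fun f hf => ⟨Fintype.card (G × G), ?_⟩⟩
  obtain ⟨o, ho⟩ : ∃ o : Fin N → Option ((C ⊕ Γ) × (C ⊕ Γ)),
      (f.map (sw G)).sum = ∑ i, sw G (o i) := by
    induction f using Quotient.inductionOn with
    | h l =>
      obtain rfl : l.length = N := hf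
      exact ⟨fun i => l[i.1], (Fin.sum_univ_fun_getElem l (sw G)).symm ▸ Multiset.sum_coe _⟩
  refine ⟨G × G, inferInstance, fun t => ρ.map (push (sh t)) +
    ∑ i, MdA_sa (o i) (a i + t.1) (b i + t.2), rfl, ?_, fun t => ?_⟩
  · rw [sum_add_distrib, sum_comm, ho]
    simp only [MdA_shift (MdA_sa (G := G) _), MdA_sw]
  · rw [Multiset.sum_add, ← map_multiset_sum, h, map_sum, Multiset.sum_sum]
    simp only [push_Ln, MdA_sa_sum, sum_add_distrib]
    rw [a.sum_comp fun x => Ln C Γ false (x.1 + t.1), b.sum_comp fun x => Ln C Γ true (x.1 + t.2),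
      sum_coe_sort _ fun x => Ln C Γ false (x + t.1), sum_coe_sort _ fun x => Ln C Γ true (x + t.2)]
    refine (MdA_split hg fun s x => Ln C Γ s (x + if s = true then t.2 else t.1)).trans ?_
    rw [← sum_Ln_one]
    exact sum_congr rfl fun s _ => Equiv.sum_comp (Equiv.addRight _) (Ln C Γ s)

/-- The row of `t` consists of the pairs `g`, `g + t`. -/
lemma sw_rows (o : Option ((C ⊕ Γ) × (C ⊕ Γ))) :
    (Fintype.card G, sw G o) ∈ Rows (Pt G C Γ) := by
  refine ⟨G, inferInstance, fun t => ∑ g, MdA_sa o g (g + t), rfl, ?_, fun t => ?_⟩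
  · rw [sum_comm, ← MdA_sw]
    exact sum_congr rfl fun g _ => (Equiv.sum_comp (Equiv.addLeft g) (MdA_sa o g)).symm
  · rw [Multiset.sum_sum, ← sum_Ln_one, Fintype.sum_bool, add_comm]
    simp only [MdA_sa_sum, sum_add_distrib]
    rw [← Equiv.sum_comp (Equiv.addRight t) (Ln C Γ true)]
    rfl

/-- Swaps alone form rows. -/
lemma Md.slot (n : ℕ) : ((0 : Multiset (Pt G C Γ → ℤ)), n) ∈ Md G C Γ := by
  intro f hf
  clear hf
  rw [zero_add]
  induction f using Multiset.induction_on with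
  | empty => exact ⟨0, zero_mem (Rows (Pt G C Γ))⟩
  | cons o f ih =>
    obtain ⟨m, hm⟩ := ih
    rw [Multiset.map_cons, Multiset.sum_cons]
    exact ⟨_, add_mem (sw_rows o) hm⟩

end Pool.Agent.MP_d8b1b3_co.H68.Od

namespace Pool.Agent.MP_d8b1b3_co.H68.Od

open Matrix Finset

section

variable {Y M : Type} [Fintype Y] [AddCommMonoid M]

/-- a combination of the shapes -/
def MdB_F (T : Bool → Y → Y → M) (n : Bool → Y → Y → ℕ) : M :=
  ∑ s, ∑ y, ∑ z, n s y z • T s y z

lemma MdB_F_add (T : Bool → Y → Y → M) (n n' : Bool → Y → Y → ℕ) :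
    MdB_F T n + MdB_F T n' = MdB_F T fun s y z => n s y z + n' s y z := by
  simp only [MdB_F, add_smul, sum_add_distrib]

lemma MdB_F_sw (T : Bool → Y → Y → M) (m : Y → Y → ℕ) :
    ∑ y, ∑ z, m y z • (T false y z + T true z y) =
      MdB_F T fun s y z => if s = true then m z y else m y z := by
  simp only [MdB_F, Fintype.sum_bool, smul_add, sum_add_distrib, if_true, Bool.false_eq_true,
    if_false]
  rw [add_comm]
  congr 1
  exact sum_comm

variable {C Γ : Type} [Fintype C] [Fintype Γ]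

lemma MdB_F_A (T : Bool → C ⊕ Γ → C ⊕ Γ → M) (a : Bool × (C ⊕ Γ) → ℕ) :
    ∑ p, a p • ∑ k, T p.1 p.2 (Sum.inr k) =
      MdB_F T fun s y z => Sum.elim (fun _ => 0) (fun _ => a (s, y)) z := by
  simp only [MdB_F, Fintype.sum_prod_type, smul_sum]
  refine sum_congr rfl fun s _ => sum_congr rfl fun y _ => ?_
  simp [Fintype.sum_sum_type]

lemma MdB_F_B (T : Bool → C ⊕ Γ → C ⊕ Γ → M) (b : Bool × (C ⊕ Γ) → ℕ) :
    ∑ p, b p • ∑ k, T (!p.1) (Sum.inr k) p.2 =
      MdB_F T fun s y z => Sum.elim (fun _ => 0) (fun _ => b (!s, z)) y := by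
  have h : ∀ s, ∑ z, ∑ k, b (!s, z) • T s (Sum.inr k) z =
      ∑ y, ∑ z, (Sum.elim (fun _ => 0) (fun _ => b (!s, z)) y : ℕ) • T s y z := by
    intro s
    rw [sum_comm, Fintype.sum_sum_type]
    simp
  simp only [MdB_F, Fintype.sum_prod_type, smul_sum, Fintype.sum_bool, ← h]
  exact add_comm _ _

lemma MdB_F_D [DecidableEq C] [DecidableEq Γ] (T : Bool → C ⊕ Γ → C ⊕ Γ → M) (c : ℕ) :
    c • ∑ k, (T false (Sum.inr k) (Sum.inr k) + T true (Sum.inr k) (Sum.inr k)) =
      MdB_F T fun _ y z => Sum.elim (fun _ => 0) (fun _ => if y = z then c else 0) y := by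
  have h : ∀ s, ∑ k, c • T s (Sum.inr k) (Sum.inr k) =
      ∑ y, ∑ z, (Sum.elim (fun _ => 0) (fun _ => if y = z then c else 0) y : ℕ) • T s y z := by
    intro s
    rw [Fintype.sum_sum_type]
    simp
  simp only [MdB_F, smul_sum, smul_add, sum_add_distrib, Fintype.sum_bool, ← h]
  exact add_comm _ _

lemma MdB_ne [DecidableEq Y] (a : Y) (f : Y → M) :
    ∑ y : {y : Y // y ≠ a}, f y + f a = ∑ y, f y := by
  rw [← sum_subtype (univ.erase a) (by simp), sum_erase_add _ _ (mem_univ a)]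

end

section

variable {G C Γ : Type} [Fintype G] [DecidableEq G] [Fintype C] [DecidableEq C]
  [Fintype Γ] [DecidableEq Γ] {S : AddSubmonoid (Multiset (Pt G C Γ → ℤ))}

/-- One family of the first kind for each `s k g h`. -/
lemma CC_mem {K w : ℕ} (h : FamC S K w) (hw : Fintype.card C + Fintype.card Γ = w) :
    K • CC G C Γ ∈ S := by
  simp only [CC, smul_sum]
  refine sum_mem fun s _ => sum_mem fun k _ => sum_mem fun g _ => sum_mem fun g' _ => ?_
  have := h (Option (C ⊕ Γ)) (by simp [hw])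
    fun o => o.elim ((!s, g', Sum.inr k) : Pt G C Γ) fun y => (s, g, y)
  simp only [Fintype.sum_option, Option.elim] at this
  convert this using 3
  · simp [Ln]
  · refine sum_congr rfl fun y _ => ?_
    rw [Tr, Ln]
    congr 1
    abel

/-- One family of the second kind for each `k g h`. -/
lemma DD_mem {K w : ℕ} (h : FamD S K w) (hw : Fintype.card C + Fintype.card Γ = w) :
    K • DD G C Γ ∈ S := by
  simp only [DD, smul_sum]
  refine sum_mem fun k _ => sum_mem fun g _ => sum_mem fun g' _ => ?_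
  have hc : Fintype.card {y : C ⊕ Γ // y ≠ Sum.inr k} + 1 = w := by
    have := MdB_ne (Sum.inr k : C ⊕ Γ) fun _ => (1 : ℕ)
    simpa [hw] using this
  have := h _ hc (fun y => ((false, g, y.1) : Pt G C Γ)) fun y => (true, g', y.1)
  have e : ∀ (s : Bool) (a : G), ∑ y : {y : C ⊕ Γ // y ≠ Sum.inr k}, pt ((s, a, y.1) : Pt G C Γ) =
      Ln C Γ s a - pt (s, a, Sum.inr k) := fun s a =>
    eq_sub_of_add_eq (MdB_ne (Sum.inr k : C ⊕ Γ) fun y => pt ((s, a, y) : Pt G C Γ))
  simp only [e] at this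
  exact this

lemma card_CC : Multiset.card (CC G C Γ) =
    2 * Fintype.card Γ * Fintype.card G ^ 2 * (Fintype.card C + Fintype.card Γ + 1) := by
  simp only [CC, Multiset.card_sum, Multiset.card_add, Multiset.card_singleton, sum_const,
    card_univ, smul_eq_mul, Fintype.card_bool, Fintype.card_sum]
  ring

lemma card_DD : Multiset.card (DD G C Γ) + 2 * Fintype.card Γ * Fintype.card G ^ 2 =
    2 * Fintype.card Γ * Fintype.card G ^ 2 * (Fintype.card C + Fintype.card Γ) := by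
  rcases isEmpty_or_nonempty Γ with hΓ | ⟨⟨k0⟩⟩
  · simp [DD]
  obtain ⟨n, hn⟩ : ∃ n, Fintype.card C + Fintype.card Γ = n + 1 :=
    Nat.exists_eq_succ_of_ne_zero (by have := Fintype.card_pos_iff.2 ⟨k0⟩; omega)
  have hc : ∀ k : Γ, Fintype.card {y : C ⊕ Γ // y ≠ Sum.inr k} = n := fun k => by
    have := MdB_ne (Sum.inr k : C ⊕ Γ) fun _ => (1 : ℕ)
    simp only [sum_const, card_univ, smul_eq_mul, mul_one, Fintype.card_sum] at this
    omega
  simp only [DD, Multiset.card_sum, Multiset.card_add, Multiset.card_singleton, sum_const,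
    card_univ, smul_eq_mul, hc, hn]
  ring

lemma CC_eq : CC G C Γ = Fintype.card Γ • sw G (none : Option ((C ⊕ Γ) × (C ⊕ Γ))) +
    ∑ p, AA G p := by
  simp only [CC, sw, AA, tt, sum_add_distrib, Fintype.sum_prod_type]
  congr 1
  · rw [Fintype.sum_bool, sum_const, sum_const, card_univ, smul_add, add_comm]
    congr 2
    exact sum_comm
  · refine sum_congr rfl fun s _ => ?_
    rw [sum_comm (s := (univ : Finset (C ⊕ Γ)))]
    refine sum_congr rfl fun k _ => ?_
    rw [sum_comm (s := (univ : Finset (C ⊕ Γ)))]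
    refine sum_congr rfl fun g _ => ?_
    rw [sum_comm (s := (univ : Finset (C ⊕ Γ)))]

lemma DD_eq : DD G C Γ + ∑ k : Γ, sw G (some ((Sum.inr k : C ⊕ Γ), Sum.inr k)) = ∑ p, BB G p := by
  have e : ∀ (s : Bool) (k : Γ), ∑ g : G, ∑ h : G, ∑ y : {y : C ⊕ Γ // y ≠ Sum.inr k},
      ({Tr s g (Sum.inr k) h y} : Multiset (Pt G C Γ → ℤ)) + tt G s (Sum.inr k) (Sum.inr k) =
      ∑ y, tt G s (Sum.inr k) y := by
    intro s k
    rw [← MdB_ne (Sum.inr k : C ⊕ Γ)]
    congr 1
    simp only [tt]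
    rw [sum_comm (s := (univ : Finset {y : C ⊕ Γ // y ≠ Sum.inr k}))]
    refine sum_congr rfl fun g _ => ?_
    rw [sum_comm (s := (univ : Finset {y : C ⊕ Γ // y ≠ Sum.inr k}))]
  simp only [DD, sw, BB, Fintype.sum_prod_type, Fintype.sum_bool, Bool.not_true, Bool.not_false]
  rw [sum_comm (s := (univ : Finset (C ⊕ Γ))), sum_comm (s := (univ : Finset (C ⊕ Γ))),
    ← sum_add_distrib, ← sum_add_distrib]
  refine sum_congr rfl fun k _ => ?_
  rw [← e, ← e, add_add_add_comm]
  congr 1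
  simp only [sum_add_distrib]
  congr 1
  exact sum_comm

lemma Dev.zero : Dev S 0 0 0 0 0 :=
  ⟨0, zero_mem _, fun _ => 0, fun _ => 0, 0, rfl, by
    simp only [zero_smul, sum_const_zero, add_zero]
    exact zero_mem (Md G C Γ),
    fun _ _ => rfl, fun _ _ => rfl, fun _ => le_rfl, fun _ _ => le_rfl, le_rfl⟩

lemma Dev.add {c x y B N c' x' y' B' N' : ℕ} (h : Dev S c x y B N) (h' : Dev S c' x' y' B' N') :
    Dev S (c + c') (x + x') (y + y') (B + B') (N + N') := by
  obtain ⟨μ, h0, ex, ho, n, h1, h2, h3, h4, h5, h6, h7⟩ := h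
  obtain ⟨μ', h0', ex', ho', n', h1', h2', h3', h4', h5', h6', h7'⟩ := h'
  refine ⟨μ + μ', add_mem h0 h0', fun p => ex p + ex' p, fun p => ho p + ho' p, n + n',
    by rw [Multiset.card_add, h1, h1'], ?_, fun s z => ?_, fun k k' => ?_,
    fun p => add_le_add (h5 p) (h5' p), fun s k => add_le_add (h6 s k) (h6' s k),
    add_le_add h7 h7'⟩
  · convert add_mem h2 h2' using 1
    simp only [add_smul, sum_add_distrib, Prod.mk_add_mk, Prod.mk.injEq, and_true]
    abel
  · have := h3 s z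
    have := h3' s z
    simp only
    omega
  · have := h4 k k'
    have := h4' k k'
    simp only
    omega

lemma Dev.nsmul {c x y B N : ℕ} (h : Dev S c x y B N) (n : ℕ) :
    Dev S (n * c) (n * x) (n * y) (n * B) (n * N) := by
  induction n with
  | zero => simpa using Dev.zero
  | succ n ih => simpa only [Nat.succ_mul] using ih.add h

/-- The families of the two kinds are the modified lines of the system together with swaps. -/
theorem Dev.finish [AddCommGroup G] [Nonempty Γ] {c x y B N K w e d D0 : ℕ} (h : Dev S c x y B N)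
    (hC : FamC S K w) (hD : FamD S K w) (hw : Fintype.card C + Fintype.card Γ = w)
    (he : ∀ _ : C, x + K * e = y) (hN : N ≤ (Fintype.card C + 1) * D0) (hd : 2 * B + D0 ≤ K * d) :
    ∃ μ ∈ S, ∃ n, (n, μ) ∈ Rows (Pt G C Γ) ∧ Multiset.card μ =
      c + 2 * Fintype.card Γ * Fintype.card G ^ 2 * (K * (2 * d * w + e * (w + 1))) := by
  obtain ⟨μ, h0, ex, ho, n, h1, h2, h3, h4, h5, h6, h7⟩ := h
  obtain ⟨k0⟩ := ‹Nonempty Γ›
  let m : C ⊕ Γ → C ⊕ Γ → ℕ := fun a b => match a, b with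
    | Sum.inl _, Sum.inl _ => 0
    | Sum.inl a, Sum.inr _ => K * d - ho (false, Sum.inl a)
    | Sum.inr _, Sum.inl b => K * d - ho (true, Sum.inl b)
    | Sum.inr k, Sum.inr k' => K * d + K * e - ex (false, Sum.inr k) +
        (K * d - ho (true, Sum.inr k')) - if k = k' then K * d else 0
  let f : Multiset (Option ((C ⊕ Γ) × (C ⊕ Γ))) :=
    ((K * d + K * e) * Fintype.card Γ) • {none} + ∑ a, ∑ b, m a b • {some (a, b)}
  have hf : (f.map (sw G)).sum = ((K * d + K * e) * Fintype.card Γ) • sw G none +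
      ∑ a, ∑ b, m a b • (tt G false a b + tt G true b a) := by
    let Φ := (Multiset.sumAddMonoidHom).comp (Multiset.mapAddMonoidHom (sw G (C := C) (Γ := Γ)))
    have e : ∀ o, Φ {o} = sw G o := fun o => by simp [Φ]
    show Φ f = _
    simp only [f, map_add, map_nsmul, map_sum, e]
    rfl
  have key : (K * d + K * e) • CC G C Γ + (K * d) • DD G C Γ =
      ∑ p, ex p • AA G p + ∑ p, ho p • BB G p + (f.map (sw G)).sum := by
    refine add_right_cancel
      (b := (K * d) • ∑ k : Γ, sw G (some ((Sum.inr k : C ⊕ Γ), Sum.inr k))) ?_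
    rw [add_assoc, ← smul_add, DD_eq, CC_eq, smul_add, smul_smul, hf, smul_sum, smul_sum]
    simp only [AA, BB, sw]
    rw [MdB_F_A (tt G) fun _ => K * d + K * e, MdB_F_B (tt G) fun _ => K * d, MdB_F_A, MdB_F_B,
      MdB_F_sw, MdB_F_D, add_assoc, MdB_F_add, MdB_F_add, add_left_comm, add_assoc, MdB_F_add,
      MdB_F_add]
    congr 2
    ext s a b
    have a1 := h5 (s, a)
    have a2 := h5 (!s, b)
    rcases a with a | a <;> rcases b with b | b
    · cases s <;> simp [m]
    · have := h3 s a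
      have := he a
      cases s <;> simp only [m, Sum.elim_inl, Sum.elim_inr, if_true, Bool.false_eq_true,
        if_false] <;> omega
    · cases s <;> simp only [m, Sum.elim_inl, Sum.elim_inr, if_true, Bool.false_eq_true,
        if_false, reduceCtorEq, Bool.not_true, Bool.not_false] at a2 ⊢ <;> omega
    · have b1 := h4 a b
      have b2 := h4 b a
      have b3 := h6 false a
      have b4 := h6 false b
      have b5 := h5 (true, Sum.inr a)
      cases s <;> simp only [m, Sum.elim_inr, if_true, Bool.false_eq_true, if_false,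
        Bool.not_true, Bool.not_false, Sum.inr.injEq, eq_comm (a := b)] at a2 ⊢ <;>
        split_ifs <;> omega
  have hcard : n ≤ Multiset.card f := by
    have e1 : ∀ a : C, D0 ≤ ∑ b, m (Sum.inl a) b := fun a =>
      le_trans (by have := h5 (false, Sum.inl a); simp only [m]; omega)
        (single_le_sum (f := m (Sum.inl a)) (fun _ _ => Nat.zero_le _) (mem_univ (Sum.inr k0)))
    have e2 : D0 ≤ ∑ k : Γ, ∑ b, m (Sum.inr k) b := by
      refine le_trans ?_ (single_le_sum (f := fun k : Γ => ∑ b, m (Sum.inr k) b)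
        (fun _ _ => Nat.zero_le _) (mem_univ k0))
      refine le_trans ?_ (single_le_sum (f := m (Sum.inr k0)) (fun _ _ => Nat.zero_le _)
        (mem_univ (Sum.inr k0)))
      have := h6 false k0
      have := h5 (true, Sum.inr k0)
      simp only [m, if_true]
      omega
    have e3 : Fintype.card C * D0 ≤ ∑ a : C, ∑ b, m (Sum.inl a) b := by
      simpa using sum_le_sum (s := univ) fun a _ => e1 a
    simp only [f, Multiset.card_add, Multiset.card_nsmul, Multiset.card_sum,
      Multiset.card_singleton, mul_one]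
    rw [Fintype.sum_sum_type]
    rw [add_mul, one_mul] at hN
    omega
  obtain ⟨n', hn'⟩ := add_mem h2 (Md.slot (G := G) (C := C) (Γ := Γ) (Multiset.card f - n)) f
    (by simp only [Prod.mk_add_mk]; omega)
  refine ⟨μ + ((d + e) • K • CC G C Γ + d • K • DD G C Γ),
    add_mem h0 (add_mem (nsmul_mem (CC_mem hC hw) _) (nsmul_mem (DD_mem hD hw) _)), n', ?_, ?_⟩
  · rw [smul_smul, smul_smul, add_mul, mul_comm d, mul_comm e, key]
    simpa only [Prod.mk_add_mk, add_zero, add_assoc] using hn'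
  · have c1 := card_CC (G := G) (C := C) (Γ := Γ)
    have c2 := card_DD (G := G) (C := C) (Γ := Γ)
    rw [hw] at c1 c2
    simp only [Multiset.card_add, Multiset.card_nsmul, h1, c1]
    zify at c2 ⊢
    linear_combination (d * K : ℤ) * c2

end

/-- The families alone give a tile. -/
theorem base_tile {K w : ℕ} (hw : 0 < w)
    (hC : ∀ (X : Type) [DecidableEq X], FamC (St X w) K w)
    (hD : ∀ (X : Type) [DecidableEq X], FamD (St X w) K w) : Tile w (2 * K * w) (2 * w) := by
  rcases Nat.eq_zero_or_pos K with rfl | hK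
  · simpa using (Tile.zero w (2 * w)).transpose
  obtain ⟨v, rfl⟩ : ∃ v, w = v + 1 := ⟨w - 1, by omega⟩
  let _ : AddCommGroup Unit := inferInstance
  obtain ⟨μ, h1, n, h2, h3⟩ := (Dev.zero (S := St (Pt Unit (Fin v) Unit) (v + 1))).finish
    (K := K) (w := v + 1) (e := 0) (d := 1) (D0 := 0) (hC _) (hD _) (by simp) (by simp) (by simp)
    (by simp)
  have hc : Fintype.card (Pt Unit (Fin v) Unit) = 2 * (v + 1) := by simp
  have h4 := Rows.count h2 (St.mass h1)
  have h5 := tile_of h1 h2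
  rw [hc] at h4 h5
  have h6 : n = 2 * K * (v + 1) := by
    refine Nat.eq_of_mul_eq_mul_right (m := 2 * (v + 1)) (by omega) ?_
    rw [h4, h3]
    simp
    ring
  rwa [h6] at h5

end Pool.Agent.MP_d8b1b3_co.H68.Od

namespace Pool.Agent.MP_d8b1b3_co.H68.Od

open Matrix Finset

lemma sum_sub {A M : Type} [Fintype A] [AddCommMonoid M] (p : A → Prop) [DecidablePred p]
    (f : A → M) : ∑ a : {a // p a}, f a = ∑ a, if p a then f a else 0 := by
  rw [← sum_filter, ← sum_subtype (univ.filter p) (by simp)]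

lemma exists_match {A H : Type} [Fintype A] [Fintype H] (sa : A → Bool) (sh : H → Bool)
    (sp : H → Prop) [DecidablePred sp] (h1 : ∀ s, #{a | sa a = s} = #{x | sh x = s})
    (h2 : #{x | sh x = false ∧ sp x} = #{x | sh x = true ∧ sp x}) :
    ∃ β : A ≃ H, ∀ a, sa a = if sp (β a) then !sh (β a) else sh (β a) := by
  have key : ∀ s, Fintype.card {a // sa a = s} =
      Fintype.card {x // (if sp x then !sh x else sh x) = s} := fun s => by
    rw [Fintype.card_subtype, Fintype.card_subtype, h1,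
      ← card_filter_add_card_filter_not (s := filter _ _) sp,
      ← card_filter_add_card_filter_not (s := filter (fun x => ite _ _ _ = s) _) sp]
    simp only [filter_filter]
    congr 1
    · refine Eq.trans (b := #{x | sh x = !s ∧ sp x}) (by cases s <;> simp [h2]) ?_
      refine congrArg _ (filter_congr fun x _ => ?_)
      by_cases hx : sp x <;> simp [hx]
    · refine congrArg _ (filter_congr fun x _ => ?_)
      by_cases hx : sp x <;> simp [hx]
  let g : H → Bool := fun x => if sp x then !sh x else sh x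
  exact ⟨Equiv.ofFiberEquiv (f := sa) (g := g) fun s => Fintype.equivOfCardEq (key s),
    fun a => (Equiv.ofFiberEquiv_map (f := sa) (g := g) _ a).symm⟩

section

variable {G C Γ : Type} [Fintype G] [DecidableEq G] [AddCommGroup G] [Fintype C] [DecidableEq C]
  [Fintype Γ] [DecidableEq Γ]

/-- one group of stars is completed by modified lines -/
lemma grp {Bs A : Type} [Fintype Bs] [Fintype A] (bl : Bs → G) (sa : A → Bool) (la it : A → G)
    (pa : A → C ⊕ Γ) (β : A → Bool × Bs × (C ⊕ Γ)) (dir : A → Prop) [DecidablePred dir] (k : Γ)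
    (ν : Multiset (Pt G C Γ → ℤ))
    (hν : ν.sum + ∑ a, pt ((β a).1, bl (β a).2.1, (β a).2.2) =
      ∑ x : Bool × Bs × (C ⊕ Γ), pt (x.1, bl x.2.1, x.2.2) + ∑ a, pt (sa a, la a, pa a))
    (hs : ∀ a, sa a = if dir a then !(β a).1 else (β a).1)
    (hd : #{a | sa a = false ∧ dir a} = #{a | sa a = true ∧ dir a})
    (i1 : Function.Injective bl) (i2 : ∀ a a', sa a = sa a' → la a = la a' → a = a')
    (i3 : Function.Injective it) (i4 : ∀ a b, la a ≠ bl b) (i5 : ∀ a b, it a ≠ bl b)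
    (i6 : ∀ a a', la a ≠ it a') :
    ∃ N ≤ Fintype.card G, (∑ t : G × G, ν.map (push (sh t)) +
      ∑ a, (if dir a then tt G (sa a) (pa a) (β a).2.2 else
        tt G (sa a) (pa a) (Sum.inr k) + tt G (!sa a) (Sum.inr k) (β a).2.2), N) ∈ Md G C Γ := by
  let g : (Bool × Bs) ⊕ A ⊕ {a // ¬dir a} → Bool × G :=
    Sum.elim (fun x => (x.1, bl x.2)) (Sum.elim (fun a => (sa a, la a)) fun a => (!sa a, it a))
  have hg : Function.Injective g := by
    rintro (x | a | a) (x' | a' | a') e <;> simp only [g, Sum.elim_inl, Sum.elim_inr,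
      Prod.mk.injEq] at e
    · rw [Prod.ext e.1 (i1 e.2)]
    · exact absurd e.2.symm (i4 _ _)
    · exact absurd e.2.symm (i5 _ _)
    · exact absurd e.2 (i4 _ _)
    · rw [i2 _ _ e.1 e.2]
    · exact absurd e.2 (i6 _ _)
    · exact absurd e.2 (i5 _ _)
    · exact absurd e.2.symm (i6 _ _)
    · rw [Subtype.ext (i3 e.2)]
  have hc : ∀ s, #{κ | (g κ).1 = s} + #{a | sa a = !s ∧ dir a} =
      Fintype.card Bs + Fintype.card A := fun s => by
    have e : #{κ | (g κ).1 = s} = ∑ x : Bool × Bs, (if x.1 = s then 1 else 0) +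
        (∑ a, (if sa a = s then 1 else 0) +
          ∑ a : {a // ¬dir a}, if (!sa a) = s then 1 else 0) := by
      rw [card_filter, Fintype.sum_sum_type, Fintype.sum_sum_type]; rfl
    rw [e, sum_sub (fun a => ¬dir a) fun a => if (!sa a) = s then 1 else 0, card_filter, add_assoc,
      add_assoc, ← sum_add_distrib, ← sum_add_distrib, Fintype.sum_prod_type]
    congr 1
    · cases s <;> simp
    · rw [← card_univ, card_eq_sum_ones]
      refine sum_congr rfl fun a _ => ?_
      by_cases h : dir a <;> cases s <;> cases sa a <;> simp [h]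
  obtain ⟨N, h1, h2⟩ := Md.base (C := C) (Γ := Γ) hg (by
      have a := hc false
      have b := hc true
      simp only [Bool.not_false, Bool.not_true] at a b
      omega)
    (ρ := ν + ∑ a, if dir a then {Tr (sa a) (la a) (pa a) (bl (β a).2.1) (β a).2.2} else
      {Tr (sa a) (la a) (pa a) (it a) (Sum.inr k)} +
        {Tr (!sa a) (it a) (Sum.inr k) (bl (β a).2.1) (β a).2.2}) (by
      simp only [Fintype.sum_sum_type, g, Sum.elim_inl, Sum.elim_inr,
        sum_sub (fun a => ¬dir a) fun a => Ln C Γ (!sa a) (it a)]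
      have e : ∑ x : Bool × Bs, Ln C Γ x.1 (bl x.2) =
          ∑ x : Bool × Bs × (C ⊕ Γ), pt (x.1, bl x.2.1, x.2.2) := by
        simp only [Fintype.sum_prod_type, Ln]
      rw [Multiset.sum_add, Multiset.sum_sum, e, sum_congr rfl (g := fun a =>
        Ln C Γ (sa a) (la a) + (if ¬dir a then Ln C Γ (!sa a) (it a) else 0) -
          pt (sa a, la a, pa a) + pt ((β a).1, bl (β a).2.1, (β a).2.2))]
      · simp only [sum_add_distrib, sum_sub_distrib]
        linear_combination (exp := 1) hν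
      intro a _
      have := hs a
      by_cases h : dir a <;> simp only [h, if_true, if_false, not_true, not_false_iff] at this ⊢
      · simp only [Multiset.sum_singleton, Tr, this, Bool.not_not]
        abel
      · simp only [Multiset.sum_add, Multiset.sum_singleton, Tr, this, Bool.not_not]
        abel)
  refine ⟨N, h1, ?_⟩
  convert h2 using 2
  simp only [Multiset.map_add, sum_add_distrib]
  congr 1
  have e : ∀ (t : G × G) (f : A → Multiset (Pt G C Γ → ℤ)),
      (∑ a, f a).map (push (sh t)) = ∑ a, (f a).map (push (sh t)) := fun t f =>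
    map_sum (Multiset.mapAddMonoidHom (push (sh t))) _ _
  simp only [e]
  rw [sum_comm]
  refine sum_congr rfl fun a _ => ?_
  split_ifs <;> simp only [Multiset.map_add, Multiset.map_singleton, sum_add_distrib, dev_Tr]

end

lemma card_sub {A : Type} (s : Finset A) (p : A → Prop) [DecidablePred p] :
    #{a : s | p a} = #{a ∈ s | p a} := by
  rw [card_filter, card_filter, sum_coe_sort s fun a => if p a then 1 else 0]

section

variable {C Γ : Type} [Fintype C] [DecidableEq C] [Fintype Γ] [DecidableEq Γ] [AddCommGroup Γ]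

/-- rotation of the special positions -/
def rot (C : Type) (ρ : Γ) : C ⊕ Γ ≃ C ⊕ Γ := (Equiv.refl C).sumCongr (Equiv.addRight ρ)

/-- the number of rotations that move `x` to `p` -/
def cnt (x p : Bool × (C ⊕ Γ)) : ℕ := #{ρ : Γ | (x.1, rot C ρ x.2) = p}

lemma sum_rot {M : Type} [AddCommMonoid M] (f : Bool × (C ⊕ Γ) → M) (x : Bool × (C ⊕ Γ)) :
    ∑ ρ : Γ, f (x.1, rot C ρ x.2) = ∑ p, cnt x p • f p := by
  rw [← sum_fiberwise univ fun ρ : Γ => (x.1, rot C ρ x.2)]
  refine sum_congr rfl fun p _ => ?_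
  rw [cnt, ← sum_const]
  exact sum_congr rfl fun ρ h => by rw [(mem_filter.1 h).2]

omit [Fintype C] in
lemma cnt_inl (x : Bool × (C ⊕ Γ)) (s : Bool) (y : C) :
    cnt x (s, Sum.inl y) = Fintype.card Γ * if x = (s, Sum.inl y) then 1 else 0 := by
  obtain ⟨s', y' | k⟩ := x
  · by_cases h : s' = s ∧ y' = y <;> simp [cnt, rot, h]
  · simp [cnt, rot]

omit [Fintype C] in
lemma cnt_inr (x : Bool × (C ⊕ Γ)) (s : Bool) (k : Γ) :
    cnt x (s, Sum.inr k) = if x.1 = s ∧ x.2.isRight = true then 1 else 0 := by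
  obtain ⟨s', y' | k'⟩ := x
  · simp [cnt, rot]
  · by_cases h : s' = s
    · simp [cnt, rot, h, ← eq_sub_iff_add_eq', filter_eq']
    · simp [cnt, rot, h]

lemma rot_tt (G : Type) [Fintype G] [DecidableEq G] (s : Bool) (y z : C ⊕ Γ) (d : Prop)
    [Decidable d] (h : d → y.isRight = false ∧ z.isRight = true) :
    ∑ ρ : Γ, ∑ k : Γ, (if d then tt G s (rot C ρ y) (rot C ρ z) else
      tt G s (rot C ρ y) (Sum.inr k) + tt G (!s) (Sum.inr k) (rot C ρ z)) =
      ∑ p, cnt (s, y) p • AA G p + ∑ p, (if d then 0 else cnt (s, z) p) • BB G p := by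
  rw [← sum_rot (AA G) (s, y)]
  split_ifs with hd
  · obtain ⟨h1, h2⟩ := h hd
    rcases y with y | y <;> rcases z with z | z <;> simp only [Sum.isRight, reduceCtorEq] at h1 h2
    simp only [zero_smul, sum_const_zero, add_zero]
    rw [sum_comm]
    exact sum_congr rfl fun _ _ =>
      Equiv.sum_comp (Equiv.addLeft z) fun k => tt G s (Sum.inl y) (Sum.inr k)
  · rw [← sum_rot (BB G) (s, z), ← sum_add_distrib]
    exact sum_congr rfl fun _ _ => sum_add_distrib

end

section

variable {C Γ J Nd V O Gr Mb : Type} [Fintype C] [DecidableEq C] [Fintype Γ] [DecidableEq Γ]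
  [Fintype J] [DecidableEq J] [DecidableEq Nd] [Fintype V] [DecidableEq V] [Fintype O]
  [DecidableEq O] [Fintype Gr] [Fintype Mb] (P : PS C Γ J Nd V O Gr Mb) {w c B S : ℕ}

/-- the long columns of a group -/
def PS.Lg (γ : Gr) : Finset (Mb × J) := {a | a.2 ∈ P.inc γ a.1 ∧ P.nd a.2 = P.rn γ a.1}

/-- the single columns of a group -/
def PS.Sg (γ : Gr) : Finset (Mb × J) := {a | a.2 ∈ P.inc γ a.1 ∧ P.nd a.2 ≠ P.rn γ a.1}

/-- the cell of a long column -/
def PS.cell (a : Mb × J) : Bool × (V × O) × (C ⊕ Γ) :=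
  (P.sd a.2, (P.lb a.2, P.off a.1), P.ps a.2)

/-- the holes of a group -/
def PS.Ho (γ : Gr) : Finset (Bool × (V × O) × (C ⊕ Γ)) := univ \ (P.Lg γ).image P.cell

omit [Fintype C] [DecidableEq C] [Fintype Γ] [DecidableEq Γ] [Fintype V] [DecidableEq V] [Fintype O]
  [DecidableEq O] [Fintype Gr] in
lemma PS.sum_inc (γ : Gr) {M : Type} [AddCommMonoid M] (f : Mb × J → M) :
    ∑ m, ∑ j ∈ P.inc γ m, f (m, j) = ∑ a ∈ P.Lg γ, f a + ∑ a ∈ P.Sg γ, f a := by
  rw [PS.Lg, PS.Sg, ← filter_filter, ← filter_filter, sum_filter_add_sum_filter_not, sum_filter,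
    Fintype.sum_prod_type]
  simp

variable {P}

lemma PS.OK.sum_cells (ok : P.OK w c B S) (γ : Gr) {M : Type} [AddCommMonoid M]
    (f : Bool × (V × O) × (C ⊕ Γ) → M) :
    ∑ x ∈ P.Ho γ, f x + ∑ a ∈ P.Lg γ, f (P.cell a) = ∑ x, f x := by
  rw [← sum_image (g := P.cell), PS.Ho, sum_sdiff (subset_univ _)]
  intro a ha b hb e
  simp only [PS.Lg, coe_filter, mem_univ, true_and, Set.mem_ofPred_eq] at ha hb
  simp only [PS.cell, Prod.mk.injEq] at e
  obtain ⟨e1, e2⟩ := ok.long γ _ _ _ _ ha.1 ha.2 hb.1 hb.2 e.1 e.2.1.1 e.2.1.2 e.2.2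
  exact Prod.ext e1 e2

lemma PS.OK.count (ok : P.OK w c B S) (γ : Gr) (q : Bool × (C ⊕ Γ) → Prop) [DecidablePred q] :
    #{a ∈ P.Sg γ | q (P.sd a.2, P.ps a.2)} + Fintype.card V * Fintype.card O * #{p | q p} =
      #{x ∈ P.Ho γ | q (x.1, x.2.2)} + ∑ m, #{j ∈ P.inc γ m | q (P.sd j, P.ps j)} := by
  have h1 : #{x ∈ P.Ho γ | q (x.1, x.2.2)} + #{a ∈ P.Lg γ | q (P.sd a.2, P.ps a.2)} =
      ∑ s, ∑ _z : V × O, ∑ y, if q (s, y) then 1 else 0 := by
    rw [card_filter, card_filter]
    refine (ok.sum_cells γ fun x => if q (x.1, x.2.2) then 1 else 0).trans ?_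
    rw [Fintype.sum_prod_type]
    exact sum_congr rfl fun s _ => Fintype.sum_prod_type _
  have h2 : ∑ m, #{j ∈ P.inc γ m | q (P.sd j, P.ps j)} =
      #{a ∈ P.Lg γ | q (P.sd a.2, P.ps a.2)} + #{a ∈ P.Sg γ | q (P.sd a.2, P.ps a.2)} := by
    simp only [card_filter]
    exact P.sum_inc γ fun a => if q (P.sd a.2, P.ps a.2) then 1 else 0
  simp only [sum_const, card_univ, Fintype.card_prod, smul_eq_mul, ← mul_sum] at h1
  rw [card_filter q univ, Fintype.sum_prod_type]
  omega

lemma PS.OK.side (ok : P.OK w c B S) (hw : Fintype.card C + Fintype.card Γ = w) (γ : Gr)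
    (s : Bool) : #{a ∈ P.Sg γ | P.sd a.2 = s} = #{x ∈ P.Ho γ | x.1 = s} := by
  have h1 := ok.count γ fun p => p.1 = s
  have h2 : #{p : Bool × (C ⊕ Γ) | p.1 = s} = w := by
    rw [card_filter, Fintype.sum_prod_type]
    cases s <;> simp [hw]
  have h3 : ∑ m, #{j ∈ P.inc γ m | P.sd j = false} + ∑ m, #{j ∈ P.inc γ m | P.sd j = true} =
      2 * (Fintype.card V * Fintype.card O * w) := by
    rw [← sum_add_distrib, ← mul_assoc, ← ok.mb, ← smul_eq_mul, ← card_univ, ← sum_const]
    refine sum_congr rfl fun m _ => ?_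
    rw [← ok.row γ m, ← card_filter_add_card_filter_not (s := P.inc γ m) fun j => P.sd j = false]
    simp only [Bool.not_eq_false]
  have h4 := ok.bal γ
  rw [h2] at h1
  cases s <;> simp only at h1 <;> omega

lemma PS.OK.spec (ok : P.OK w c B S) (γ : Gr) :
    #{a ∈ P.Sg γ | P.sd a.2 = false ∧ (P.ps a.2).isRight = true} +
      #{x ∈ P.Ho γ | x.1 = true ∧ x.2.2.isRight = true} =
    #{a ∈ P.Sg γ | P.sd a.2 = true ∧ (P.ps a.2).isRight = true} +
      #{x ∈ P.Ho γ | x.1 = false ∧ x.2.2.isRight = true} := by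
  have h1 := ok.count γ fun p => p.1 = false ∧ p.2.isRight = true
  have h2 := ok.count γ fun p => p.1 = true ∧ p.2.isRight = true
  have h3 : #{p : Bool × (C ⊕ Γ) | p.1 = false ∧ p.2.isRight = true} =
      #{p : Bool × (C ⊕ Γ) | p.1 = true ∧ p.2.isRight = true} := by
    rw [card_filter, card_filter, Fintype.sum_prod_type, Fintype.sum_prod_type]
    simp
  have h4 := ok.bal' γ
  rw [h3] at h1
  simp only at h1 h2
  omega

omit [Fintype C] [Fintype Γ] in
lemma PS.OK.gen0 (ok : P.OK w c B S) {γ : Gr} (h : P.gen γ = true) (s : Bool) :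
    #{a ∈ P.Sg γ | P.sd a.2 = s ∧ (P.ps a.2).isRight = true} = 0 := by
  refine card_eq_zero.2 (filter_eq_empty_iff.2 fun a ha e => ?_)
  obtain ⟨-, h1, h2⟩ := mem_filter.1 ha
  simp [ok.core γ _ _ h h1 h2] at e

omit [Fintype C] [Fintype Γ] in
lemma PS.OK.card_Sg (ok : P.OK w c B S) (γ : Gr) : #(P.Sg γ) ≤ S := by
  refine le_trans (le_of_eq ?_) (ok.few γ)
  simp only [PS.Sg, card_filter, Fintype.sum_prod_type, ite_and]
  simp

omit [Fintype C] [Fintype Γ] in
lemma PS.OK.colsum (ok : P.OK w c B S) (q : J → Prop) [DecidablePred q] :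
    ∑ γ, ∑ m, #{j ∈ P.inc γ m | q j} = w * #{j | q j} := by
  have e : ∀ γ, ∑ m, #{j ∈ P.inc γ m | q j} = ∑ j with q j, #{m | j ∈ P.inc γ m} := fun γ => by
    rw [sum_congr rfl fun j _ => card_filter (fun m => j ∈ P.inc γ m) univ, sum_comm]
    refine sum_congr rfl fun m _ => ?_
    rw [← card_filter, filter_comm, filter_mem_eq_inter, univ_inter]
  simp only [e]
  rw [sum_comm]
  simp only [ok.col, sum_const, smul_eq_mul, mul_comm]

lemma PS.OK.beta (ok : P.OK w c B S) (hw : Fintype.card C + Fintype.card Γ = w) (γ : Gr) :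
    ∃ β : P.Sg γ ≃ P.Ho γ, (∀ a, P.sd a.1.2 =
      if P.gen γ = true ∧ (β a).1.2.2.isRight = true then !(β a).1.1 else (β a).1.1) ∧
      #{a | P.sd a.1.2 = false ∧ P.gen γ = true ∧ (β a).1.2.2.isRight = true} =
        #{a | P.sd a.1.2 = true ∧ P.gen γ = true ∧ (β a).1.2.2.isRight = true} := by
  have h2 : #{x : P.Ho γ | x.1.1 = false ∧ P.gen γ = true ∧ x.1.2.2.isRight = true} =
      #{x : P.Ho γ | x.1.1 = true ∧ P.gen γ = true ∧ x.1.2.2.isRight = true} := by
    by_cases h : P.gen γ = true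
    · have := ok.spec γ
      rw [ok.gen0 h, ok.gen0 h, zero_add, zero_add] at this
      simp only [h, true_and]
      rw [card_sub (P.Ho γ) fun x => x.1 = false ∧ x.2.2.isRight = true,
        card_sub (P.Ho γ) fun x => x.1 = true ∧ x.2.2.isRight = true, this]
    · simp [h]
  obtain ⟨β, hβ⟩ := exists_match (fun a : P.Sg γ => P.sd a.1.2) (fun x : P.Ho γ => x.1.1)
    (fun x => P.gen γ = true ∧ x.1.2.2.isRight = true) (fun s => by
      rw [card_sub (P.Sg γ) fun a => P.sd a.2 = s, card_sub (P.Ho γ) fun x => x.1 = s,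
        ok.side hw]) h2
  have e : ∀ s, #{a | P.sd a.1.2 = s ∧ P.gen γ = true ∧ (β a).1.2.2.isRight = true} =
      #{x : P.Ho γ | x.1.1 = !s ∧ P.gen γ = true ∧ x.1.2.2.isRight = true} := fun s =>
    card_equiv β fun a => by
      simp only [mem_filter, mem_univ, true_and]
      refine and_congr_left fun h => ?_
      rw [hβ a, if_pos h]
      cases s <;> simp
  exact ⟨β, hβ, by rw [e, e]; exact h2.symm⟩

end

theorem dev (F : Type) [Field F] [Fintype F] [DecidableEq F] {C Γ : Type} [Fintype C]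
    [DecidableEq C] [Fintype Γ] [DecidableEq Γ] [AddCommGroup Γ]
    {S' : AddSubmonoid (Multiset (Pt (F × F × F × F) C Γ → ℤ))} {w c B S n nb r E : ℕ}
    (h : HasPS C Γ S' w c B S n nb) (hr : Fintype.card F = r) (hE : Fintype.card Γ = E)
    (hn : n ≤ r) (hS : S < r) (hw : Fintype.card C + E = w) :
    Dev S' (r ^ 9 * E ^ 2 * (2 * nb)) (r * E * nb) (r * E * (w * c)) (r * E * (B * S))
      (r ^ 5 * E ^ 2 * nb) := by
  obtain ⟨J, Nd, V, O, Gr, Mb, _, _, _, _, _, _, _, _, _, _, P, ok, hNd, hV, hO, hMb, hnb, hGr,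
    hS'⟩ := h
  subst hr hE
  obtain ⟨iN⟩ := Function.Embedding.nonempty_of_card_le (hNd.trans hn)
  obtain ⟨iV⟩ := Function.Embedding.nonempty_of_card_le (hV.trans hn)
  obtain ⟨iO⟩ := Function.Embedding.nonempty_of_card_le (hO.trans hn)
  obtain ⟨iM⟩ := Function.Embedding.nonempty_of_card_le (hMb.trans hn)
  have iS : ∀ γ, P.Sg γ ↪ Fˣ := fun γ => (Function.Embedding.nonempty_of_card_le (by
    have := ok.card_Sg γ
    rw [Fintype.card_coe, Fintype.card_units]
    omega)).some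
  choose β β1 β2 using ok.beta hw
  let d : Gr → Mb × J → F := fun γ a => iN (P.nd a.2) - iN (P.rn γ a.1)
  have d0 : ∀ γ (a : P.Sg γ), d γ a ≠ 0 := fun γ a e =>
    (mem_filter.1 a.2).2.2 (iN.injective (sub_eq_zero.1 e))
  let lab : Gr → F → Mb × J → F × F × F × F := fun γ c a =>
    (iV (P.lb a.2), iO (P.off a.1), d γ a, (c + iM a.1) * d γ a)
  let bl : V × O → F × F × F × F := fun b => (iV b.1, iO b.2, 0, 0)
  choose N N1 N2 using fun γ (c : F) (ρ k : Γ) => grp bl (fun a : P.Sg γ => P.sd a.1.2)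
    (fun a => lab γ c a) (fun a => (0, 0, 0, iS γ a)) (fun a => rot C ρ (P.ps a.1.2))
    (fun a => ((β γ a).1.1, (β γ a).1.2.1, rot C ρ (β γ a).1.2.2))
    (fun a => P.gen γ = true ∧ (β γ a).1.2.2.isRight = true) k
    (∑ m, {∑ j ∈ P.inc γ m, pt (P.sd j, lab γ c (m, j), rot C ρ (P.ps j))})
    (by
      have e1 := ok.sum_cells γ fun x => pt (X := Pt _ C Γ) (x.1, bl x.2.1, rot C ρ x.2.2)
      have e2 := P.sum_inc γ fun a =>
        pt (X := Pt _ C Γ) (P.sd a.2, lab γ c a, rot C ρ (P.ps a.2))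
      have e3 := Equiv.sum_comp ((Equiv.refl Bool).prodCongr ((Equiv.refl (V × O)).prodCongr
        (rot C ρ))) fun x => pt (X := Pt _ C Γ) (x.1, bl x.2.1, x.2.2)
      rw [sum_congr rfl (s₁ := P.Lg γ) (g := fun a =>
        pt (P.sd a.2, bl (P.lb a.2, P.off a.1), rot C ρ (P.ps a.2))) fun a ha => by
          simp only [lab, d, bl, (mem_filter.1 ha).2.2, sub_self, mul_zero]] at e2
      rw [← sum_coe_sort (P.Ho γ), ← Equiv.sum_comp (β γ)] at e1
      rw [← sum_coe_sort (P.Sg γ)] at e2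
      rw [Multiset.sum_sum, ← e3]
      simp only [Multiset.sum_singleton]
      exact (congrArg₂ _ e2 rfl).trans (by
        rw [add_right_comm, add_comm (∑ a ∈ P.Lg γ, _)]; exact congrArg₂ _ e1 rfl))
    (β1 γ) (β2 γ)
    (fun b b' e => by
      simp only [bl, Prod.mk.injEq] at e
      exact Prod.ext (iV.injective e.1) (iO.injective e.2.1))
    (fun a a' e1 e => by
      simp only [lab, Prod.mk.injEq] at e
      obtain ⟨e2, -, e3, e4⟩ := e
      rw [← e3] at e4
      have e5 := iM.injective (add_left_cancel (mul_right_cancel₀ (d0 γ a) e4))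
      obtain ⟨-, a1, a2⟩ := mem_filter.1 a.2
      obtain ⟨-, a3, -⟩ := mem_filter.1 a'.2
      simp only [d, ← e5, sub_left_inj] at e3 a3
      exact Subtype.ext (Prod.ext e5
        (ok.single γ _ _ _ a1 a3 a2 e1 (iN.injective e3) (iV.injective e2))))
    (fun a a' e => (iS γ).injective (Units.ext (congrArg (fun x => x.2.2.2) e)))
    (fun a b e => d0 γ a (congrArg (fun x => x.2.2.1) e))
    (fun a b e => (iS γ a).ne_zero (congrArg (fun x => x.2.2.2) e))
    (fun a a' e => d0 γ a (congrArg (fun x => x.2.2.1) e))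
  let φ : F → Γ → (F × F × F × F) × (F × F × F × F) → J → Pt (F × F × F × F) C Γ :=
    fun c ρ t j => sh t (P.sd j, (iV (P.lb j), 0, iN (P.nd j), c * iN (P.nd j)), rot C ρ (P.ps j))
  have a1 : ∀ γ s y, ∑ a ∈ P.Sg γ, cnt (P.sd a.2, P.ps a.2) (s, Sum.inl y) = Fintype.card Γ *
      #{a ∈ P.Sg γ | (P.sd a.2, P.ps a.2) = (s, Sum.inl y)} := fun γ s y => by
    simp only [cnt_inl, card_filter, mul_sum]
  have a2 : ∀ γ s k, ∑ a ∈ P.Sg γ, cnt (P.sd a.2, P.ps a.2) (s, Sum.inr k) =
      #{a ∈ P.Sg γ | P.sd a.2 = s ∧ (P.ps a.2).isRight = true} := fun γ s k => by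
    simp only [cnt_inr, card_filter]
  have a3 : ∀ γ s y, ∑ x ∈ P.Ho γ, (if P.gen γ = true ∧ x.2.2.isRight = true then 0 else
      cnt (x.1, x.2.2) (s, Sum.inl y)) = Fintype.card Γ *
      #{x ∈ P.Ho γ | (x.1, x.2.2) = (s, Sum.inl y)} := fun γ s y => by
    simp only [cnt_inl, card_filter, mul_sum]
    refine sum_congr rfl fun x _ => ?_
    obtain ⟨s', b, z | z⟩ := x <;> simp
  have a4 : ∀ γ s k, ∑ x ∈ P.Ho γ, (if P.gen γ = true ∧ x.2.2.isRight = true then 0 else
      cnt (x.1, x.2.2) (s, Sum.inr k)) = if P.gen γ = true then 0 else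
      #{x ∈ P.Ho γ | x.1 = s ∧ x.2.2.isRight = true} := fun γ s k => by
    simp only [cnt_inr, card_filter]
    split_ifs with h
    · refine sum_eq_zero fun x _ => ?_
      by_cases h' : x.2.2.isRight = true <;> simp [h, h']
    · exact sum_congr rfl fun x _ => if_neg fun e => h e.1
  have b1 : ∀ (T : Finset Gr) (f : Gr → ℕ), #T ≤ B → (∀ γ, f γ ≤ S) → (∀ γ, γ ∉ T → f γ = 0) →
      ∑ γ, f γ ≤ B * S := fun T f h1 h2 h3 => by
    rw [← sum_subset (subset_univ T) fun γ _ => h3 γ]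
    exact (sum_le_card_nsmul _ _ S fun γ _ => h2 γ).trans (Nat.mul_le_mul_right S h1)
  have b2 : ∀ γ s (q : Bool × (V × O) × (C ⊕ Γ) → Prop) [DecidablePred q], (∀ x, q x → x.1 = s) →
      #{x ∈ P.Ho γ | q x} ≤ S := fun γ s q _ h =>
    (card_le_card (monotone_filter_right _ fun x _ => h x)).trans
      ((ok.side hw γ s).symm.trans_le ((card_filter_le _ _).trans (ok.card_Sg γ)))
  have b3 : ∀ (_ : Γ) x, x ≤ B * S → Fintype.card F * x ≤
      Fintype.card F * Fintype.card Γ * (B * S) := fun k x h => by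
    have : 0 < Fintype.card Γ := Fintype.card_pos_iff.2 ⟨k⟩
    rw [mul_assoc]
    exact Nat.mul_le_mul_left _ (h.trans (Nat.le_mul_of_pos_left _ this))
  refine ⟨∑ _k : Γ, ∑ ρ, ∑ c, ∑ t, ∑ γ, ∑ m, {∑ j ∈ P.inc γ m, pt (φ c ρ t j)},
    sum_mem fun _ _ => sum_mem fun _ _ => sum_mem fun _ _ => sum_mem fun _ _ => hS' _,
    fun p => Fintype.card F * ∑ γ, ∑ a ∈ P.Sg γ, cnt (P.sd a.2, P.ps a.2) p,
    fun p => Fintype.card F * ∑ γ, ∑ x ∈ P.Ho γ,
      if P.gen γ = true ∧ x.2.2.isRight = true then 0 else cnt (x.1, x.2.2) p,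
    ∑ γ, ∑ c, ∑ ρ, ∑ k, N γ c ρ k, ?_, ?_, fun s y => ?_, fun k k' => ?_, ?_, fun s k => ?_, ?_⟩
  · simp only [Multiset.card_sum, Multiset.card_singleton]
    simp only [sum_const, card_univ, smul_eq_mul, Fintype.card_prod, ok.mb, ← hnb]
    ring
  · have m1 : ∀ γ ρ, ∑ c, ∑ t, (∑ m, ({∑ j ∈ P.inc γ m, pt (P.sd j, lab γ c (m, j),
        rot C ρ (P.ps j))} : Multiset (Pt _ C Γ → ℤ))).map (push (sh t)) =
        ∑ c, ∑ t, ∑ m, {∑ j ∈ P.inc γ m, pt (φ c ρ t j)} := fun γ ρ => by
      have e : ∀ t (f : Mb → Pt (F × F × F × F) C Γ → ℤ),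
          (∑ m, ({f m} : Multiset _)).map (push (sh t)) = ∑ m, {push (sh t) (f m)} := fun t f =>
        map_sum (Multiset.mapAddMonoidHom (push (sh t))) _ _
      simp only [e, map_sum, push_pt, sum_comm (t := (univ : Finset Mb))]
      refine sum_congr rfl fun m _ => ?_
      rw [← Equiv.sum_comp (Equiv.addRight (iM m)) fun c => ∑ t, {∑ j ∈ _, pt (φ c ρ t j)}]
      refine sum_congr rfl fun c _ => ?_
      let τ : F × F × F × F := (0, iO (P.off m), -iN (P.rn γ m), -((c + iM m) * iN (P.rn γ m)))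
      rw [← Equiv.sum_comp (Equiv.addLeft (τ, τ)) fun t => {∑ j ∈ _, pt (φ _ ρ t j)}]
      refine sum_congr rfl fun t _ => congrArg _ (sum_congr rfl fun j _ => congrArg _ ?_)
      simp only [φ, sh, Equiv.coe_addLeft, Equiv.coe_addRight, Prod.fst_add, Prod.snd_add,
        ← ite_add_ite, ite_self, ← add_assoc, τ, lab, d, Prod.mk_add_mk, add_zero, zero_add,
        mul_add, mul_neg, sub_eq_add_neg]
    have m2 : ∀ γ, ∑ ρ : Γ, ∑ k : Γ, ∑ a : P.Sg γ,
        (if P.gen γ = true ∧ (β γ a).1.2.2.isRight = true then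
          tt (F × F × F × F) (P.sd a.1.2) (rot C ρ (P.ps a.1.2)) (rot C ρ (β γ a).1.2.2) else
          tt _ (P.sd a.1.2) (rot C ρ (P.ps a.1.2)) (Sum.inr k) +
            tt _ (!P.sd a.1.2) (Sum.inr k) (rot C ρ (β γ a).1.2.2)) =
        ∑ p, (∑ a ∈ P.Sg γ, cnt (P.sd a.2, P.ps a.2) p) • AA _ p + ∑ p, (∑ x ∈ P.Ho γ,
          if P.gen γ = true ∧ x.2.2.isRight = true then 0 else cnt (x.1, x.2.2) p) • BB _ p :=
      fun γ => by
      simp only [sum_comm (t := (univ : Finset (P.Sg γ)))]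
      rw [sum_congr rfl fun a _ => rot_tt _ _ _ _ _ fun h =>
        ⟨ok.core γ _ _ h.1 (mem_filter.1 a.2).2.1 (mem_filter.1 a.2).2.2, h.2⟩, sum_add_distrib,
        sum_comm, sum_comm (s := (univ : Finset (P.Sg γ)))]
      simp only [← sum_smul]
      refine congrArg₂ _ (sum_congr rfl fun p _ => congrArg (· • _) ?_)
        (sum_congr rfl fun p _ => congrArg (· • _) ?_)
      · exact sum_coe_sort (P.Sg γ) fun a => cnt (P.sd a.2, P.ps a.2) p
      · rw [← sum_coe_sort (P.Ho γ), ← Equiv.sum_comp (β γ)]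
        refine sum_congr rfl fun a _ => ?_
        split_ifs with h
        · rfl
        · rw [β1, if_neg h]
    convert sum_mem (S := Md (F × F × F × F) C Γ) fun γ (_ : γ ∈ univ) =>
      sum_mem fun c (_ : c ∈ univ) => sum_mem fun ρ (_ : ρ ∈ univ) =>
        sum_mem fun k (_ : k ∈ univ) => N2 γ c ρ k using 1
    refine Prod.ext ?_ (by simp only [Prod.snd_sum])
    simp only [Prod.fst_sum, sum_add_distrib, m2, add_assoc]
    congr 1
    · simp only [sum_comm (t := (univ : Finset Gr))]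
      refine sum_congr rfl fun γ _ => ?_
      simp only [← m1]
      rw [sum_comm, sum_comm (s := (univ : Finset F))]
      exact sum_congr rfl fun _ _ => sum_comm
    · simp only [sum_const, card_univ, ← smul_sum, mul_smul, sum_smul]
      exact congrArg₂ _ (congrArg _ sum_comm) (congrArg _ sum_comm)
  · have e : ∑ γ, ∑ m, #{j ∈ P.inc γ m | (P.sd j, P.ps j) = (s, Sum.inl y)} = w * c := by
      rw [← ok.cols s y, ← ok.colsum]
      simp only [Prod.mk.injEq]
    have e' := sum_congr rfl fun γ (_ : γ ∈ univ) => ok.count γ fun p => p = (s, Sum.inl y)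
    simp only [sum_add_distrib, filter_eq', mem_univ, if_true, card_singleton, mul_one, sum_const,
      card_univ, smul_eq_mul, hnb, e] at e'
    simp only [a1, a3, ← mul_sum, mul_assoc, ← mul_add, e']
  · simp only [a2, a4, ← mul_add, ← sum_add_distrib]
    refine congrArg _ (sum_congr rfl fun γ _ => ?_)
    split_ifs with h
    · rw [ok.gen0 h, ok.gen0 h]
    · exact ok.spec γ
  · rintro ⟨s, y | k⟩
    · obtain ⟨T, t1, t2⟩ := ok.holes y
      simp only [a3, ← mul_sum, mul_assoc]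
      refine Nat.mul_le_mul_left _ (Nat.mul_le_mul_left _ (b1 T _ t1 (fun γ =>
        b2 γ s _ fun x e => congrArg Prod.fst e) fun γ h => ?_))
      refine card_eq_zero.2 (filter_eq_empty_iff.2 fun x hx e => (mem_sdiff.1 hx).2 ?_)
      obtain ⟨m, j, j1, j2, j3, j4, j5, j6⟩ := t2 γ h s x.2.1.1 x.2.1.2
      refine mem_image.2 ⟨(m, j), mem_filter.2 ⟨mem_univ _, j1, j2⟩, ?_⟩
      obtain ⟨rfl, e2⟩ := Prod.ext_iff.1 e
      simp only at e2
      simp only [PS.cell, j3, j4, j5, j6, ← e2]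
    · simp only [a4]
      refine b3 k _ (b1 _ _ ok.special (fun γ => ?_) fun γ h => if_pos (by simpa using h))
      split_ifs
      exacts [Nat.zero_le _, b2 γ s _ fun x e => e.1]
  · simp only [a2]
    exact b3 k _ (b1 _ _ ok.special (fun γ => (card_filter_le _ _).trans (ok.card_Sg γ))
      fun γ h => ok.gen0 (by simpa using h) s)
  · refine (sum_le_sum fun γ _ => sum_le_sum fun c _ => sum_le_sum fun ρ _ =>
      sum_le_sum fun k _ => N1 γ c ρ k).trans ?_
    simp only [sum_const, card_univ, smul_eq_mul, Fintype.card_prod]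
    exact (Nat.mul_le_mul_right _ hGr).trans (le_of_eq (by ring))

end Pool.Agent.MP_d8b1b3_co.H68.Od
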