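import Mathlib
import Pool.Agent.MP_d8b1b3_co.H60.Base
import Pool.Agent.MP_d8b1b3_co.H7.Line

/-!
The inner system, the piece of low order and the piece that covers the core.
-/

set_option autoImplicit false

namespace Pool.Agent.MP_d8b1b3_co.H68.Od

open Pool.Agent.Lib.HasseMinkowski

lemma iso_rat {n : ℕ} (h1 : n % 4 = 2) : Iso ![1, 1, 1, -(n : ℚ)] := by
  have n0 : n ≠ 0 := by omega
  refine hasse_minkowski _ (fun i => by fin_cases i <;> simp [n0]) (fun p hp => ?_) ?_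
  · rw [H7.cast_four]
    by_cases p2 : p = 2
    · subst p2
      have : n % 8 = 2 ∨ n % 8 = 6 := by omega
      rcases this with h | h
      · obtain ⟨r, hr⟩ := H7.sq_two (m := (n : ℤ) - 1) (by omega)
        exact H7.iso_four _ r 1 0 (by push_cast at hr; linear_combination -hr)
      · obtain ⟨r, hr⟩ := H7.sq_two (m := (n : ℤ) - 5) (by omega)
        exact H7.iso_four _ r 2 1 (by push_cast at hr; linear_combination -hr)
    · refine Iso.of_comp (Fin.castLE (show 3 ≤ 4 by omega)) (Fin.castLE_injective _) ?_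
      have e : (fun j => (![1, 1, 1, -(n : ℚ_[p])] : Fin 4 → ℚ_[p])
          (Fin.castLE (show 3 ≤ 4 by omega) j)) = ![1, 1, 1] := by
        funext j
        fin_cases j <;> rfl
      rw [e]
      exact iso_unimodular p2 norm_one norm_one norm_one
  · unfold RealIso
    rw [H7.cast_four]
    exact H7.iso_four _ (√n) 0 0 (by simp)

/-- three squares for `n = 2 mod 4` -/
theorem three_squares {n : ℕ} (h1 : n % 4 = 2) :
    ∃ a b c : ℕ, a ^ 2 + b ^ 2 + c ^ 2 = n := by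
  obtain ⟨w, hw, e⟩ := iso_rat h1
  have e' : w 0 ^ 2 + w 1 ^ 2 + w 2 ^ 2 = n * w 3 ^ 2 := by
    simp [Fin.sum_univ_four] at e
    linarith
  have w3 : w 3 ≠ 0 := by
    intro h3
    rw [h3] at e'
    apply hw
    have q1 := sq_nonneg (w 0)
    have q2 := sq_nonneg (w 1)
    have q3 := sq_nonneg (w 2)
    have a0 : w 0 = 0 := pow_eq_zero_iff two_ne_zero |>.1 (by linarith)
    have a1 : w 1 = 0 := pow_eq_zero_iff two_ne_zero |>.1 (by linarith)
    have a2 : w 2 = 0 := pow_eq_zero_iff two_ne_zero |>.1 (by linarith)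
    funext i
    fin_cases i
    exacts [a0, a1, a2, h3]
  obtain ⟨x, hx⟩ : ∃ x : ℚ, x = w 0 / w 3 := ⟨_, rfl⟩
  obtain ⟨y, hy⟩ : ∃ y : ℚ, y = w 1 / w 3 := ⟨_, rfl⟩
  obtain ⟨z, hz⟩ : ∃ z : ℚ, z = w 2 / w 3 := ⟨_, rfl⟩
  have e2 : x ^ 2 + y ^ 2 + z ^ 2 = n := by
    rw [hx, hy, hz]
    field_simp
    linear_combination e'
  have e3 : (x.num * y.den * z.den) ^ 2 + (y.num * x.den * z.den) ^ 2 +
      (z.num * x.den * y.den) ^ 2 = (n : ℤ) * ((x.den * y.den * z.den : ℕ) : ℤ) ^ 2 := by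
    have : (((x.num * y.den * z.den) ^ 2 + (y.num * x.den * z.den) ^ 2 +
      (z.num * x.den * y.den) ^ 2 : ℤ) : ℚ) =
        (((n : ℤ) * ((x.den * y.den * z.den : ℕ) : ℤ) ^ 2 : ℤ) : ℚ) := by
      push_cast
      rw [← Rat.mul_den_eq_num x, ← Rat.mul_den_eq_num y, ← Rat.mul_den_eq_num z, ← e2]
      ring
    exact_mod_cast this
  obtain ⟨a, b, c, h⟩ := H7.cassels n _
    (Nat.mul_pos (Nat.mul_pos x.den_pos y.den_pos) z.den_pos) _ _ _ e3
  refine ⟨a.natAbs, b.natAbs, c.natAbs, ?_⟩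
  zify
  simpa [sq_abs] using h

end Pool.Agent.MP_d8b1b3_co.H68.Od

namespace Pool.Agent.MP_d8b1b3_co.H68.Od

open Matrix Finset

/-- the orbits of an involution without fixed point, numbered by `Q` -/
lemma exists_pairing {P Q : Type} [Fintype P] [Fintype Q] (g : P → P) (h1 : ∀ y, g (g y) = y)
    (h2 : ∀ y, g y ≠ y) (hQ : 2 * Fintype.card Q = Fintype.card P) :
    ∃ e : Q × Bool ≃ P, ∀ q b, e (q, !b) = g (e (q, b)) := by
  let o := Fintype.equivFin P
  let f : {y // o y < o (g y)} × Bool → P := fun x => if x.2 = true then g x.1.1 else x.1.1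
  have hf : Function.Bijective f := by
    refine ⟨?_, fun y => ?_⟩
    · rintro ⟨⟨x, hx⟩, _ | _⟩ ⟨⟨y, hy⟩, _ | _⟩ h <;>
        simp only [f, Bool.false_eq_true, if_true, if_false] at h
      · subst h; rfl
      · subst h; rw [h1] at hx; exact absurd hx hy.not_gt
      · subst h; rw [h1] at hy; exact absurd hx hy.not_gt
      · obtain rfl : x = y := by rw [← h1 x, h, h1]
        rfl
    · rcases lt_or_gt_of_ne (o.injective.ne (h2 y)) with h | h
      · exact ⟨(⟨g y, by rwa [h1]⟩, true), h1 y⟩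
      · exact ⟨(⟨y, h⟩, false), rfl⟩
  have hc := Fintype.card_of_bijective hf
  rw [Fintype.card_prod, Fintype.card_bool] at hc
  let e0 : Q ≃ {y // o y < o (g y)} := Fintype.equivOfCardEq (by omega)
  refine ⟨(e0.prodCongr (Equiv.refl _)).trans (Equiv.ofBijective f hf), fun q b => ?_⟩
  cases b
  · rfl
  · exact (h1 _).symm

/-- the conference matrix of a finite field -/
def confZ (F : Type) [Field F] [Fintype F] [DecidableEq F] : Matrix (Option F) (Option F) ℤ :=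
  Matrix.of fun x y =>
    x.elim (y.elim 0 fun _ => 1) fun a => y.elim 1 fun b => quadraticChar F (a - b)

lemma confZ_abs (F : Type) [Field F] [Fintype F] [DecidableEq F] (i j : Option F) :
    |confZ F i j| = if i = j then 0 else 1 := by
  rcases i with _ | x <;> rcases j with _ | y
  · simp [confZ]
  · simp [confZ]
  · simp [confZ]
  · by_cases h : x = y
    · simp [confZ, h]
    · have e0 : confZ F (some x) (some y) = quadraticChar F (x - y) := rfl
      rcases quadraticChar_dichotomy (sub_ne_zero.2 h) with e | e <;> rw [e0, e] <;> simp [h]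

lemma confZ_isW (F : Type) [Field F] [Fintype F] [DecidableEq F] (hF : ringChar F ≠ 2) :
    IsW (confZ F) (Fintype.card F) := by
  let χ := quadraticChar F
  have hsum : ∑ a, χ a = 0 := quadraticChar_sum_zero hF
  have hsum' : ∀ x : F, ∑ z, χ (x - z) = 0 := fun x => by
    rw [← hsum]
    exact Equiv.sum_comp (Equiv.subLeft x) (fun a => χ a)
  have hcore : ∀ x y : F, ∑ z, χ (x - z) * χ (y - z) =
      (if x = y then (Fintype.card F : ℤ) else 0) - 1 := by
    intro x y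
    split_ifs with hxy
    · subst hxy
      have : ∀ z, χ (x - z) * χ (x - z) = 1 - if z = x then 1 else 0 := by
        intro z
        split_ifs with hz
        · simp [hz, χ.map_zero]
        · rw [← sq, quadraticChar_sq_one (sub_ne_zero.2 (Ne.symm hz)), sub_zero]
      simp only [this, Finset.sum_sub_distrib, Finset.sum_const, Finset.card_univ,
        nsmul_eq_mul, mul_one, Finset.sum_ite_eq', Finset.mem_univ, if_true]
    · have hd : x - y ≠ 0 := sub_ne_zero.2 hxy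
      have e1 : ∀ z, χ (x - z) * χ (y - z) =
          χ (1 + (x - y) * (y - z)⁻¹) - if z = y then 1 else 0 := by
        intro z
        split_ifs with hz
        · simp [hz, χ.map_zero]
        · have h0 : y - z ≠ 0 := sub_ne_zero.2 (Ne.symm hz)
          have h1 : x - z = (1 + (x - y) * (y - z)⁻¹) * (y - z) := by field_simp; ring
          rw [sub_zero]
          conv_lhs => rw [h1, map_mul, mul_assoc, ← sq, quadraticChar_sq_one h0, mul_one]
      simp only [e1, Finset.sum_sub_distrib, Finset.sum_ite_eq', Finset.mem_univ, if_true]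
      congr 1
      rw [← hsum]
      exact Equiv.sum_comp ((Equiv.subLeft y).trans ((Equiv.inv F).trans
        ((Equiv.mulLeft₀ (x - y) hd).trans (Equiv.addLeft 1)))) (fun a => χ a)
  refine IsW.of_row Fintype.card_pos (fun i j => ?_) ?_
  · have := confZ_abs F i j
    split_ifs at this
    · exact Or.inl (abs_eq_zero.1 this)
    · exact Or.inr ((abs_eq zero_le_one).1 this)
  · ext (_ | x) (_ | y)
    · simp [confZ, Matrix.mul_apply, Fintype.sum_option]
    · simpa [confZ, χ, Matrix.mul_apply, Fintype.sum_option] using hsum' y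
    · simpa [confZ, χ, Matrix.mul_apply, Fintype.sum_option] using hsum' x
    · have := hcore x y
      simp only [confZ, Matrix.mul_apply, Fintype.sum_option, transpose_apply, Matrix.of_apply,
        Option.elim, Matrix.smul_apply, Matrix.one_apply, Option.some.injEq, smul_eq_mul]
      rw [this]
      split_ifs <;> ring

/-- a symmetric conference matrix with an anticommuting skew monomial matrix -/
theorem conf_T {p : ℕ} (hp : p.Prime) (h1 : p % 4 = 1) (Q : Type) [Fintype Q] [DecidableEq Q]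
    (hQ : 2 * Fintype.card Q = p + 1) : ∃ C T : Matrix (Q × Bool) (Q × Bool) ℤ,
      IsW C p ∧ Cᵀ = C ∧ (∀ i j, |C i j| = if i = j then 0 else 1) ∧ IsW T 1 ∧ Tᵀ = -T ∧
      (∀ i j, |T i j| = if j = (i.1, !i.2) then 1 else 0) ∧ C * T = -(T * C) := by
  have : Fact p.Prime := ⟨hp⟩
  have hF : ringChar (ZMod p) ≠ 2 := by rw [ZMod.ringChar_zmod_n]; omega
  let χ := quadraticChar (ZMod p)
  have hm : ∀ x, χ (-x) = χ x := fun x => by
    rw [← neg_one_mul, map_mul, quadraticChar_neg_one hF, ZMod.card,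
      ZMod.χ₄_nat_one_mod_four h1, one_mul]
  obtain ⟨n, hn⟩ := quadraticChar_exists_neg_one hF
  have hn0 : n ≠ 0 := fun h => by simp [h] at hn
  have hd : ∀ a, a ≠ 0 → χ (n / a) * χ a = -1 := fun a ha => by
    rw [← map_mul, div_mul_cancel₀ _ ha, hn]
  let g : Option (ZMod p) → Option (ZMod p) := fun x =>
    x.elim (some 0) fun a => if a = 0 then none else some (n / a)
  let τ : Option (ZMod p) → ℤ := fun x => x.elim 1 fun a => if a = 0 then -1 else χ a
  have g1 : ∀ y, g (g y) = y := by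
    rintro (_ | a)
    · simp [g]
    · by_cases h : a = 0 <;> simp [g, h, hn0]
  have t0 : ∀ y, τ y = 1 ∨ τ y = -1 := by
    rintro (_ | a)
    · exact Or.inl rfl
    · by_cases h : a = 0
      · simp [τ, h]
      · simpa only [τ, Option.elim, h, if_false] using quadraticChar_dichotomy h
  have t1 : ∀ y, τ (g y) = -τ y := by
    rintro (_ | a)
    · simp [g, τ]
    · by_cases h : a = 0
      · simp [g, τ, h]
      · have := hd a h
        simp only [g, τ, Option.elim, h, if_false, div_ne_zero hn0 h]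
        rcases quadraticChar_dichotomy h with e | e <;> rw [show χ a = _ from e] at this ⊢ <;>
          omega
  have g2 : ∀ y, g y ≠ y := fun y h => by
    have := t1 y
    rw [h] at this
    rcases t0 y with e | e <;> omega
  have hz : ∀ x y, confZ (ZMod p) x (g y) * τ y = τ x * confZ (ZMod p) (g x) y := by
    have z : ∀ a b, confZ (ZMod p) (some a) (some b) = χ (a - b) := fun _ _ => rfl
    have z1 : ∀ a, confZ (ZMod p) (some a) none = 1 := fun _ => rfl
    have z2 : ∀ a, confZ (ZMod p) none (some a) = 1 := fun _ => rfl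
    have z3 : confZ (ZMod p) none none = 0 := rfl
    rintro (_ | a) (_ | b) <;> simp only [g, τ, Option.elim] <;> (try split_ifs) <;>
      simp only [*, zero_sub, sub_zero, χ.map_zero, mul_one, one_mul, mul_zero, zero_mul, ne_eq,
        not_false_eq_true]
    · rw [mul_comm, hd _ ‹_›]
    rename_i hb ha
    rw [← map_mul, ← map_mul, ← hm]
    congr 1
    field_simp
    ring
  obtain ⟨e, he⟩ := exists_pairing (Q := Q) g g1 g2 (by simp [hQ])
  let s : Q × Bool → Q × Bool := fun i => (i.1, !i.2)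
  have hs : ∀ i j, j = s i ↔ i = s j := by
    rintro ⟨a, b⟩ ⟨c, d⟩
    cases b <;> cases d <;> simp [s, eq_comm]
  have he' : ∀ i, e (s i) = g (e i) := fun i => he _ _
  let T : Matrix (Q × Bool) (Q × Bool) ℤ := Matrix.of fun i j => if j = s i then τ (e i) else 0
  have c1 := (confZ_isW (ZMod p) hF).submatrix e e
  rw [ZMod.card] at c1
  refine ⟨_, T, c1, ?_, fun i j => ?_, IsW.of_row one_pos (fun i j => ?_) ?_, ?_,
    fun i j => ?_, ?_⟩
  · rw [transpose_submatrix]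
    congr 1
    ext (_ | x) (_ | y)
    exacts [rfl, rfl, rfl, (hm _).symm.trans (congrArg χ (neg_sub y x))]
  · simp only [submatrix_apply, confZ_abs, e.injective.eq_iff]
  · simp only [T, Matrix.of_apply]
    split_ifs
    exacts [Or.inr (t0 _), Or.inl rfl]
  · ext i j
    simp only [T, Matrix.mul_apply, transpose_apply, Matrix.of_apply, ite_mul, zero_mul,
      sum_ite_eq', mem_univ, if_true, Nat.cast_one, one_smul, Matrix.one_apply, hs j]
    have : j = s (s i) ↔ i = j := by simp [s, eq_comm]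
    simp only [this]
    split_ifs with h
    · subst h
      rcases t0 (e i) with k | k <;> simp [k]
    · exact mul_zero _
  · ext i j
    simp only [T, transpose_apply, Matrix.neg_apply, Matrix.of_apply, hs j i]
    split_ifs with h
    · rw [h, he', t1]
    · rfl
  · simp only [T, Matrix.of_apply, s]
    split_ifs
    · rcases t0 (e i) with k | k <;> simp [k]
    · rfl
  · ext i j
    simp only [T, Matrix.mul_apply, Matrix.neg_apply, Matrix.of_apply, submatrix_apply, ite_mul,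
      zero_mul, mul_ite, mul_zero, sum_ite_eq', mem_univ, if_true, hs _ j, he', t1, mul_neg, hz]

end Pool.Agent.MP_d8b1b3_co.H68.Od

namespace Pool.Agent.MP_d8b1b3_co.H68.Od

open Matrix Finset

lemma pat_abs {I : Type} [Fintype I] [DecidableEq I] {Y : Matrix I I ℤ} {k : ℕ} (h : IsW Y k)
    (i j : I) : |Y i j| = if Y i j ≠ 0 then 1 else 0 := by
  rcases h.ent i j with e | e | e <;> simp [e]

lemma pat_card {I : Type} [Fintype I] [DecidableEq I] {Y : Matrix I I ℤ} {k : ℕ} (h : IsW Y k)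
    (i : I) : #{j | Y i j ≠ 0} = k := by
  have := h.sum_abs i
  rw [sum_congr rfl fun j _ => pat_abs h i j, sum_boole] at this
  exact_mod_cast this

/-- A weighing matrix whose rows and columns carry an extra index `A` that is forgotten. -/
theorem pat {R A Gr Mb : Type} [Fintype R] [DecidableEq R] [Fintype A] [DecidableEq A] [Nonempty A]
    [Fintype Gr] [Fintype Mb] {M : Matrix (R × A) (R × A) ℤ} {w : ℕ} (h : IsW M w)
    (inc : R → Finset R)
    (hp : ∀ r a j, ∑ a', |M (r, a) (j, a')| = if j ∈ inc r then 1 else 0) (e : Gr × Mb ≃ R) :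
    (∀ r, #(inc r) = w) ∧ (∀ j, ∑ γ, #{m | j ∈ inc (e (γ, m))} = w) ∧
      ∀ (X : Type) [DecidableEq X] (φ : R → X), Fintype.card A •
        ∑ γ, ∑ m, ({∑ j ∈ inc (e (γ, m)), pt (φ j)} : Multiset (X → ℤ)) ∈ St X w := by
  refine ⟨fun r => ?_, fun j => ?_, fun X _ φ => ⟨R × A, _, _, M, fun p => φ p.1, h, ?_⟩⟩
  · obtain ⟨a⟩ := ‹Nonempty A›
    have := h.sum_abs (r, a)
    rw [Fintype.sum_prod_type] at this
    simp only [hp, sum_boole, filter_mem_eq_inter, univ_inter] at this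
    exact_mod_cast this
  · have h1 : ∑ a', ∑ p : R × A, |M p (j, a')| = (Fintype.card A : ℤ) * w := by
      have : ∀ a', ∑ p : R × A, |M p (j, a')| = w := fun a' => h.transpose.sum_abs (j, a')
      simp [this]
    rw [sum_comm, Fintype.sum_prod_type] at h1
    simp only [hp, sum_const, card_univ, nsmul_eq_mul, ← mul_sum] at h1
    have h2 : (Fintype.card A : ℤ) ≠ 0 := by exact_mod_cast Fintype.card_ne_zero
    have h3 := mul_left_cancel₀ h2 h1
    rw [← Equiv.sum_comp e, Fintype.sum_prod_type] at h3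
    simp only [sum_boole] at h3
    exact_mod_cast h3
  · have h1 : ∀ p : R × A, star M (fun p => φ p.1) p = ∑ j ∈ inc p.1, pt (φ j) := by
      rintro ⟨r, a⟩
      simp only [star, Fintype.sum_prod_type, ← sum_smul, hp, ite_smul, one_smul, zero_smul,
        sum_ite_mem, univ_inter]
    simp only [h1]
    rw [Fintype.sum_prod_type]
    simp only [sum_const, card_univ, ← smul_sum]
    rw [← Equiv.sum_comp e, Fintype.sum_prod_type]

/-- The inner system of pieces: every column is single. -/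
theorem inner_ps {u k : ℕ} (h : H7.SW u k) (Γ : Type) [DecidableEq Γ] (z : Γ) (X : Type)
    [DecidableEq X] : HasPS Empty Γ (SS2 X k) k 0 u (2 * k) (u + 2) u := by
  obtain ⟨Y, h1, h2⟩ := h
  have e1 : ∀ (γ : Fin u) (m : Bool), (univ.filter fun j : Fin u × Bool => j.2 = m ∧ Y γ j.1 ≠ 0) =
      (univ.filter fun i => Y γ i ≠ 0).map ⟨fun i => (i, m), fun _ _ e => (Prod.ext_iff.1 e).1⟩ := by
    intro γ m
    ext ⟨i, b⟩
    simp only [mem_filter, mem_univ, true_and, mem_map]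
    constructor
    · rintro ⟨rfl, hi⟩
      exact ⟨i, hi, rfl⟩
    · rintro ⟨a, ha, e⟩
      obtain ⟨rfl, rfl⟩ : a = i ∧ m = b := Prod.ext_iff.1 e
      exact ⟨rfl, ha⟩
  have e2 : ∀ (γ : Fin u) (m : Bool),
      #(univ.filter fun j : Fin u × Bool => j.2 = m ∧ Y γ j.1 ≠ 0) = k := fun γ m => by
    rw [e1, card_map, pat_card h1]
  have e3 : ∀ (γ : Fin u) (s : Bool), ∑ m, #{j ∈ (univ.filter
      fun j : Fin u × Bool => j.2 = m ∧ Y γ j.1 ≠ 0) | j.2 = s} = k := by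
    intro γ s
    rw [sum_eq_single s, filter_true_of_mem fun j hj => (mem_filter.1 hj).2.1, e2]
    · intro m _ hm
      rw [card_eq_zero, filter_eq_empty_iff]
      exact fun j hj e => hm ((mem_filter.1 hj).2.1.symm.trans e)
    · simp
  refine ⟨Fin u × Bool, Option (Fin u), Unit, Unit, Fin u, Bool, inferInstance, inferInstance,
    inferInstance, inferInstance, inferInstance, inferInstance, inferInstance, inferInstance,
    inferInstance, inferInstance,
    ⟨fun γ m => univ.filter fun j => j.2 = m ∧ Y γ j.1 ≠ 0, Prod.snd, fun j => some j.1,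
      fun _ => (), fun _ => Sum.inr z, fun _ _ => none, fun _ => (), fun _ => false⟩,
    ⟨e2, fun j => ?_, by simp, by simp, ?_, fun γ => ?_, fun γ => ?_, by simp,
      fun _ y => y.elim, by simp, fun y => y.elim, fun γ => ?_⟩,
    by simp, by simp, by simp, by simp, by simp, by simp,
    fun φ => ⟨Fin u, _, _, Y, fun b i => φ (i, b), h1, h2, ?_⟩⟩
  · have : ∀ γ, #{m : Bool | j ∈ univ.filter fun j : Fin u × Bool => j.2 = m ∧ Y γ j.1 ≠ 0} =
        if Y γ j.1 ≠ 0 then 1 else 0 := by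
      intro γ
      split_ifs with hγ
      · rw [card_eq_one]
        exact ⟨j.2, by ext m; simp [hγ, eq_comm]⟩
      · simp [not_not.1 hγ]
    simp only [this]
    rw [← card_filter]
    exact pat_card h1.transpose j.1
  · intro γ m j j' _ _ _ a b _
    exact Prod.ext (Option.some.inj b) a
  · exact (e3 γ false).trans (e3 γ true).symm
  · simp only [Sum.isRight_inr, and_true]
    exact (e3 γ false).trans (e3 γ true).symm
  · refine (sum_le_sum fun m _ => (card_filter_le _ _).trans (e2 γ m).le).trans ?_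
    simp
  · rw [sum_comm]
    refine sum_congr rfl fun b _ => sum_congr rfl fun γ _ => ?_
    congr 1
    simp only [e1, sum_map, star]
    rw [sum_filter]
    refine sum_congr rfl fun i _ => ?_
    rw [pat_abs h1]
    split_ifs
    exacts [(one_smul _ _).symm, (zero_smul _ _).symm]

/-- An inner system from the stars of a symmetric weighing matrix that form rows. -/
theorem inner_of {X : Type} [Fintype X] [DecidableEq X] {k n v : ℕ} {μ : Multiset (X → ℤ)}
    (h : μ ∈ SS2 X k) (h' : (n, μ) ∈ Rows X) (hk : 0 < k) (hX : Fintype.card X = 2 * v * k) :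
    Inner k n v := by
  classical
  have hm := SS2.mass h
  obtain ⟨I, _, _, Y, σ, h1, h2, h3⟩ := h
  obtain ⟨A, _, ρ, h4, h5, h6⟩ := h'
  simp only at h4 h5
  have h7 : ∀ a, Fintype.card (ρ a).ToType = 2 * v := by
    intro a
    have := Rows.count (Rows.one (h6 a)) fun f hf =>
      hm f (h5 ▸ Multiset.mem_sum.2 ⟨a, mem_univ _, hf⟩)
    rw [one_mul, hX, mul_comm] at this
    rw [Multiset.card_coe]
    exact (Nat.eq_of_mul_eq_mul_left hk this).symm
  let g := fun a => (Fintype.equivFinOfCardEq (h7 a)).symm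
  let eA := (Fintype.equivFinOfCardEq h4).symm
  let F : Fin n × Fin (2 * v) → X → ℤ := fun p => g (eA p.1) p.2
  have h8 : ∀ i, ∑ m, ({F (i, m)} : Multiset (X → ℤ)) = ρ (eA i) := by
    intro i
    rw [Equiv.sum_comp (g (eA i)) fun x => ({(x : X → ℤ)} : Multiset (X → ℤ)),
      Finset.sum_eq_multiset_sum, Multiset.map_univ _ fun v => ({v} : Multiset (X → ℤ)),
      Multiset.sum_map_singleton]
  have h9 : ∀ i, ∑ m, F (i, m) = 1 := by
    intro i
    rw [Equiv.sum_comp (g (eA i)) fun x => (x : X → ℤ), ← Multiset.sum_eq_sum_coe, h6]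
  obtain ⟨e, he⟩ := exists_equiv_of_sum_eq F (fun p : I × Bool => star Y (σ p.2) p.1) (by
    rw [Fintype.sum_prod_type, Fintype.sum_prod_type_right, ← h3, h5, ← Equiv.sum_comp eA]
    exact sum_congr rfl fun i _ => h8 i)
  have hI : Fintype.card I = n * v := by
    have := Fintype.card_congr e
    simp only [Fintype.card_prod, Fintype.card_fin, Fintype.card_bool] at this
    refine Nat.eq_of_mul_eq_mul_right two_pos (this.symm.trans (by ring))
  let eI := (Fintype.equivFinOfCardEq hI).symm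
  let eX : X ≃ Bool × Fin v × Fin k := Fintype.equivOfCardEq (by simp [hX, mul_assoc])
  refine ⟨Y.submatrix eI eI, fun b i => eX (σ b (eI i)),
    e.trans (eI.symm.prodCongr (Equiv.refl _)), h1.submatrix _ _,
    by rw [transpose_submatrix, h2], fun i => ?_⟩
  rw [← push_one eX, ← h9 i, map_sum]
  refine sum_congr rfl fun m _ => ?_
  rw [← he, push_star]
  simp only [star, submatrix_apply, Equiv.trans_apply, Equiv.prodCongr_apply, Prod.map_fst,
    Prod.map_snd, Equiv.apply_symm_apply, Equiv.refl_apply]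
  exact Equiv.sum_comp eI fun j => |Y (e (i, m)).1 j| • pt (eX (σ (e (i, m)).2 j))

/-- Each cell is met by exactly one star of each group. -/
lemma cell_unique {I M X : Type} [Fintype I] [Fintype M] [DecidableEq X] {Y : Matrix I I ℤ}
    {σ : M → I → X} {r : M → I} (h : ∑ m, star Y (σ m) (r m) = 1) (c : X) :
    ∃! p : M × I, Y (r p.1) p.2 ≠ 0 ∧ σ p.1 p.2 = c := by
  classical
  let t : M × I → ℕ := fun p => if σ p.1 p.2 = c then (Y (r p.1) p.2).natAbs else 0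
  have h1 : ∑ p, t p = 1 := by
    have := congrFun h c
    simp only [star, pt, Finset.sum_apply, Pi.smul_apply, smul_eq_mul, mul_ite, mul_one, mul_zero,
      Pi.one_apply] at this
    rw [Fintype.sum_prod_type]
    zify [t]
    exact this
  have h2 : ∀ p, (Y (r p.1) p.2 ≠ 0 ∧ σ p.1 p.2 = c) ↔ t p ≠ 0 := fun p => by
    simp only [t]
    split_ifs with hp <;> simp [hp]
  simp only [h2]
  obtain ⟨p, -, hp⟩ := exists_ne_zero_of_sum_ne_zero (h1 ▸ one_ne_zero : ∑ p, t p ≠ 0)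
  refine ⟨p, hp, fun q hq => by_contra fun hne => ?_⟩
  have h3 := sum_le_sum_of_subset (f := t) (subset_univ {q, p})
  rw [sum_pair hne] at h3
  omega

/-- Each cell carries `a / k` columns. -/
lemma cell_count {I X : Type} [Fintype I] [DecidableEq I] [DecidableEq X] {Y : Matrix I I ℤ}
    {k a v : ℕ} (h : IsW Y k) {σ : Bool → I → X} (e : Fin a × Fin (2 * v) ≃ I × Bool)
    (he : ∀ i, ∑ m, star Y (σ (e (i, m)).2) (e (i, m)).1 = 1) (c : X) :
    k * #{p : I × Bool | σ p.2 p.1 = c} = a := by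
  have h1 : ∑ p : I × Bool, star Y (σ p.2) p.1 c = a := by
    rw [← Equiv.sum_comp e, Fintype.sum_prod_type]
    have : ∀ i, ∑ m, star Y (σ (e (i, m)).2) (e (i, m)).1 c = 1 := fun i => by
      rw [← Finset.sum_apply, he]; rfl
    simp [this]
  have h2 : ∀ j, ∑ i, |Y i j| = k := fun j => h.transpose.sum_abs j
  have h3 : ∀ b, ∑ i, star Y (σ b) i c = ∑ j, (k : ℤ) * if σ b j = c then 1 else 0 := by
    intro b
    simp only [star, pt, Finset.sum_apply, Pi.smul_apply, smul_eq_mul]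
    rw [sum_comm]
    simp only [← sum_mul, h2]
  rw [Fintype.sum_prod_type_right] at h1
  simp only [h3, ← mul_sum] at h1
  rw [← Fintype.sum_prod_type_right fun p : I × Bool => if σ p.2 p.1 = c then (1 : ℤ) else 0,
    sum_boole] at h1
  exact_mod_cast h1

end Pool.Agent.MP_d8b1b3_co.H68.Od

namespace Pool.Agent.MP_d8b1b3_co.H68.Od

open Matrix Finset
open scoped Kronecker

variable {I L Q : Type} [Fintype I] [DecidableEq I] [Fintype L] [DecidableEq L] [Fintype Q]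
  [DecidableEq Q]

/-- the columns met by a row -/
def lvInc (Y : Matrix I I ℤ) (X₁ X₂ X₃ : Matrix L L ℤ) (r : I × L × (Q × Bool) × Bool) :
    Finset (I × L × (Q × Bool) × Bool) :=
  {j | (Y r.1 j.1 ≠ 0 ∧ j.2.1 = r.2.1 ∧ j.2.2.1 ≠ r.2.2.1 ∧ j.2.2.2 = r.2.2.2) ∨
    (j.1 = r.1 ∧ X₁ r.2.1 j.2.1 ≠ 0 ∧ j.2.2.1 = r.2.2.1 ∧ j.2.2.2 = r.2.2.2) ∨
    (j.1 = r.1 ∧ X₂ r.2.1 j.2.1 ≠ 0 ∧ j.2.2.1 = r.2.2.1 ∧ j.2.2.2 ≠ r.2.2.2) ∨
    (j.1 = r.1 ∧ X₃ r.2.1 j.2.1 ≠ 0 ∧ j.2.2.1 = (r.2.2.1.1, !r.2.2.1.2) ∧ j.2.2.2 ≠ r.2.2.2)}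

/-- the diagonal sign matrix -/
def lvZ : Matrix Bool Bool ℤ := fun a b => if a = b then (if a = true then -1 else 1) else 0

/-- the swap -/
def lvX : Matrix Bool Bool ℤ := fun a b => if a = b then 0 else 1

/-- the skew swap -/
def lvJ : Matrix Bool Bool ℤ := fun a b => if a = b then 0 else (if a = true then -1 else 1)

lemma LVM_isW : IsW lvZ 1 ∧ IsW lvX 1 ∧ IsW lvJ 1 := by
  refine ⟨⟨by decide, ?_, ?_⟩, ⟨by decide, ?_, ?_⟩, ⟨by decide, ?_, ?_⟩⟩ <;> ext a b <;>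
    revert a b <;> decide

lemma LVM_rel : lvZᵀ = lvZ ∧ lvXᵀ = lvX ∧ lvJᵀ = -lvJ ∧ lvZ * lvJ = -(lvJ * lvZ) ∧
    lvZ * lvX = -(lvX * lvZ) ∧ lvJ * lvX = -(lvX * lvJ) := by
  refine ⟨?_, ?_, ?_, ?_, ?_, ?_⟩ <;> ext a b <;> revert a b <;> decide

lemma LVM_four {K : Type} [Fintype K] [DecidableEq K] {A B C D : Matrix K K ℤ} {a b c d : ℕ}
    (hA : IsW A a) (hB : IsW B b) (hC : IsW C c) (hD : IsW D d) (sA : Aᵀ = -A) (sB : Bᵀ = B)
    (sC : Cᵀ = -C) (sD : Dᵀ = -D) (ab : A * B = B * A) (cb : C * B = B * C) (db : D * B = B * D)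
    (ac : A * C = -(C * A)) (ad : A * D = -(D * A)) (cd : C * D = -(D * C))
    (he : ∀ i j, ∃ E ∈ [A, B, C, D], (A + B + C + D) i j = E i j) :
    IsW (A + B + C + D) (a + (b + c + d)) := by
  have h1 := hA.row
  have h2 := hB.row
  have h3 := hC.row
  have h4 := hD.row
  rw [sA] at h1
  rw [sB] at h2
  rw [sC] at h3
  rw [sD] at h4
  have e : A * -A + (B * B + C * -C + D * -D) = ((a + (b + c + d) : ℕ) : ℤ) • 1 := by
    rw [h1, h2, h3, h4]
    push_cast
    simp only [add_smul]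
  refine ⟨fun i j => ?_, ?_, ?_⟩
  · obtain ⟨E, h, h'⟩ := he i j
    rw [h']
    simp only [List.mem_cons, List.not_mem_nil, or_false] at h
    rcases h with rfl | rfl | rfl | rfl
    exacts [hA.ent i j, hB.ent i j, hC.ent i j, hD.ent i j]
  all_goals
    simp only [transpose_add, sA, sB, sC, sD, ← e, Matrix.mul_add, Matrix.add_mul, Matrix.mul_neg,
      Matrix.neg_mul, ab, cb, db, ac, ad, cd]
    abel

omit [Fintype I] [DecidableEq I] [Fintype L] [DecidableEq L] in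
lemma LVM_neg (A : Matrix I I ℤ) (B : Matrix L L ℤ) :
    (-A) ⊗ₖ B = -(A ⊗ₖ B) ∧ A ⊗ₖ (-B) = -(A ⊗ₖ B) := by
  constructor <;> ext ⟨_, _⟩ ⟨_, _⟩ <;> simp

lemma LVM_abs {Y : Matrix I I ℤ} {k : ℕ} (h : IsW Y k) (i j : I) :
    |Y i j| = if Y i j = 0 then 0 else 1 := by
  rcases h.ent i j with e | e | e <;> simp [e]

/-- The matrix of the piece of low order: a sum of four Kronecker products. -/
theorem lv_matrix {Y : Matrix I I ℤ} {X₁ X₂ X₃ : Matrix L L ℤ}
    {C T : Matrix (Q × Bool) (Q × Bool) ℤ} {k w₁ w₂ w₃ p : ℕ} (hY : IsW Y k) (hY' : Yᵀ = Y)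
    (h₁ : IsW X₁ w₁) (h₂ : IsW X₂ w₂) (h₃ : IsW X₃ w₃) (s₁ : X₁ᵀ = X₁) (s₂ : X₂ᵀ = X₂)
    (s₃ : X₃ᵀ = X₃) (c₁ : X₁ * X₂ = X₂ * X₁) (c₂ : X₁ * X₃ = X₃ * X₁) (c₃ : X₂ * X₃ = X₃ * X₂)
    (hC : IsW C p) (hC' : Cᵀ = C) (hC'' : ∀ i j, |C i j| = if i = j then 0 else 1) (hT : IsW T 1)
    (hT' : Tᵀ = -T) (hT'' : ∀ i j, |T i j| = if j = (i.1, !i.2) then 1 else 0)
    (hCT : C * T = -(T * C)) :
    ∃ M : Matrix ((I × L × (Q × Bool) × Bool) × Bool) ((I × L × (Q × Bool) × Bool) × Bool) ℤ,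
      IsW M (k * p + (w₁ + w₂ + w₃)) ∧
      ∀ r a j, ∑ a', |M (r, a) (j, a')| = if j ∈ lvInc Y X₁ X₂ X₃ r then 1 else 0 := by
  obtain ⟨z1, x1, j1⟩ := LVM_isW
  obtain ⟨z2, x2, j2, zj, zx, jx⟩ := LVM_rel
  have t0 := (hY.kron ((IsW.one (I := L)).kron (hC.kron z1))).kron j1
  have t1 := ((IsW.one (I := I)).kron (h₁.kron ((IsW.one (I := Q × Bool)).kron
    (IsW.one (I := Bool))))).kron (IsW.one (I := Bool))
  have t2 := ((IsW.one (I := I)).kron (h₂.kron ((IsW.one (I := Q × Bool)).kron j1))).kron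
    (IsW.one (I := Bool))
  have t3 := ((IsW.one (I := I)).kron (h₃.kron (hT.kron x1))).kron z1
  simp only [mul_one, one_mul] at t0 t1 t2 t3
  have c0 : ∀ q, C q q = 0 := fun q => by simpa using hC'' q q
  have T0 : ∀ q, T q q = 0 := fun q => by
    have := hT'' q q
    rw [if_neg (fun e => by simpa using congrArg Prod.snd e)] at this
    simpa using this
  refine ⟨_, LVM_four t0 t1 t2 t3 ?_ ?_ ?_ ?_ ?_ ?_ ?_ ?_ ?_ ?_ ?_, ?_⟩
  iterate 10
    simp only [← kroneckerMap_transpose, ← mul_kronecker_mul, transpose_one, Matrix.one_mul,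
      Matrix.mul_one, hY', hC', hT', s₁, s₂, s₃, c₁, c₂, c₃, z2, x2, j2, zj, zx, jx, hCT,
      (LVM_neg _ _).1, (LVM_neg _ _).2, neg_neg]
  · rintro ⟨⟨i, x, q, b⟩, a⟩ ⟨⟨i', x', q', b'⟩, a'⟩
    by_cases hb : b = b' <;> by_cases hq : q = q'
    · subst hb hq
      exact ⟨_, .tail _ (.head _), by simp [c0, lvJ, lvX]⟩
    · subst hb
      exact ⟨_, .head _, by simp [hq, lvJ, lvX]⟩
    · subst hq
      exact ⟨_, .tail _ (.tail _ (.head _)), by simp [c0, T0, hb]⟩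
    · exact ⟨_, .tail _ (.tail _ (.tail _ (.head _))), by simp [hq, hb, lvZ]⟩
  · rintro ⟨i, x, q, b⟩ a ⟨i', x', q', b'⟩
    have sJ : ∑ a', |lvJ a a'| = 1 := by revert a; decide
    have sZ : ∑ a', |lvZ a a'| = 1 := by revert a; decide
    have s1 : ∑ a', |(1 : Matrix Bool Bool ℤ) a a'| = 1 := by revert a; decide
    have aZ : |lvZ b b| = 1 := by revert b; decide
    have aJ : b ≠ b' → |lvJ b b'| = 1 := by revert b b'; decide
    have aX : b ≠ b' → |lvX b b'| = 1 := by revert b b'; decide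
    have J0 : lvJ b b = 0 := by simp [lvJ]
    have X0 : lvX b b = 0 := by simp [lvX]
    have Z0 : b ≠ b' → lvZ b b' = 0 := fun h => by simp [lvZ, h]
    simp only [lvInc, mem_filter, mem_univ, true_and, Matrix.add_apply, kronecker_apply]
    by_cases hb : b = b' <;> by_cases hq : q = q'
    · subst hb hq
      simp only [c0, J0, X0, mul_zero, zero_mul, add_zero, zero_add, abs_mul, ← mul_sum, s1,
        LVM_abs h₁, one_apply_eq]
      by_cases hi : i = i' <;> by_cases hx : X₁ x x' = 0 <;>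
        simp [hi, hx, one_apply, @eq_comm _ i' i]
    · subst hb
      simp only [one_apply_ne hq, J0, X0, mul_zero, zero_mul, add_zero, abs_mul, ← mul_sum, sJ,
        LVM_abs hY, hC'', aZ]
      by_cases hi : x = x' <;> by_cases hx : Y i i' = 0 <;>
        simp [hi, hx, hq, Ne.symm hq, one_apply, @eq_comm _ x' x]
    · subst hq
      simp only [c0, T0, one_apply_ne hb, mul_zero, zero_mul, add_zero, zero_add, abs_mul,
        ← mul_sum, s1, LVM_abs h₂, aJ hb, one_apply_eq]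
      have : ¬q = (q.1, !q.2) := fun e => by simpa using congrArg Prod.snd e
      by_cases hi : i = i' <;> by_cases hx : X₂ x x' = 0 <;>
        simp [hi, hx, Ne.symm hb, this, one_apply, @eq_comm _ i' i]
    · simp only [Z0 hb, one_apply_ne hq, mul_zero, zero_mul, add_zero, zero_add, abs_mul,
        ← mul_sum, sZ, LVM_abs h₃, aX hb, hT'']
      by_cases hi : i = i' <;> by_cases hx : X₃ x x' = 0 <;>
        simp [hi, hx, Ne.symm hb, Ne.symm hq, one_apply, @eq_comm _ i' i]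

end Pool.Agent.MP_d8b1b3_co.H68.Od

namespace Pool.Agent.MP_d8b1b3_co.H68.Od

open Matrix Finset
open scoped Kronecker

lemma LV_card_ne {I : Type} [Fintype I] [DecidableEq I] {Y : Matrix I I ℤ} {w : ℕ} (h : IsW Y w)
    (i : I) : #{j | Y i j ≠ 0} = w := by
  have h1 := h.sum_abs i
  have h2 : ∀ j, |Y i j| = if Y i j ≠ 0 then 1 else 0 := fun j => by
    rcases h.ent i j with e | e | e <;> simp [e]
  rw [sum_congr rfl fun j _ => h2 j, sum_boole] at h1
  exact_mod_cast h1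

section

variable {I L Q A M V T C Γ : Type} [Fintype I] [DecidableEq I] [Fintype L] [DecidableEq L]
  [Fintype Q] [DecidableEq Q]

/-- the row of a group and a member -/
def LV_row (Q : Type) (e : A × M ≃ I × Bool) (sh : M → L ≃ L) :
    (A × Q × L) × (M × Bool) ≃ I × L × (Q × Bool) × Bool where
  toFun p := ((e (p.1.1, p.2.1)).1, sh p.2.1 p.1.2.2, (p.1.2.1, p.2.2), (e (p.1.1, p.2.1)).2)
  invFun j := (((e.symm (j.1, j.2.2.2)).1, j.2.2.1.1,
    (sh (e.symm (j.1, j.2.2.2)).2).symm j.2.1), ((e.symm (j.1, j.2.2.2)).2, j.2.2.1.2))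
  left_inv p := by simp
  right_inv j := by simp

/-- the system of pieces -/
def LV_sys (Y : Matrix I I ℤ) (X₁ X₂ X₃ : Matrix L L ℤ) (σ : Bool → I → Bool × V × T)
    (e : A × M ≃ I × Bool) (sh : M → L ≃ L) (pos : T × Bool × Q → C ⊕ Γ) (gen : Q → Bool) :
    PS C Γ (I × L × (Q × Bool) × Bool) (L × Bool) V Bool (A × Q × L) (M × Bool) where
  inc γ m := lvInc Y X₁ X₂ X₃ (LV_row Q e sh (γ, m))
  sd j := xor (σ j.2.2.2 j.1).1 j.2.2.1.2
  nd j := (j.2.1, j.2.2.2)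
  lb j := (σ j.2.2.2 j.1).2.1
  ps j := pos ((σ j.2.2.2 j.1).2.2, j.2.2.1.2, j.2.2.1.1)
  rn γ m := (sh m.1 γ.2.2, (e (γ.1, m.1)).2)
  off := Prod.snd
  gen γ := gen γ.2.1

variable {Y : Matrix I I ℤ} {X₁ X₂ X₃ : Matrix L L ℤ} {σ : Bool → I → Bool × V × T}
  {e : A × M ≃ I × Bool} {sh : M → L ≃ L} {pos : T × Bool × Q → C ⊕ Γ} {gen : Q → Bool}

lemma LV_mem {ι ι' : I} {x x' : L} {q q' : Q} {ε ε' b b' : Bool} :
    (ι', x', (q', ε'), b') ∈ lvInc Y X₁ X₂ X₃ (ι, x, (q, ε), b) ↔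
      (Y ι ι' ≠ 0 ∧ x' = x ∧ ¬(q' = q ∧ ε' = ε) ∧ b' = b) ∨ (ι' = ι ∧ q' = q ∧
        ((X₁ x x' ≠ 0 ∧ ε' = ε ∧ b' = b) ∨ (X₂ x x' ≠ 0 ∧ ε' = ε ∧ b' = !b) ∨
          (X₃ x x' ≠ 0 ∧ ε' = (!ε) ∧ b' = !b))) := by
  simp only [lvInc, mem_filter, mem_univ, true_and, Prod.mk.injEq, ne_eq, Bool.eq_not]
  refine or_congr_right ⟨?_, ?_⟩
  · rintro (⟨a, b, ⟨c, d⟩, f⟩ | ⟨a, b, ⟨c, d⟩, f⟩ | ⟨a, b, ⟨c, d⟩, f⟩)
    exacts [⟨a, c, Or.inl ⟨b, d, f⟩⟩, ⟨a, c, Or.inr (Or.inl ⟨b, d, f⟩)⟩,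
      ⟨a, c, Or.inr (Or.inr ⟨b, d, f⟩)⟩]
  · rintro ⟨a, c, ⟨b, d, f⟩ | ⟨b, d, f⟩ | ⟨b, d, f⟩⟩
    exacts [Or.inl ⟨a, b, ⟨c, d⟩, f⟩, Or.inr (Or.inl ⟨a, b, ⟨c, d⟩, f⟩),
      Or.inr (Or.inr ⟨a, b, ⟨c, d⟩, f⟩)]

lemma LV_single {ι ι' : I} {x x' : L} {q q' : Q} {ε ε' b b' : Bool}
    (h : (ι', x', (q', ε'), b') ∈ lvInc Y X₁ X₂ X₃ (ι, x, (q, ε), b)) (h' : (x', b') ≠ (x, b)) :
    ι' = ι ∧ q' = q := by
  rcases LV_mem.1 h with ⟨-, rfl, -, rfl⟩ | ⟨a, b, -⟩
  exacts [absurd rfl h', ⟨a, b⟩]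

lemma LV_long {ι ι' : I} {x : L} {q q' : Q} {ε ε' b : Bool}
    (h : (ι', x, (q', ε'), b) ∈ lvInc Y X₁ X₂ X₃ (ι, x, (q, ε), b)) :
    (Y ι ι' ≠ 0 ∧ ¬(q' = q ∧ ε' = ε)) ∨ (ι' = ι ∧ X₁ x x ≠ 0 ∧ q' = q ∧ ε' = ε) := by
  rcases LV_mem.1 h with ⟨a, -, c, -⟩ | ⟨a, b, ⟨c, d, -⟩ | ⟨-, -, c⟩ | ⟨-, -, c⟩⟩
  exacts [Or.inl ⟨a, c⟩, Or.inr ⟨a, c, b, d⟩, by simp at c, by simp at c]

lemma LV_few {w₁ w₂ w₃ : ℕ} (h₁ : IsW X₁ w₁) (h₂ : IsW X₂ w₂) (h₃ : IsW X₃ w₃)
    (r : I × L × (Q × Bool) × Bool) :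
    #{j ∈ lvInc Y X₁ X₂ X₃ r | (j.2.1, j.2.2.2) ≠ (r.2.1, r.2.2.2)} ≤ w₁ + w₂ + w₃ := by
  obtain ⟨ι, x, ⟨q, ε⟩, b⟩ := r
  rw [← LV_card_ne h₁ x, ← LV_card_ne h₂ x, ← LV_card_ne h₃ x]
  refine (card_le_card (t := (({y | X₁ x y ≠ 0} : Finset L).image fun y => (ι, y, (q, ε), b)) ∪
    (({y | X₂ x y ≠ 0} : Finset L).image fun y => (ι, y, (q, ε), !b)) ∪
    (({y | X₃ x y ≠ 0} : Finset L).image fun y => (ι, y, (q, !ε), !b))) ?_).trans
    ((card_union_le _ _).trans (add_le_add ((card_union_le _ _).trans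
      (add_le_add card_image_le card_image_le)) card_image_le))
  rintro ⟨ι', y, ⟨s, δ⟩, b'⟩ h
  obtain ⟨h, h'⟩ := mem_filter.1 h
  rcases LV_mem.1 h with ⟨-, rfl, -, rfl⟩ | ⟨rfl, rfl, ⟨c, rfl, rfl⟩ | ⟨c, rfl, rfl⟩ | ⟨c, rfl, rfl⟩⟩
  exacts [absurd rfl h', by simp [c], by simp [c], by simp [c]]

variable [Fintype M]

lemma LV_bal (γ : A × Q × L) (R : Bool → I × L × (Q × Bool) × Bool → Prop)
    [∀ s, DecidablePred (R s)]
    (hR : ∀ ι x q ε b, R false (ι, x, (q, ε), b) ↔ R true (ι, x, (q, !ε), b)) :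
    ∑ m, #{j ∈ lvInc Y X₁ X₂ X₃ (LV_row Q e sh (γ, m)) | R false j} =
      ∑ m, #{j ∈ lvInc Y X₁ X₂ X₃ (LV_row Q e sh (γ, m)) | R true j} := by
  have i1 : Function.Involutive fun m : M × Bool => (m.1, !m.2) := fun m => by simp
  have i2 : Function.Involutive fun j : I × L × (Q × Bool) × Bool =>
    (j.1, j.2.1, (j.2.2.1.1, !j.2.2.1.2), j.2.2.2) := fun m => by simp
  refine Fintype.sum_equiv i1.toPerm _ _ fun m => card_equiv i2.toPerm ?_
  obtain ⟨m, ε⟩ := m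
  rintro ⟨ι, x, ⟨q, ε'⟩, b⟩
  rw [mem_filter, mem_filter]
  refine and_congr (LV_mem.trans (Iff.trans ?_ LV_mem.symm)) (hR ..)
  simp

variable [Fintype A] [DecidableEq A] [Fintype V] [DecidableEq V] [DecidableEq T]
  [DecidableEq C] [DecidableEq Γ]

lemma LV_ok {nB n w w₁ w₂ w₃ : ℕ} (h₁ : IsW X₁ w₁) (h₂ : IsW X₂ w₂)
    (h₃ : IsW X₃ w₃) (hM : Fintype.card M = 2 * Fintype.card V) (p1 : Function.Injective pos)
    (p2 : ∀ τ ε q, (pos (τ, ε, q)).isRight = !gen q) (p3 : ∀ y, ∃ z, pos z = Sum.inl y)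
    (p4 : #{q | gen q = false} = n)
    (hu : ∀ i c, ∃! p : M × I, Y (e (i, p.1)).1 p.2 ≠ 0 ∧ σ (e (i, p.1)).2 p.2 = c)
    (hc : ∀ c, #{p : I × Bool | σ p.2 p.1 = c} = nB)
    (hs : ∀ x m m', X₁ (sh m x) (sh m x) ≠ 0 → X₁ (sh m' x) (sh m' x) ≠ 0 → m = m')
    {N : Matrix ((I × L × (Q × Bool) × Bool) × Bool) ((I × L × (Q × Bool) × Bool) × Bool) ℤ}
    (m1 : IsW N w)
    (m2 : ∀ r a j, ∑ a', |N (r, a) (j, a')| = if j ∈ lvInc Y X₁ X₂ X₃ r then 1 else 0)
    (X : Type) [DecidableEq X] :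
    (LV_sys Y X₁ X₂ X₃ σ e sh pos gen).OK w (Fintype.card V * nB * Fintype.card L)
      (Fintype.card A * (n + 1) * Fintype.card L) (4 * Fintype.card V * (w₁ + w₂ + w₃)) ∧
    ∀ φ : I × L × (Q × Bool) × Bool → X, ∑ γ, ∑ m,
      ({∑ j ∈ (LV_sys Y X₁ X₂ X₃ σ e sh pos gen).inc γ m, pt (φ j)} : Multiset (X → ℤ)) ∈ Hs X w := by
  obtain ⟨hr, hl, q3⟩ := pat m1 _ m2 (LV_row Q e sh)
  refine ⟨⟨fun γ m => hr _, hl, ?_, ?_, ?_, fun γ => ?_, fun γ => ?_, ?_, ?_, ?_, ?_, fun γ => ?_⟩,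
    q3 X⟩
  · simp only [Fintype.card_prod, Fintype.card_bool, hM]; ring
  · rintro ⟨i, q, x⟩ ⟨m, ε⟩ ⟨ι, y, ⟨s, δ⟩, b⟩ ⟨m', ε'⟩ ⟨ι', y', ⟨s', δ'⟩, b'⟩ a1 a2 a3 a4 a5 a6 a7 a8
    obtain ⟨c1, c2⟩ := Prod.mk.inj (p1 a8)
    obtain ⟨rfl, rfl⟩ : δ = δ' ∧ s = s' := Prod.mk.inj c2
    obtain ⟨rfl, rfl⟩ : y = sh m x ∧ b = (e (i, m)).2 := Prod.mk.inj a2
    obtain ⟨rfl, rfl⟩ : y' = sh m' x ∧ b' = (e (i, m')).2 := Prod.mk.inj a4
    obtain rfl : ε = ε' := a7
    have c2 : σ (e (i, m)).2 ι = σ (e (i, m')).2 ι' :=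
      Prod.ext (Bool.xor_left_inj.1 a5) (Prod.ext a6 c1)
    rcases LV_long a1 with ⟨d1, d2⟩ | ⟨rfl, d1, d2⟩ <;>
      rcases LV_long a3 with ⟨d3, d4⟩ | ⟨rfl, d3, d4⟩
    · obtain ⟨rfl, rfl⟩ := Prod.mk.inj ((hu i _).unique (y₁ := (m, ι)) (y₂ := (m', ι'))
        ⟨d1, rfl⟩ ⟨d3, c2.symm⟩)
      exact ⟨rfl, rfl⟩
    · exact absurd d4 d2
    · exact absurd d2 d4
    · obtain rfl := hs x m m' d1 d3
      exact ⟨rfl, rfl⟩
  · rintro ⟨i, q, x⟩ ⟨m, ε⟩ ⟨ι, y, ⟨s, δ⟩, b⟩ ⟨ι', y', ⟨s', δ'⟩, b'⟩ a1 a2 a3 a4 a5 a6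
    obtain ⟨rfl, rfl⟩ : y = y' ∧ b = b' := Prod.mk.inj a5
    obtain ⟨rfl, rfl⟩ := LV_single a1 a3
    obtain ⟨rfl, rfl⟩ := LV_single a2 a3
    obtain rfl : δ = δ' := Bool.xor_right_inj.1 a4
    rfl
  · exact LV_bal γ (fun s j => xor (σ j.2.2.2 j.1).1 j.2.2.1.2 = s) (by simp)
  · exact LV_bal γ (fun s j => xor (σ j.2.2.2 j.1).1 j.2.2.1.2 = s ∧
      (pos ((σ j.2.2.2 j.1).2.2, j.2.2.1.2, j.2.2.1.1)).isRight = true) (by simp [p2])
  · rintro ⟨i, q, x⟩ ⟨m, ε⟩ ⟨ι, y, ⟨s, δ⟩, b⟩ a1 a2 a3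
    obtain ⟨-, rfl⟩ := LV_single a2 a3
    exact (p2 ..).trans (congrArg _ a1)
  · intro s y
    obtain ⟨⟨τ, ε, q⟩, h⟩ := p3 y
    have c1 : #{p : I × Bool | (σ p.2 p.1).1 = xor s ε ∧ (σ p.2 p.1).2.2 = τ} =
        Fintype.card V * nB := by
      rw [card_eq_sum_card_fiberwise (f := fun p => (σ p.2 p.1).2.1) (t := univ) (by simp),
        sum_const_nat (m := nB), card_univ]
      intro l _
      rw [← hc (xor s ε, l, τ), filter_filter]
      congr 1
      exact filter_congr fun p _ => by simp [Prod.ext_iff]; tauto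
    have c2 : ∀ ι x q' ε' b, ((LV_sys Y X₁ X₂ X₃ σ e sh pos gen).sd (ι, x, (q', ε'), b) = s ∧
        (LV_sys Y X₁ X₂ X₃ σ e sh pos gen).ps (ι, x, (q', ε'), b) = Sum.inl y) ↔
        ((σ b ι).1 = xor s ε ∧ (σ b ι).2.2 = τ) ∧ ε' = ε ∧ q' = q := by
      intro ι x q' ε' b
      rw [← h]
      refine (and_congr_right' p1.eq_iff).trans ?_
      cases s <;> cases ε <;> cases ε' <;> simp [LV_sys, and_assoc]
    rw [← c1, ← card_univ, ← card_product]
    refine card_bij' (fun j _ => ((j.1, j.2.2.2), j.2.1))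
      (fun z _ => (z.1.1, z.2, (q, ε), z.1.2)) ?_ ?_ ?_ (fun _ _ => rfl)
    · rintro ⟨ι, x, ⟨q', ε'⟩, b⟩ a
      exact mem_product.2 ⟨mem_filter.2 ⟨mem_univ _, ((c2 ..).1 (mem_filter.1 a).2).1⟩, mem_univ _⟩
    · rintro ⟨⟨ι, b⟩, x⟩ a
      exact mem_filter.2 ⟨mem_univ _, (c2 ..).2 ⟨(mem_filter.1 (mem_product.1 a).1).2, rfl, rfl⟩⟩
    · rintro ⟨ι, x, ⟨q', ε'⟩, b⟩ a
      obtain ⟨-, rfl, rfl⟩ := (c2 ..).1 (mem_filter.1 a).2
      rfl
  · refine (card_le_card (t := univ ×ˢ ({q | gen q = false} : Finset Q) ×ˢ univ) ?_).trans ?_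
    · intro γ a
      simpa [LV_sys] using (mem_filter.1 a).2
    · simp only [card_product, card_univ, p4, ← mul_assoc]
      gcongr
      omega
  · intro y
    obtain ⟨⟨τ, ε, q0⟩, h0⟩ := p3 y
    refine ⟨univ.image fun z : A × L => (z.1, q0, z.2), card_image_le.trans ?_, ?_⟩
    · simp only [card_univ, Fintype.card_prod]
      gcongr
      exact Nat.le_mul_of_pos_right _ (by omega)
    · rintro ⟨i, q, x⟩ h s l o
      have c1 : q0 ≠ q := fun h' => h (mem_image.2 ⟨(i, x), mem_univ _, by rw [h']⟩)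
      obtain ⟨⟨m, ι⟩, ⟨d1, d2⟩, -⟩ := hu i (xor s ε, l, τ)
      refine ⟨(m, o), (ι, sh m x, (q0, ε), (e (i, m)).2),
        LV_mem.2 (Or.inl ⟨d1, rfl, fun a => c1 a.1, rfl⟩), rfl, ?_⟩
      simp only at d2
      simp [LV_sys, d2, h0]
  · refine (sum_le_card_nsmul _ _ (w₁ + w₂ + w₃) fun m _ => LV_few h₁ h₂ h₃ _).trans (le_of_eq ?_)
    simp only [card_univ, Fintype.card_prod, Fintype.card_bool, hM, smul_eq_mul]; ring

end

/-- the reflection of an odd cyclic group -/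
lemma LV_refl (v : ℕ) : ∃ R : Matrix (ZMod (2 * v + 1)) (ZMod (2 * v + 1)) ℤ, IsW R 1 ∧ Rᵀ = R ∧
    ∀ x, R x x ≠ 0 → x = 0 := by
  refine ⟨_, IsW.one.submatrix (Equiv.neg _) (Equiv.refl _), ?_, fun x h => ?_⟩
  · ext x y
    exact if_congr (neg_eq_iff_eq_neg.trans (eq_comm.trans Iff.rfl)) rfl rfl
  · have h1 : -x = x := by simpa [Matrix.one_apply] using h
    have h2 : ((2 * v + 1 : ℕ) : ZMod (2 * v + 1)) = 0 := ZMod.natCast_self _
    push_cast at h2
    linear_combination x * h2 + v * h1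

/-- the position of a column -/
def LV_pos {T Q0 Q1 Γ : Type} (emb : T × Bool × Q1 ↪ Γ) :
    T × Bool × (Q0 ⊕ Q1) → (T × Bool × Q0) ⊕ Γ
  | (τ, ε, Sum.inl q) => Sum.inl (τ, ε, q)
  | (τ, ε, Sum.inr q) => Sum.inr (emb (τ, ε, q))

lemma LV_pos_inj {T Q0 Q1 Γ : Type} (emb : T × Bool × Q1 ↪ Γ) :
    Function.Injective (LV_pos (Q0 := Q0) emb) := by
  rintro ⟨τ, ε, q | q⟩ ⟨τ', ε', q' | q'⟩ h <;> simp_all [LV_pos]

lemma LV_card_right (Q0 Q1 : Type) [Fintype Q0] [Fintype Q1] :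
    #{q : Q0 ⊕ Q1 | q.isLeft = false} = Fintype.card Q1 := by
  rw [← card_univ, ← card_map (Function.Embedding.inr (α := Q0)) (s := univ)]
  refine congrArg _ ?_
  ext (q | q) <;> simp

lemma LV_cast {v : ℕ} {m m' : Fin (2 * v)} (c : ((m : ℕ) : ZMod (2 * v + 1)) = (m' : ℕ)) :
    m = m' := by
  rw [ZMod.natCast_eq_natCast_iff', Nat.mod_eq_of_lt (by omega), Nat.mod_eq_of_lt (by omega)] at c
  exact Fin.ext c

theorem lv_ps {p k a v nB u : ℕ} {ws : H7.Sd → ℕ} (hp : p.Prime) (h1 : p % 4 = 1)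
    (hI : Inner k a v) (ha : a = k * nB) (hk : 0 < k) (hv : 0 < v) (hF : H7.Fam u ws) (hu : 0 < u)
    (h0 : ws 0 = 0) (Q0 Q1 Γ : Type) [Fintype Q0] [DecidableEq Q0] [Fintype Q1] [DecidableEq Q1]
    [Fintype Γ] [DecidableEq Γ] (hQ : 2 * (Fintype.card Q0 + Fintype.card Q1) = p + 1)
    (hΓ : k * (2 * Fintype.card Q1) ≤ Fintype.card Γ) (X : Type) [DecidableEq X] :
    HasPS (Fin k × Bool × Q0) Γ (Hs X (k * p + ∑ s, ws s)) (k * p + ∑ s, ws s)
      (v * nB * ((2 * v + 1) * u)) (a * (Fintype.card Q1 + 1) * ((2 * v + 1) * u))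
      (4 * v * ∑ s, ws s) (2 * ((2 * v + 1) * u)) (k * (p + 1) * (v * nB * ((2 * v + 1) * u))) := by
  obtain ⟨C, T, hC, hC', hC'', hT, hT', hT'', hCT⟩ :=
    conf_T hp h1 (Q0 ⊕ Q1) (by rw [Fintype.card_sum, hQ])
  obtain ⟨Y, σ, e, hY, hY', he⟩ := hI
  obtain ⟨L0, _, _, D, hL, d1, d2, d3⟩ := hF
  obtain ⟨R, r1, r2, r3⟩ := LV_refl v
  obtain ⟨emb⟩ := Function.Embedding.nonempty_of_card_le (α := Fin k × Bool × Q1) (β := Γ)
    (by simpa using hΓ)
  have hw : ∑ s, ws s = ws (0, 1) + ws (1, 0) + ws (1, 1) := by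
    have : ∑ s, ws s = ws (0, 0) + ws (0, 1) + (ws (1, 0) + ws (1, 1)) := by
      rw [Fintype.sum_prod_type]
      exact (Fin.sum_univ_two _).trans
        (congrArg₂ _ (Fin.sum_univ_two _) (Fin.sum_univ_two _))
    rw [this, show ws (0, 0) = 0 from h0]; ring
  have t : ∀ (P : Matrix (ZMod (2 * v + 1)) (ZMod (2 * v + 1)) ℤ) (s : H7.Sd),
      (P ⊗ₖ D s)ᵀ = Pᵀ ⊗ₖ D s := fun P s => by rw [← kroneckerMap_transpose, d2]
  have x1 := r1.kron (d1 (0, 1))
  have x2 := (IsW.one (I := ZMod (2 * v + 1))).kron (d1 (1, 0))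
  have x3 := (IsW.one (I := ZMod (2 * v + 1))).kron (d1 (1, 1))
  rw [one_mul] at x1 x2 x3
  obtain ⟨M, m1, m2⟩ := lv_matrix hY hY' x1 x2 x3 (by rw [t, r2]) (by rw [t, transpose_one])
    (by rw [t, transpose_one]) (by simp only [← mul_kronecker_mul, d3 (0, 1), mul_one, one_mul])
    (by simp only [← mul_kronecker_mul, d3 (0, 1), mul_one, one_mul])
    (by simp only [← mul_kronecker_mul, d3 (1, 0)]) hC hC' hC'' hT hT' hT'' hCT
  let sh : Fin (2 * v) → ZMod (2 * v + 1) × L0 ≃ ZMod (2 * v + 1) × L0 := fun m =>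
    (Equiv.addRight ((m : ℕ) : ZMod (2 * v + 1))).prodCongr (Equiv.refl _)
  have cL : Fintype.card (ZMod (2 * v + 1) × L0) = (2 * v + 1) * u := by
    rw [Fintype.card_prod, ZMod.card, hL]
  have hs : ∀ x m m', (R ⊗ₖ D (0, 1)) (sh m x) (sh m x) ≠ 0 →
      (R ⊗ₖ D (0, 1)) (sh m' x) (sh m' x) ≠ 0 → m = m' := fun x m m' a b =>
    LV_cast (add_left_cancel (a := x.1)
      ((r3 _ (left_ne_zero_of_mul a)).trans (r3 _ (left_ne_zero_of_mul b)).symm))
  have ok := LV_ok (σ := σ) (e := e) (gen := Sum.isLeft) x1 x2 x3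
    (by rw [Fintype.card_fin, Fintype.card_fin]) (LV_pos_inj emb)
    (by rintro τ ε (q | q) <;> rfl) (fun y => ⟨(y.1, y.2.1, Sum.inl y.2.2), rfl⟩)
    (LV_card_right Q0 Q1) (fun i c => cell_unique (he i) c)
    (fun c => Nat.eq_of_mul_eq_mul_left hk ((cell_count hY e he c).trans ha)) hs m1 m2 X
  rw [cL, Fintype.card_fin, Fintype.card_fin] at ok
  rw [hw]
  have l1 : 2 * v + 1 ≤ (2 * v + 1) * u := Nat.le_mul_of_pos_right _ hu
  have cG : Fintype.card (Fin a × (Q0 ⊕ Q1) × (ZMod (2 * v + 1) × L0)) * (v * 2) =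
      k * (p + 1) * (v * nB * ((2 * v + 1) * u)) := by
    rw [Fintype.card_prod, Fintype.card_prod, cL, Fintype.card_fin, Fintype.card_sum, ← hQ, ha]
    ring
  refine ⟨_, _, _, _, _, _, _, _, inferInstance, _, _, _, _, _, _, _, _, ok.1, ?_, ?_, ?_, ?_, ?_,
    ?_, ok.2⟩
  · rw [Fintype.card_prod, cL, Fintype.card_bool, mul_comm]
  · rw [Fintype.card_fin]; omega
  · rw [Fintype.card_bool]; omega
  · rw [Fintype.card_prod, Fintype.card_fin, Fintype.card_bool]; omega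
  · rw [Fintype.card_fin v, Fintype.card_bool, cG]
  · rw [← cG]; exact Nat.le_mul_of_pos_right _ (by omega)

end Pool.Agent.MP_d8b1b3_co.H68.Od

namespace Pool.Agent.MP_d8b1b3_co.H68.Od

open Matrix Finset H7
open scoped Kronecker

/-- the right quaternion units -/
def coreR (s : Sd) : Matrix Sd Sd ℤ := Matrix.of fun a b => if b = a + s then
  (if s = 0 then 1 else if s = (0, 1) then sgn2 a.2 else
    if s = (1, 0) then sgn2 a.1 * sgn2 a.2 else sgn2 a.1) else 0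

/-- the sum of the left quaternion units -/
def coreH : Matrix Sd Sd ℤ := Matrix.of fun a b => if b = a then 1 else
  if b = a + (0, 1) then sgn2 a.1 * sgn2 a.2 else if b = a + (1, 0) then sgn2 a.1 else sgn2 a.2

/-- The right quaternion units and a Hadamard matrix that commutes with them. -/
lemma quat_units : ∃ (R : Sd → Matrix Sd Sd ℤ) (H : Matrix Sd Sd ℤ), (∀ s, IsW (R s) 1) ∧
    (∀ s t, s ≠ t → R s * (R t)ᵀ + R t * (R s)ᵀ = 0) ∧
    (∀ s a b, |R s a b| = if b = a + s then 1 else 0) ∧ IsW H 4 ∧ (∀ a b, |H a b| = 1) ∧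
    ∀ s, H * R s = R s * H := by
  have e : ∀ z : ℤ, |z| ≤ 1 → z = 0 ∨ z = 1 ∨ z = -1 := fun z h => by
    have := abs_le.1 h
    omega
  refine ⟨coreR, coreH, fun s => ⟨fun i j => e _ ?_, ?_, ?_⟩, by decide, by decide,
    ⟨fun i j => e _ (by revert i j; decide), by decide, by decide⟩, by decide, by decide⟩
  · revert s i j; decide
  all_goals revert s; decide

lemma Core_sub : ∀ a b : Sd, a - b = b - a := by decide

/-- the weighing matrix of the core -/
theorem core_matrix {L D0 : Type} [Fintype L] [DecidableEq L] [Fintype D0] [DecidableEq D0]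
    {D : Sd → Matrix L L ℤ} {ws : Sd → ℕ} (h1 : ∀ s, IsW (D s) (ws s)) (h2 : ∀ s, (D s)ᵀ = D s)
    (h3 : ∀ s t, D s * D t = D t * D s) (hw : 0 < ∑ s, ws s) (H : HadOn D0) :
    ∃ M : Matrix (Bool × Sd × L × D0) (Bool × Sd × L × D0) ℤ,
      IsW M (4 * Fintype.card D0 + ∑ s, ws s) ∧ ∀ s q x d s' q' x' d',
        |M (s, q, x, d) (s', q', x', d')| = if s' = s then (if x' = x then 1 else 0) else
          if d' = d then |D (q' - q) x x'| else 0 := by
  obtain ⟨R, Q, r1, r2, r3, q1, q2, q3⟩ := quat_units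
  obtain ⟨H0, a1, a2⟩ := HadOn.isW H
  obtain ⟨b1, b2⟩ := clifford R (fun s => D s ⊗ₖ (1 : Matrix D0 D0 ℤ)) ws r1 r2
    (fun s t a b hst => by
      by_contra h
      obtain ⟨e1, e2⟩ := not_or.1 h
      have f : ∀ s, R s a b ≠ 0 → b = a + s := fun s hs => by
        by_contra h'
        exact hs (abs_eq_zero.1 ((r3 s a b).trans (if_neg h')))
      exact hst (add_left_cancel ((f s e1).symm.trans (f t e2))))
    (fun s => by simpa using (h1 s).kron (IsW.one (I := D0)))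
    (fun s t => by simp only [← kroneckerMap_transpose, ← mul_kronecker_mul, h2, h3 s t]) hw
  have c1 := q1.kron ((IsW.one (I := L)).kron a1)
  rw [one_mul] at c1
  have c2 : ∀ q x d q' x' d', |(Q ⊗ₖ ((1 : Matrix L L ℤ) ⊗ₖ H0)) (q, x, d) (q', x', d')| =
      if x = x' then 1 else 0 := fun q x d q' x' d' => by
    simp only [kronecker_apply, abs_mul, q2, a2, Matrix.one_apply, apply_ite abs]
    simp
  have c3 : ∀ q x d q' x' d', |(∑ t, R t ⊗ₖ (D t ⊗ₖ (1 : Matrix D0 D0 ℤ))) (q, x, d) (q', x', d')| =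
      if d = d' then |D (q' - q) x x'| else 0 := fun q x d q' x' d' => by
    simp only [b2, r3, ← sub_eq_iff_eq_add', ite_mul, one_mul, zero_mul, sum_ite_eq, mem_univ,
      if_true]
    simp only [kronecker_apply, Matrix.one_apply, mul_ite, mul_one, mul_zero, apply_ite abs,
      abs_zero]
  have c4 : Q ⊗ₖ ((1 : Matrix L L ℤ) ⊗ₖ H0) * ∑ t, R t ⊗ₖ (D t ⊗ₖ (1 : Matrix D0 D0 ℤ)) =
      (∑ t, R t ⊗ₖ (D t ⊗ₖ (1 : Matrix D0 D0 ℤ))) * Q ⊗ₖ ((1 : Matrix L L ℤ) ⊗ₖ H0) := by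
    simp only [Matrix.mul_sum, Matrix.sum_mul, ← mul_kronecker_mul, q3, Matrix.one_mul,
      Matrix.mul_one]
  generalize Q ⊗ₖ ((1 : Matrix L L ℤ) ⊗ₖ H0) = A at c1 c2 c4
  generalize ∑ t, R t ⊗ₖ (D t ⊗ₖ (1 : Matrix D0 D0 ℤ)) = B at b1 c3 c4
  have c5 : Aᵀ * Bᵀ = Bᵀ * Aᵀ := by rw [← transpose_mul, ← c4, transpose_mul]
  have m : IsW (fromBlocks A B (-Bᵀ) Aᵀ) (4 * Fintype.card D0 + ∑ s, ws s) := by
    refine IsW.of_row (by omega) ?_ ?_
    · rintro (i | i) (j | j)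
      exacts [c1.ent i j, b1.ent i j, b1.transpose.neg.ent i j, c1.ent j i]
    · rw [fromBlocks_transpose, fromBlocks_multiply, ← fromBlocks_one, fromBlocks_smul]
      simp only [transpose_neg, transpose_transpose, Matrix.mul_neg, Matrix.neg_mul, neg_neg,
        c1.row, c1.col, b1.row, b1.col, c4, c5, neg_add_cancel, smul_zero, ← add_smul]
      congr 2
      push_cast; ring
  refine ⟨_, m.submatrix (Equiv.boolProdEquivSum _) (Equiv.boolProdEquivSum _), ?_⟩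
  rintro (_ | _) q x d (_ | _) q' x' d'
  · simp [c2, eq_comm]
  · simp [c3, eq_comm]
  · have : D (q - q') x' x = D (q' - q) x x' := by
      rw [Core_sub q, ← h2 (q' - q), transpose_apply, h2]
    simp [c3, this]
  · simp [c2]

lemma Core_abs {I : Type} [Fintype I] [DecidableEq I] {Y : Matrix I I ℤ} {w : ℕ} (h : IsW Y w)
    (i j : I) : |Y i j| = if Y i j ≠ 0 then 1 else 0 := by
  rcases h.ent i j with e | e | e <;> simp [e]

lemma Core_card {I : Type} [Fintype I] [DecidableEq I] {Y : Matrix I I ℤ} {w : ℕ} (h : IsW Y w)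
    (i : I) : #{j | Y i j ≠ 0} = w := by
  have := h.sum_abs i
  rw [sum_congr rfl fun j _ => Core_abs h i j, sum_boole] at this
  exact_mod_cast this

/-- an injection of the four sides into five labels -/
def coreI (q : Sd) : ZMod 5 := if q = 0 then 0 else if q = (0, 1) then 1 else
  if q = (1, 0) then 2 else 3

lemma coreI_inj : ∀ q q', coreI q = coreI q' → q = q' := by decide

/-- five copies of the matrix of the core form a system of pieces -/
theorem core_ps {u : ℕ} {ws : Sd → ℕ} (hF : Fam u ws) (hu : 0 < u) (hw : 0 < ∑ s, ws s)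
    {D0 : Type} [Fintype D0] [DecidableEq D0] (H : HadOn D0) (C Γ : Type) [Fintype C]
    [DecidableEq C] [DecidableEq Γ] (hC : Fintype.card C = 4 * Fintype.card D0) (X : Type)
    [DecidableEq X] :
    HasPS C Γ (Hs X (Fintype.card C + ∑ s, ws s)) (Fintype.card C + ∑ s, ws s) (5 * u) 0
      (10 * ∑ s, ws s) (10 * u) (Fintype.card C * (5 * u)) := by
  obtain ⟨L, _, _, D, hL, d1, d2, d3⟩ := hF
  obtain ⟨M, m1, m2⟩ := core_matrix d1 d2 d3 hw H
  have y1 := (IsW.one (I := ZMod 5)).kron m1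
  rw [one_mul, ← hC] at y1
  have hc : Fintype.card (Sd × D0) = Fintype.card C := by simp [hC]
  let ε : Sd × D0 ≃ C := Fintype.equivOfCardEq hc
  have y2 : ∀ i s q x d i' s' q' x' d',
      ((1 : Matrix (ZMod 5) (ZMod 5) ℤ) ⊗ₖ M) (i, s, q, x, d) (i', s', q', x', d') ≠ 0 ↔
        i' = i ∧ if s' = s then x' = x else d' = d ∧ D (q' - q) x x' ≠ 0 := by
    intro i s q x d i' s' q' x' d'
    rw [kronecker_apply, mul_ne_zero_iff, ← abs_ne_zero (a := M _ _), m2, Matrix.one_apply]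
    refine and_congr (by simp [eq_comm]) ?_
    split_ifs <;> simp [*]
  generalize (1 : Matrix (ZMod 5) (ZMod 5) ℤ) ⊗ₖ M = Y at y1 y2
  let e : (Sd × L × D0) × ZMod 5 × Bool ≃ ZMod 5 × Bool × Sd × L × D0 :=
    (Equiv.prodComm _ _).trans (Equiv.prodAssoc _ _ _)
  let P : PS C Γ (ZMod 5 × Bool × Sd × L × D0) (Bool × L) (ZMod 5) Unit (Sd × L × D0)
      (ZMod 5 × Bool) :=
    ⟨fun γ m => {j | Y (e (γ, m)) j ≠ 0}, fun j => j.2.1, fun j => (j.2.1, j.2.2.2.1),
      fun j => j.1 + coreI j.2.2.1, fun j => Sum.inl (ε (j.2.2.1, j.2.2.2.2)),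
      fun γ m => (m.2, γ.2.1), fun _ => (), fun _ => true⟩
  have y3 : ∀ i s q x d i' s' q' x' d', (i', s', q', x', d') ∈ P.inc (q, x, d) (i, s) ↔
      i' = i ∧ if s' = s then x' = x else d' = d ∧ D (q' - q) x x' ≠ 0 :=
    fun i s q x d i' s' q' x' d' => by
      rw [← y2]; exact mem_filter.trans (and_iff_right (mem_univ _))
  have row : ∀ γ m, #(P.inc γ m) = Fintype.card C + ∑ s, ws s := fun γ m => Core_card y1 _
  have n1 : ∀ γ m, #{j ∈ P.inc γ m | P.sd j = m.2} = Fintype.card C := by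
    rintro ⟨q, x, d⟩ ⟨i, s⟩
    rw [← hc, ← card_univ]
    refine (card_bij (fun z _ => (i, s, z.1, x, z.2)) (fun z _ => ?_) (fun z _ z' _ h => ?_) ?_).symm
    · exact mem_filter.2 ⟨(y3 ..).2 (by simp), rfl⟩
    · simp only [Prod.mk.injEq, true_and] at h
      exact Prod.ext h.1 h.2
    · rintro ⟨i', s', q', x', d'⟩ hj
      obtain ⟨h1, rfl : s' = s⟩ := mem_filter.1 hj
      obtain ⟨rfl, h2⟩ := (y3 ..).1 h1
      rw [if_pos rfl] at h2
      exact ⟨(q', d'), mem_univ _, by rw [h2]⟩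
  have n2 : ∀ γ m, #{j ∈ P.inc γ m | ¬ P.sd j = m.2} = ∑ s, ws s := fun γ m => by
    have := card_filter_add_card_filter_not (s := P.inc γ m) fun j => P.sd j = m.2
    rw [n1, row] at this
    omega
  have n3 : ∀ γ i s b, #{j ∈ P.inc γ (i, s) | P.sd j = b} =
      if b = s then Fintype.card C else ∑ s, ws s := fun γ i s b => by
    split_ifs with h
    · exact h ▸ n1 γ (i, b)
    · rw [← n2 γ (i, s)]
      congr 1
      refine filter_congr fun j _ => ?_
      revert h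
      cases s <;> cases b <;> simp
  refine ⟨_, _, _, _, _, _, inferInstance, inferInstance, inferInstance, inferInstance,
    inferInstance, inferInstance, inferInstance, inferInstance, inferInstance, inferInstance, P,
    ⟨row, fun j => ?_, by simp, ?_, ?_, fun γ => ?_, fun γ => by simp [P], fun _ _ _ _ _ _ => rfl,
      fun s y => ?_, by simp [P], fun y => ⟨∅, le_rfl, ?_⟩, fun γ => ?_⟩,
    by simp [hL]; omega, by simp; omega, by simp; omega, by simp; omega,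
    by simp [hL, hC]; ring, by simp [hL, hC]; nlinarith, fun φ => St.hs ⟨_, _, _, Y, φ, y1, ?_⟩⟩
  · rw [← Core_card y1.transpose j, card_filter, ← Equiv.sum_comp e,
      Fintype.sum_prod_type (α₁ := Sd × L × D0)]
    refine sum_congr rfl fun γ _ => ?_
    rw [card_filter]
    exact sum_congr rfl fun m _ => if_congr (by simp [P]) rfl rfl
  · rintro ⟨q, x, d⟩ ⟨i, s⟩ ⟨i1, s1, q1, x1, d1⟩ ⟨i', s'⟩ ⟨i2, s2, q2, x2, d2⟩ h1 h2 h3 h4 h5 h6 - h7
    obtain ⟨rfl, -⟩ := (y3 ..).1 h1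
    obtain ⟨rfl, -⟩ := (y3 ..).1 h3
    obtain ⟨rfl, rfl⟩ : s1 = s ∧ x1 = x := Prod.mk.inj h2
    obtain ⟨rfl, rfl⟩ : s2 = s' ∧ x2 = x1 := Prod.mk.inj h4
    obtain rfl : s1 = s2 := h5
    obtain ⟨rfl, rfl⟩ : q1 = q2 ∧ d1 = d2 := Prod.mk.inj (ε.injective (Sum.inl.inj h7))
    obtain rfl : i1 = i2 := add_right_cancel h6
    exact ⟨rfl, rfl⟩
  · rintro ⟨q, x, d⟩ ⟨i, s⟩ ⟨i1, s1, q1, x1, d1⟩ ⟨i2, s2, q2, x2, d2⟩ h1 h2 h3 h4 h5 h6
    obtain ⟨rfl, a1⟩ := (y3 ..).1 h1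
    obtain ⟨rfl, a2⟩ := (y3 ..).1 h2
    obtain ⟨rfl, rfl⟩ : s1 = s2 ∧ x1 = x2 := Prod.mk.inj h5
    have hs : s1 ≠ s := fun h => h3 (Prod.ext h (by rwa [if_pos h] at a1))
    rw [if_neg hs] at a1 a2
    rw [a1.1, a2.1, coreI_inj q1 q2 (add_left_cancel h6)]
  · simp [Fintype.sum_prod_type, n3, add_comm]
  · rw [show 5 * u = #(univ : Finset (ZMod 5 × L)) by simp [hL]]
    refine (card_bij (fun z _ => (z.1, s, (ε.symm y).1, z.2, (ε.symm y).2)) (fun z _ => ?_)
      (fun z _ z' _ h => ?_) ?_).symm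
    · simp [P]
    · simp only [Prod.mk.injEq, true_and, and_true] at h
      exact Prod.ext h.1 h.2
    · rintro ⟨i', s', q', x', d'⟩ hj
      obtain ⟨-, rfl : s' = s, h⟩ := mem_filter.1 hj
      obtain rfl := Sum.inl.inj h
      exact ⟨(i', x'), mem_univ _, by simp⟩
  · rintro ⟨q, x, d⟩ - s v o
    exact ⟨(v - coreI (ε.symm y).1, s), (v - coreI (ε.symm y).1, s, (ε.symm y).1, x, (ε.symm y).2),
      (y3 ..).2 (by simp), rfl, rfl, sub_add_cancel _ _, rfl, by simp [P]⟩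
  · have : ∀ m, #{j ∈ P.inc γ m | P.nd j ≠ P.rn γ m} ≤ ∑ s, ws s := by
      obtain ⟨q, x, d⟩ := γ
      rintro ⟨i, s⟩
      rw [← n2 (q, x, d) (i, s)]
      refine card_le_card ?_
      rintro ⟨i', s', q', x', d'⟩ hj
      obtain ⟨h1, h2⟩ := mem_filter.1 hj
      refine mem_filter.2 ⟨h1, fun h : s' = s => h2 (Prod.ext h ?_)⟩
      have := ((y3 ..).1 h1).2
      rwa [if_pos h] at this
    simpa using sum_le_card_nsmul _ _ _ fun m (_ : m ∈ univ) => this m
  · rw [← Equiv.sum_comp e, Fintype.sum_prod_type (α₁ := Sd × L × D0)]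
    refine sum_congr rfl fun γ _ => sum_congr rfl fun m _ => ?_
    simp only [H68.star, P, sum_filter, Core_abs y1, ite_smul, one_smul, zero_smul]

end Pool.Agent.MP_d8b1b3_co.H68.Od
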