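import Mathlib
import Pool.Agent.MP_d8b1b3_co.H60.Piece
import Pool.Agent.MP_d8b1b3_co.H88d.Count
import Pool.Agent.MP_d8b1b3_co.H42d.SI

/-!
Hadamard matrices of order `8 q q' w` and density one for the multiples of eight.
-/

set_option autoImplicit false

namespace Pool.Agent.MP_d8b1b3_co.H68.Od

open Matrix Finset

/-- bookkeeping of sizes -/
lemma le_mul {D x y a b : ℕ} (h : x ≤ D ^ a) (h' : y ≤ D ^ b) : x * y ≤ D ^ (a + b) := by
  rw [pow_add]; exact Nat.mul_le_mul h h'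

lemma le_mono {D x a b : ℕ} (hD : 2 ≤ D) (h : x ≤ D ^ a) (hab : a ≤ b) : x ≤ D ^ b :=
  h.trans (Nat.pow_le_pow_right (by omega) hab)

lemma le_add {D x y a b c : ℕ} (hD : 2 ≤ D) (h : x ≤ D ^ a) (h' : y ≤ D ^ b) (ha : a ≤ c)
    (hb : b ≤ c) : x + y ≤ D ^ (c + 1) := by
  have h1 := le_mono hD h ha
  have h2 := le_mono hD h' hb
  have h3 := Nat.mul_le_mul_left (D ^ c) hD
  rw [pow_succ]
  omega

lemma le_pow {D x a : ℕ} (h : x ≤ D ^ a) (n : ℕ) : x ^ n ≤ D ^ (a * n) := by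
  rw [pow_mul]; exact Nat.pow_le_pow_left h n

/-- the inner system exists, with polynomial sizes -/
theorem inner_exists {t u l D : ℕ} (hG : G t l) (hl : 0 < l) (hu : u ^ 2 = 2 * l + 1)
    (hD : u ^ 2 * 2 ^ (t + 4) ≤ D) : ∃ a v nB, Inner (u ^ 2) a v ∧ a = u ^ 2 * nB ∧ nB % 2 = 1 ∧
      v % 2 = 1 ∧ v ≤ D ^ 12 ∧ a ≤ D ^ 40 := by
  have hu0 : 0 < u := Nat.pos_of_ne_zero (by rintro rfl; simp at hu)
  obtain ⟨u0, ho, hle, hsw⟩ := H7.SW_sq hu0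
  rw [show u ^ 4 = (u ^ 2) ^ 2 by ring] at hle
  generalize u ^ 2 = k at *
  have hk : 0 < k := by omega
  obtain ⟨r, hr, hr1, hr2⟩ := Nat.exists_prime_lt_and_le_two_mul (u0 + 2 * k + 2) (by omega)
  have := Fact.mk hr
  have : NeZero k := ⟨hk.ne'⟩
  have hw : Fintype.card Empty + Fintype.card (ZMod k) = k := by simp
  have hdev := dev (ZMod r) (inner_ps hsw (ZMod k) 0
    (Pt (ZMod r × ZMod r × ZMod r × ZMod r) Empty (ZMod k))) (ZMod.card r) (ZMod.card k)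
    (by omega) (by omega) (by simp)
  have hC : FamC (SS2 (Pt (ZMod r × ZMod r × ZMod r × ZMod r) Empty (ZMod k)) k)
      (2 * 2 ^ (t + 2)) k := by
    subst hu
    exact (G_famC hG hl).mono fun _ h => SSt.ss2 h
  have hF : FamD (SS2 (Pt (ZMod r × ZMod r × ZMod r × ZMod r) Empty (ZMod k)) k)
      (2 * 2 ^ (t + 2)) k := by
    subst hu
    exact (G_famD hG hl).mono fun _ h => SSt.ss2 h
  obtain ⟨d, hd⟩ : ∃ d, d = 2 * (r * k * (u0 * (2 * k))) + r ^ 5 * k ^ 2 * u0 := ⟨_, rfl⟩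
  obtain ⟨μ, h1, n, h2, h3⟩ := hdev.finish (e := 0) (d := d) (D0 := r ^ 5 * k ^ 2 * u0) hC hF hw
    (fun c => c.elim) (by simp) (hd ▸ Nat.le_mul_of_pos_left _ (by positivity))
  have hX : Fintype.card (Pt (ZMod r × ZMod r × ZMod r × ZMod r) Empty (ZMod k)) =
      2 * r ^ 4 * k := by
    simp only [Fintype.card_prod, Fintype.card_sum, Fintype.card_bool, ZMod.card,
      Fintype.card_empty]
    ring
  have h4 := Rows.count h2 (SS2.mass h1)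
  simp only [Fintype.card_prod, ZMod.card] at h3
  rw [hX, h3] at h4
  have hn : n = k * (r ^ 4 * k * (r * u0 + 2 ^ (t + 4) * d)) := by
    refine Nat.eq_of_mul_eq_mul_right (show 0 < 2 * r ^ 4 * k by have := hr.pos; positivity) ?_
    rw [h4]
    ring
  have hro : r % 2 = 1 := hr.eq_two_or_odd.resolve_left (by omega)
  have hv : r ^ 4 % 2 = 1 := by rw [Nat.pow_mod, hro]
  have h16 : 16 ≤ 2 ^ (t + 4) := by
    rw [pow_add]
    exact Nat.le_mul_of_pos_left _ (by positivity)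
  have hkD : 16 * k ≤ D := by nlinarith
  have h2D : 2 ≤ D := by omega
  have a1 : k ≤ D ^ 1 := by rw [pow_one]; omega
  have a2 : u0 ≤ D ^ 2 := hle.trans (le_pow a1 2)
  have a3 : r ≤ D ^ 3 := by
    have b1 : (16 * k) ^ 3 ≤ D ^ 3 := Nat.pow_le_pow_left hkD 3
    have b2 : k ^ 2 ≤ k ^ 3 := Nat.pow_le_pow_right hk (by norm_num)
    have b3 : k ≤ k ^ 3 := Nat.le_self_pow (by norm_num) k
    rw [mul_pow] at b1
    omega
  have a4 : 2 ≤ D ^ 1 := by rwa [pow_one]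
  have a5 : 2 ^ (t + 4) ≤ D ^ 1 := by
    rw [pow_one]
    exact (Nat.le_mul_of_pos_left _ hk).trans hD
  have a6 : d ≤ D ^ (19 + 1) := hd ▸ le_add h2D
    (le_mul a4 (le_mul (le_mul a3 a1) (le_mul a2 (le_mul a4 a1))))
    (le_mul (le_mul (le_pow a3 5) (le_pow a1 2)) a2) (by norm_num) (by norm_num)
  have a7 : r * u0 + 2 ^ (t + 4) * d ≤ D ^ (21 + 1) :=
    le_add h2D (le_mul a3 a2) (le_mul a5 a6) (by norm_num) (by norm_num)
  refine ⟨n, r ^ 4, _, inner_of h1 h2 hk hX, hn, ?_, hv, le_pow a3 4, ?_⟩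
  · have e1 : k % 2 = 1 := by omega
    have e2 : r * u0 % 2 = 1 := by rw [Nat.mul_mod, hro, ho]
    have e3 : (r * u0 + 2 ^ (t + 4) * d) % 2 = 1 := by
      rw [pow_succ', mul_assoc]
      omega
    rw [Nat.mul_mod, Nat.mul_mod (r ^ 4), hv, e1, e3]
  · rw [hn]
    exact le_mono h2D (le_mul a1 (le_mul (le_mul (le_pow a3 4) a1) a7)) (by norm_num)

end Pool.Agent.MP_d8b1b3_co.H68.Od

namespace Pool.Agent.MP_d8b1b3_co.H68.Od

open Matrix Finset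

/-- The tile of one cell, without the sizes. -/
theorem cell_ht {C : Type} [Fintype C] [DecidableEq C] {w K K' r E Δ c m1 m2 B S1 S2 n1 n2 z d : ℕ}
    [NeZero E] (hr : r.Prime) (hK : K' + 1 = 2 * K) (hw : w = Fintype.card C + E)
    (hE : E = Δ + 2 * c)
    (hC : ∀ (X : Type) [DecidableEq X], FamC (Hs X w) K w)
    (hD : ∀ (X : Type) [DecidableEq X], FamD (Hs X w) K w)
    (h1 : ∀ (X : Type) [DecidableEq X],
      HasPS C (ZMod E) (Hs X w) w m1 B S1 n1 ((Fintype.card C + 2 * c) * m1))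
    (h2 : ∀ (X : Type) [DecidableEq X],
      HasPS C (ZMod E) (Hs X w) w m2 0 S2 n2 (Fintype.card C * m2))
    (l1 : n1 ≤ r) (l2 : n2 ≤ r) (l3 : S1 < r) (l4 : S2 < r)
    (hd : 2 * (m2 * E * z * (r * E * (B * S1))) +
      r ^ 5 * E ^ 2 * (m2 * E * z * (2 * c + 1) * m1 + K' * m1 * Δ * z * m2) ≤ K * d) :
    HT w (2 * (r ^ 4 * E * (r * E * m1 * m2 * z * (c + K * Δ) +
      K * (d + r * E ^ 2 * m1 * m2 * Δ * z))) * w) (2 * r ^ 4 * w) := by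
  have : Fact r.Prime := ⟨hr⟩
  have hE0 : 0 < E := Nat.pos_of_ne_zero (NeZero.ne E)
  have d1 := dev (ZMod r) (h1 _) (ZMod.card r) (ZMod.card E) l1 l3 hw.symm
  have d2 := dev (ZMod r) (h2 _) (ZMod.card r) (ZMod.card E) l2 l4 hw.symm
  have hK' : (K' : ℤ) = 2 * K - 1 := by omega
  obtain ⟨μ, hμ, n, hn, hc⟩ := ((d1.nsmul (m2 * E * z)).add (d2.nsmul (K' * m1 * Δ * z))).finish
    (e := 2 * r * E ^ 2 * m1 * m2 * Δ * z) (d := d)
    (D0 := r ^ 5 * E ^ 2 * (m2 * E * z * (2 * c + 1) * m1 + K' * m1 * Δ * z * m2)) (hC _) (hD _)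
    (by rw [ZMod.card, hw]) (fun _ => by subst hw hE; zify; rw [hK']; ring)
    (by
      generalize Fintype.card C = N
      calc _ ≤ _ + r ^ 5 * E ^ 2 * (m2 * E * z * m1 * (2 * c * N + 1) + K' * m1 * Δ * z * m2) :=
            Nat.le_add_right _ _
        _ = _ := by ring)
    (by simpa using hd)
  have hX : Fintype.card (Pt (ZMod r × ZMod r × ZMod r × ZMod r) C (ZMod E)) = 2 * r ^ 4 * w := by
    simp only [Fintype.card_prod, Fintype.card_sum, Fintype.card_bool, ZMod.card, hw]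
    ring
  have h5 := Rows.count hn (Hs.mass hμ)
  rw [hX, hc] at h5
  simp only [Fintype.card_prod, ZMod.card] at h5
  have h6 : 0 < 2 * r ^ 4 * w := by have := hr.pos; have : 0 < w := (by omega); positivity
  convert HT.of_card hμ hn hX using 1
  refine (Nat.eq_of_mul_eq_mul_right h6 (h5.trans ?_)).symm
  subst hw hE
  zify
  rw [hK']
  ring

lemma KeyB_fam (a b c d : ℕ) {δ D : ℕ} (h : a ^ 2 + b ^ 2 + c ^ 2 + d ^ 2 = δ) (hD : 9 ≤ D)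
    (hδ : δ ≤ D) : ∃ (u : ℕ) (ws : H7.Sd → ℕ), u % 2 = 1 ∧ u ≤ D ^ 16 ∧ H7.Fam u ws ∧
      ws 0 = a ^ 2 ∧ ∑ s, ws s = δ := by
  have e : ∑ s : H7.Sd, (![![a, b], ![c, d]] s.1 s.2) ^ 2 = δ := by
    rw [Fintype.sum_prod_type]
    refine (Fin.sum_univ_two _).trans ?_
    rw [show ∀ f : ZMod 2 → ℕ, ∑ x, f x = f 0 + f 1 from Fin.sum_univ_two,
      show ∀ f : ZMod 2 → ℕ, ∑ x, f x = f 0 + f 1 from Fin.sum_univ_two, ← h]
    change a ^ 2 + b ^ 2 + (c ^ 2 + d ^ 2) = _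
    ring
  obtain ⟨u, h1, h2, h3⟩ := H7.fam_sq fun s => ![![a, b], ![c, d]] s.1 s.2
  refine ⟨u, _, h1, h2.trans ?_, h3, rfl, e⟩
  calc _ ≤ (D ^ 2) ^ 8 := by rw [e]; gcongr; nlinarith
    _ = _ := by ring

lemma KeyB_bound {D r E m1 m2 z c K K' Δ B S : ℕ} (hD : 9 ≤ D) (hr : r ≤ D ^ 32) (hE : E ≤ D)
    (h1 : m1 ≤ D ^ 81) (h2 : m2 ≤ D ^ 17) (hz : z ≤ D) (hc : 2 * c + 1 ≤ D) (hK : K ≤ D)
    (hK' : K' ≤ D) (hΔ : Δ ≤ D) (hB : B ≤ D ^ 70) (hS : S ≤ D ^ 14) :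
    r ^ 4 * E * (r * E * m1 * m2 * z * (c + K * Δ) + K * (2 * (m2 * E * z * (r * E * (B * S))) +
      r ^ 5 * E ^ 2 * (m2 * E * z * (2 * c + 1) * m1 + K' * m1 * Δ * z * m2) +
      r * E ^ 2 * m1 * m2 * Δ * z)) ≤ D ^ 500 := by
  have hc' : c ≤ D := by omega
  have h := fun e (he : e ≤ 393) => Nat.pow_le_pow_right (show 0 < D by omega) he
  calc _ ≤ (D ^ 32) ^ 4 * D * (D ^ 32 * D * D ^ 81 * D ^ 17 * D * (D + D * D) +
        D * (2 * (D ^ 17 * D * D * (D ^ 32 * D * (D ^ 70 * D ^ 14))) + (D ^ 32) ^ 5 * D ^ 2 *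
          (D ^ 17 * D * D * D * D ^ 81 + D * D ^ 81 * D * D * D ^ 17) +
          D ^ 32 * D ^ 2 * D ^ 81 * D ^ 17 * D * D)) := by gcongr
    _ = D ^ 262 + D ^ 263 + 2 * D ^ 266 + 2 * D ^ 393 + D ^ 264 := by ring
    _ ≤ 7 * D ^ 393 := by
      have := h 262 (by norm_num)
      have := h 263 (by norm_num)
      have := h 264 (by norm_num)
      have := h 266 (by norm_num)
      omega
    _ ≤ D ^ 107 * D ^ 393 :=
      Nat.mul_le_mul_right _ (le_trans (by omega) (Nat.le_self_pow (by norm_num) D))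
    _ = _ := (pow_add D 107 393).symm

lemma KeyB_base {t w : ℕ} (hG : ∀ l, 0 < l → l ≤ w → G t l) (hw : w % 2 = 1) (h1 : 1 < w) :
    (∀ (X : Type) [DecidableEq X], FamC (Hs X w) (2 ^ (t + 2)) w) ∧
      (∀ (X : Type) [DecidableEq X], FamD (Hs X w) (2 ^ (t + 2)) w) ∧
      Tile w (2 * 2 ^ (t + 2) * w) (2 * w) := by
  obtain ⟨l, rfl⟩ : ∃ l, w = 2 * l + 1 := ⟨w / 2, by omega⟩
  have hl : 0 < l := by omega
  have h := hG l hl (by omega)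
  exact ⟨fun X _ D _ hD φ => St.hs (SSt.st (G_famC h hl D hD φ)),
    fun X _ D _ hD φ ψ => St.hs (SSt.st (G_famD h hl D hD φ ψ)), base_tile (by omega)
      (fun X _ D _ hD φ => SSt.st (G_famC h hl D hD φ))
      fun X _ D _ hD φ ψ => SSt.st (G_famD h hl D hD φ ψ)⟩

lemma KeyB_fin {C : Type} [Fintype C] [DecidableEq C] {w T E Δ c m1 u2 B S L D q : ℕ} [NeZero E]
    (hw : w = Fintype.card C + E) (hE : E = Δ + 2 * c)
    (hC : ∀ (X : Type) [DecidableEq X], FamC (Hs X w) (2 ^ T) w)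
    (hD : ∀ (X : Type) [DecidableEq X], FamD (Hs X w) (2 ^ T) w)
    (T0 : Tile w (2 * 2 ^ T * w) (2 * w))
    (h1 : ∀ (X : Type) [DecidableEq X],
      HasPS C (ZMod E) (Hs X w) w m1 B S (2 * L) ((Fintype.card C + 2 * c) * m1))
    (h2 : ∀ (X : Type) [DecidableEq X],
      HasPS C (ZMod E) (Hs X w) w (5 * u2) 0 (10 * E) (10 * u2) (Fintype.card C * (5 * u2)))
    (oΔ : Δ % 2 = 1) (oc : c % 2 = 1) (om : m1 % 2 = 1) (o2 : u2 % 2 = 1) (b0 : 10 ≤ D)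
    (bE : E ≤ D) (bK : 2 * 2 ^ T ≤ D) (bm : m1 ≤ D ^ 81) (b2 : u2 ≤ D ^ 16) (bB : B ≤ D ^ 70)
    (bS : S ≤ D ^ 14) (bL : L ≤ D ^ 29) (hq : D ^ 500 ≤ q) :
    ∃ r, r % 2 = 1 ∧ r ≤ D ^ 40 ∧ HT w (2 * q * w) (2 * r ^ 4 * w) := by
  have hT : 0 < 2 ^ T := by positivity
  obtain ⟨r, hr, r1, r2⟩ := Nat.exists_prime_lt_and_le_two_mul
    (2 * L + 10 * u2 + S + 10 * E) (by omega)
  have or : r % 2 = 1 := hr.eq_two_or_odd.resolve_left (by omega)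
  have br : r ≤ D ^ 32 := by
    have h := fun e (he : e ≤ 29) => Nat.pow_le_pow_right (show 0 < D by omega) he
    have := bE.trans (Nat.le_self_pow (n := 29) (by norm_num) D)
    have := h 14 (by norm_num)
    have := h 16 (by norm_num)
    calc _ ≤ 10 * 10 * 10 * D ^ 29 := by omega
      _ ≤ D * D * D * D ^ 29 := by gcongr
      _ = _ := by ring
  obtain ⟨z, z1, z2⟩ := exists_solve (c := r ^ 5 * E ^ 2 * m1 * (5 * u2) * c)
    (by
      have : E % 2 = 1 := by omega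
      simp [Nat.mul_mod, Nat.pow_mod, or, this, om, o2, oc]) T q
  have T1 := cell_ht (K' := 2 * 2 ^ T - 1) (z := z) hr (by omega) hw hE hC hD h1 h2 (by omega)
    (by omega) (by omega) (by omega) (Nat.le_mul_of_pos_left _ hT)
  have b := KeyB_bound (K := 2 ^ T) (K' := 2 * 2 ^ T - 1) (z := z) (c := c) (Δ := Δ)
    (m2 := 5 * u2) (by omega) br bE bm ((Nat.mul_le_mul (show 5 ≤ D by omega) b2).trans
      (pow_succ' D 16).ge) (by omega) (by omega) (by omega) (by omega) (by omega) bB bS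
  generalize 2 * (5 * u2 * E * z * (r * E * (B * S))) + r ^ 5 * E ^ 2 * (5 * u2 * E * z *
    (2 * c + 1) * m1 + (2 * 2 ^ T - 1) * m1 * Δ * z * (5 * u2)) = d at T1 b
  obtain ⟨j, hj⟩ := (Nat.modEq_iff_exists_eq_add (b.trans hq)).1 (Nat.ModEq.trans (by
    rw [show r ^ 4 * E * (r * E * m1 * (5 * u2) * z * (c + 2 ^ T * Δ) +
      2 ^ T * (d + r * E ^ 2 * m1 * (5 * u2) * Δ * z)) = r ^ 5 * E ^ 2 * m1 * (5 * u2) * c * z +
      2 ^ T * (r ^ 4 * E * (r * E * m1 * (5 * u2) * z * Δ + (d + r * E ^ 2 * m1 * (5 * u2) * Δ * z)))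
      by ring]
    exact ((Nat.modEq_iff_dvd' (Nat.le_add_right _ _)).2 (by simp)).symm) z2)
  refine ⟨r, or, le_mono (by omega) br (by norm_num), ?_⟩
  have T2 := Tile.ht ((T0.mul_right (r ^ 4)).mul_left j)
  rw [← mul_assoc (r ^ 4), mul_comm (r ^ 4)] at T2
  convert T1.add_left T2 using 1
  rw [hj]
  ring

/-- The main half tile. -/
theorem main_ht {t w u p D q s1 s2 s3 : ℕ} (hG : ∀ l, 0 < l → l ≤ w → G t l) (hw : w % 2 = 1)
    (hu : u % 2 = 1) (hu' : 1 < u) (hp : p.Prime) (h1 : p % 4 = 1) (hlt : u ^ 2 * (p + 1) < w)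
    (h3 : w = u ^ 2 * p + (s1 ^ 2 + s2 ^ 2 + s3 ^ 2))
    (hD : w - u ^ 2 * (p + 1) + u ^ 2 * 2 ^ (t + 4) ≤ D) (hq : D ^ 500 ≤ q) :
    ∃ r, r % 2 = 1 ∧ r ≤ D ^ 40 ∧ HT w (2 * q * w) (2 * r ^ 4 * w) := by
  have ok : u ^ 2 % 2 = 1 := by rw [Nat.pow_mod, hu]
  have hk9 : 9 ≤ u ^ 2 := by nlinarith [show 3 ≤ u by omega]
  have h2 : 0 < 2 ^ t := by positivity
  have hK : 2 ^ (t + 2) = 4 * 2 ^ t := by ring
  have hK3 : 2 ^ (t + 3) = 8 * 2 ^ t := by ring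
  have hK4 : 2 ^ (t + 4) = 16 * 2 ^ t := by ring
  have hkp : u ^ 2 ≤ u ^ 2 * (p + 1) := Nat.le_mul_of_pos_right _ (by omega)
  obtain ⟨a, v, nB, hI, ha, oB, ov, bv, ba⟩ := inner_exists (D := D) (u := u)
    (hG (u ^ 2 / 2) (by omega) (by omega)) (by omega) (by omega) (by omega)
  obtain ⟨fC, fD, T0⟩ := KeyB_base hG hw (by omega)
  generalize u ^ 2 = k at *
  obtain ⟨l0, c1, e1, hc1⟩ : ∃ l c, (p + 1) / 2 = 2 ^ (t + 3) * l + c ∧ c < 2 ^ (t + 3) :=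
    ⟨_, _, (Nat.div_add_mod _ _).symm, Nat.mod_lt _ (by omega)⟩
  have e2 : 2 * (2 ^ (t + 3) * l0 + c1) = p + 1 := by omega
  have oc : c1 % 2 = 1 := by rw [hK3, mul_assoc] at e2; omega
  obtain ⟨Δ, rfl⟩ : ∃ Δ, w = k * (p + 1) + Δ := ⟨w - k * (p + 1), by omega⟩
  rw [Nat.add_sub_cancel_left] at hD
  have e3 : k * (p + 1) = 4 * (2 ^ (t + 2) * (k * l0)) + 2 * (k * c1) := by rw [← e2]; ring
  have oΔ : Δ % 2 = 1 := by omega
  have b1 : 2 * (k * c1) ≤ k * 2 ^ (t + 4) := by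
    rw [mul_left_comm]; exact Nat.mul_le_mul_left k (by omega)
  have b2 : 2 ^ (t + 4) ≤ k * 2 ^ (t + 4) := Nat.le_mul_of_pos_left _ (by omega)
  have b3 : k ≤ k * 2 ^ (t + 4) := Nat.le_mul_of_pos_right _ (by omega)
  have H0 : HadOn (Fin (2 ^ (t + 2) * (k * l0))) := by
    rcases Nat.eq_zero_or_pos (k * l0) with e | e
    · rw [e, mul_zero]
      exact ⟨0, fun i => i.elim0, Subsingleton.elim _ _⟩
    · have := Nat.le_mul_of_pos_left (k * l0) (show 0 < 2 ^ (t + 2) by omega)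
      exact (hG _ e (by omega)).had e
  obtain ⟨E, hE⟩ : ∃ E, E = Δ + 2 * (k * c1) := ⟨_, rfl⟩
  have : NeZero E := ⟨by omega⟩
  have hD9 : 10 ≤ D := by omega
  have bE : E ≤ D := by omega
  have bδ : Δ + k ≤ D := by omega
  have bc : c1 + 1 ≤ D ^ 1 := by rw [pow_one]; omega
  have bK : 2 * 2 ^ (t + 2) ≤ D := by omega
  obtain ⟨c0, c2, c3, c4, h4⟩ := Nat.sum_four_squares E
  have e4 : k * p + (Δ + k) = k * (p + 1) + Δ := by ring
  obtain ⟨u1, w1, o1, l1, F1, z1, s1⟩ := KeyB_fam 0 s1 s2 s3 (δ := Δ + k) (by omega)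
    (by omega) bδ
  obtain ⟨u2, w2, o2, l2, F2, -, s2⟩ := KeyB_fam _ _ _ _ h4 (by omega) bE
  have hC : Fintype.card (Fin k × Bool × Fin (2 ^ (t + 3) * l0)) =
      4 * (2 ^ (t + 2) * (k * l0)) := by
    simp only [Fintype.card_prod, Fintype.card_fin, Fintype.card_bool]
    ring
  have e5 : k * (p + 1) + Δ = Fintype.card (Fin k × Bool × Fin (2 ^ (t + 3) * l0)) + E := by
    rw [hC, hE, e3]; ring
  have P1 := lv_ps hp h1 hI ha (by omega) (Nat.pos_of_ne_zero fun e => by simp [e] at ov) F1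
    (Nat.pos_of_ne_zero fun e => by simp [e] at o1) z1 (Fin (2 ^ (t + 3) * l0))
    (Fin c1) (ZMod E) (by simpa using e2)
    (by rw [ZMod.card, Fintype.card_fin, mul_left_comm, hE]; exact Nat.le_add_left _ _)
  have P2 := core_ps F2 (Nat.pos_of_ne_zero fun e => by simp [e] at o2)
    (s2 ▸ Nat.pos_of_ne_zero (NeZero.ne E)) H0 (Fin k × Bool × Fin (2 ^ (t + 3) * l0)) (ZMod E)
    (by rw [hC, Fintype.card_fin])
  rw [s1, e4, Fintype.card_fin] at P1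
  rw [s2, ← e5] at P2
  have bL : (2 * v + 1) * u1 ≤ D ^ 29 := by
    have h5 : 1 ≤ D ^ 12 := Nat.one_le_pow _ _ (Nat.zero_lt_of_lt hD9)
    have h6 := Nat.mul_le_mul_right (D ^ 12) hD9
    calc _ ≤ D * D ^ 12 * D ^ 16 := Nat.mul_le_mul (by clear * - h5 h6 bv; omega) l1
      _ = _ := by ring
  have bm := le_mul (le_mul bv (show nB ≤ D ^ 40 from
    (Nat.le_mul_of_pos_left nB (Nat.zero_lt_of_lt hk9)).trans (ha.ge.trans ba))) bL
  have bB := le_mul (le_mul ba bc) bL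
  have bS : 4 * v * (Δ + k) ≤ D ^ 14 := by
    calc _ ≤ D * D ^ 12 * D := Nat.mul_le_mul (Nat.mul_le_mul (le_trans (by norm_num) hD9) bv) bδ
      _ = _ := by ring
  rw [show k * (p + 1) * (v * nB * ((2 * v + 1) * u1)) = (Fintype.card (Fin k × Bool ×
    Fin (2 ^ (t + 3) * l0)) + 2 * (k * c1)) * (v * nB * ((2 * v + 1) * u1)) by rw [hC, ← e3]] at P1
  exact KeyB_fin e5 hE fC fD T0 P1 P2 oΔ (by simp [Nat.mul_mod, ok, oc])
    (by simp [Nat.mul_mod, Nat.add_mod, ov, oB, o1]) o2 hD9 bE bK bm l2 bB bS bL hq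

/-- The key theorem. -/
theorem key8 {t w u p D q q' s1 s2 s3 : ℕ} (hG : ∀ l, 0 < l → l ≤ w → G t l) (hw : w % 2 = 1)
    (hu : u % 2 = 1) (hu' : 1 < u) (hp : p.Prime) (h1 : p % 4 = 1) (hlt : u ^ 2 * (p + 1) < w)
    (h3 : w = u ^ 2 * p + (s1 ^ 2 + s2 ^ 2 + s3 ^ 2))
    (hD : w - u ^ 2 * (p + 1) + u ^ 2 * 2 ^ (t + 4) ≤ D) (hq : D ^ 500 ≤ q) (hq' : D ^ 500 ≤ q')
    (H : HadOn (Fin (4 * q))) (H' : HadOn (Fin (4 * q'))) : HadOn (Fin (8 * q * q' * w)) := by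
  obtain ⟨r, or, br, T1⟩ := main_ht hG hw hu hu' hp h1 hlt h3 hD hq
  have hk : 0 < u ^ 2 := by positivity
  have b1 : 2 ^ (t + 4) ≤ u ^ 2 * 2 ^ (t + 4) := Nat.le_mul_of_pos_left _ hk
  have b2 : u ^ 2 * 2 ≤ u ^ 2 * (p + 1) := Nat.mul_le_mul_left _ (by omega)
  have h2 : 0 < 2 ^ t := by positivity
  have hK : 2 ^ (t + 2) = 4 * 2 ^ t := by ring
  have hK4 : 2 ^ (t + 4) = 16 * 2 ^ t := by ring
  obtain ⟨-, -, T0⟩ := KeyB_base hG hw (by omega)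
  obtain ⟨j, j1, j2⟩ := exists_solve (c := r ^ 4) (by rw [Nat.pow_mod, or]) (t + 2) q'
  obtain ⟨j', j4⟩ := (Nat.modEq_iff_exists_eq_add ((le_mono (by omega) (le_mul (le_pow br 4)
    (show j ≤ D ^ 1 by rw [pow_one]; omega)) (by norm_num)).trans hq')).1 j2
  have T2 := Tile.ht ((T0.transpose.mul_left q).mul_right j')
  rw [← mul_assoc q, mul_comm q] at T2
  have T := (T1.mul_right j).add_right T2
  rw [show j * (2 * r ^ 4 * w) + j' * (2 * 2 ^ (t + 2) * w) = 2 * q' * w by rw [j4]; ring] at T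
  exact (T.had (by omega) (by rwa [← mul_assoc]) (by rwa [← mul_assoc])).of_card
    (by rw [Fintype.card_fin, Fintype.card_fin]; ring)

end Pool.Agent.MP_d8b1b3_co.H68.Od

namespace Pool.Agent.MP_d8b1b3_co.H68.Od

open Finset Filter

/-- the conclusion of the short interval lemma for the class `c` modulo `16` -/
def Near (c P z : ℕ) : Prop := ∃ u p : ℕ, u % 8 = 1 ∧ P ≤ u ∧ u ≤ 256 * P ∧ p.Prime ∧
  p ≡ c [MOD 16] ∧ u ^ 2 * (p + 1) < z ∧ z ≤ u ^ 2 * (p + 1) + P ^ (2 + 2)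

/-- all four classes -/
def Good (P z : ℕ) : Prop := Near 1 P z ∧ Near 5 P z ∧ Near 9 P z ∧ Near 13 P z

open Classical in
/-- union bound over the four classes -/
lemma good_si (ε : ℝ) (hε : 0 < ε) : ∀ᶠ P : ℕ in atTop, ∀ R Z : ℕ, 2 ^ (20 * R) ≤ Nat.log 2 P →
    P ^ 10 ≤ Z → Z ≤ P ^ R → (#{z ∈ Ioc 0 Z | ¬ Good P z} : ℝ) ≤ ε * Z := by
  have T := fun c (hc : Nat.Coprime c 16) =>
    H42d.short_int 2 (Or.inr rfl) 1 le_rfl 16 c (by norm_num) hc (ε / 4) (by positivity)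
  filter_upwards [T 1 (by norm_num), T 5 (by norm_num), T 9 (by norm_num), T 13 (by norm_num)]
    with P h1 h2 h3 h4 R Z a b c
  have e : #{z ∈ Ioc 0 Z | ¬ Good P z} ≤ #{z ∈ Ioc 0 Z | ¬ Near 1 P z} +
      #{z ∈ Ioc 0 Z | ¬ Near 5 P z} + #{z ∈ Ioc 0 Z | ¬ Near 9 P z} +
      #{z ∈ Ioc 0 Z | ¬ Near 13 P z} := by
    refine le_trans (card_le_card (t := {z ∈ Ioc 0 Z | ¬ Near 1 P z} ∪
      {z ∈ Ioc 0 Z | ¬ Near 5 P z} ∪ {z ∈ Ioc 0 Z | ¬ Near 9 P z} ∪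
      {z ∈ Ioc 0 Z | ¬ Near 13 P z}) fun z hz => ?_) ?_
    · obtain ⟨h0, hz⟩ := mem_filter.1 hz
      simp only [mem_filter, mem_union, h0, true_and]
      unfold Good at hz
      tauto
    · exact (card_union_le _ _).trans (Nat.add_le_add_right ((card_union_le _ _).trans
        (Nat.add_le_add_right (card_union_le _ _) _)) _)
  have e' := (Nat.cast_le (α := ℝ)).2 e
  have k : ∀ c, (#{z ∈ Ioc 0 Z | ¬∃ u p : ℕ, u % 8 = 1 ∧ P ≤ u ∧ u ≤ 256 * P ∧ p.Prime ∧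
      p ≡ c [MOD 16] ∧ u ^ 2 * (p + 1) < z ∧ z ≤ u ^ 2 * (p + 1) + P ^ (2 + 2)} : ℝ) ≤ ε / 4 * Z →
      (#{z ∈ Ioc 0 Z | ¬ Near c P z} : ℝ) ≤ ε / 4 * Z := fun c h => by
    convert h using 4
    rfl
  push_cast at e'
  linarith [k 1 (h1 R Z a b c), k 5 (h2 R Z a b c), k 9 (h3 R Z a b c), k 13 (h4 R Z a b c)]

/-- the difference `w - u ^ 2 p` is a sum of three squares for one of the classes -/
lemma Good.squares {P w : ℕ} (h : Good P w) (hw : w % 2 = 1) : ∃ u p s1 s2 s3 : ℕ, u % 2 = 1 ∧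
    P ≤ u ∧ u ≤ 256 * P ∧ p.Prime ∧ p % 4 = 1 ∧ u ^ 2 * (p + 1) < w ∧
    w ≤ u ^ 2 * (p + 1) + P ^ 4 ∧ w = u ^ 2 * p + (s1 ^ 2 + s2 ^ 2 + s3 ^ 2) := by
  have key : ∀ c, Near c P w → c < 16 → c % 4 = 1 → (w % 4 = 3 ∨ (w + 8) % 16 = c) →
      ∃ u p s1 s2 s3 : ℕ, u % 2 = 1 ∧
        P ≤ u ∧ u ≤ 256 * P ∧ p.Prime ∧ p % 4 = 1 ∧ u ^ 2 * (p + 1) < w ∧
        w ≤ u ^ 2 * (p + 1) + P ^ 4 ∧ w = u ^ 2 * p + (s1 ^ 2 + s2 ^ 2 + s3 ^ 2) := by
    rintro c ⟨u, p, u0, u1, u2, k1, k2, k3, k4⟩ c1 c2 c3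
    replace k2 : p % 16 = c % 16 := k2
    obtain ⟨a, ha⟩ : ∃ a, u = 8 * a + 1 := ⟨u / 8, by omega⟩
    have e : u ^ 2 * p = 16 * ((4 * a ^ 2 + a) * p) + p := by rw [ha]; ring
    have e' : u ^ 2 * (p + 1) = u ^ 2 * p + u ^ 2 := by ring
    suffices ∃ s1 s2 s3 : ℕ, s1 ^ 2 + s2 ^ 2 + s3 ^ 2 = w - u ^ 2 * p by
      obtain ⟨s1, s2, s3, hs⟩ := this
      exact ⟨u, p, s1, s2, s3, by omega, u1, u2, k1, by omega, k3, k4, by omega⟩
    rcases c3 with c3 | c3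
    · exact three_squares (by omega)
    · obtain ⟨s1, s2, s3, hs⟩ := three_squares (n := (w - u ^ 2 * p) / 4) (by omega)
      refine ⟨2 * s1, 2 * s2, 2 * s3, ?_⟩
      rw [show (2 * s1) ^ 2 + (2 * s2) ^ 2 + (2 * s3) ^ 2 = 4 * (s1 ^ 2 + s2 ^ 2 + s3 ^ 2) by ring,
        hs]
      omega
  obtain ⟨h1, h2, h3, h4⟩ := h
  have : (w % 4 = 3 ∨ (w + 8) % 16 = 1) ∨ (w + 8) % 16 = 5 ∨ (w + 8) % 16 = 9 ∨
      (w + 8) % 16 = 13 := by omega
  rcases this with c | c | c | c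
  · exact key 1 h1 (by norm_num) rfl c
  · exact key 5 h2 (by norm_num) rfl (Or.inr c)
  · exact key 9 h3 (by norm_num) rfl (Or.inr c)
  · exact key 13 h4 (by norm_num) rfl (Or.inr c)

open Classical in
/-- few multiples of eight are not Hadamard orders -/
theorem few_exceptions (ε : ℝ) (hε : 0 < ε) : ∀ᶠ X : ℕ in atTop,
    (#{m ∈ Ioc 0 X | ¬ HadOn (Fin (8 * m))} : ℝ) ≤ ε * X := by
  filter_upwards [H88d.almost_all Good good_si (fun _ => 1) (fun _ => True)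
    (by
      filter_upwards [eventually_ge_atTop 1] with P h1
      exact ⟨one_pos, Nat.one_le_pow _ _ h1, trivial⟩) hε] with X ⟨t, P, t1, hG, hK, _, _, _, _, h⟩
  refine le_trans (Nat.cast_le.2 (card_le_card fun m hm => ?_)) h
  obtain ⟨m1, m2⟩ := mem_filter.1 hm
  refine mem_filter.2 ⟨m1, ?_⟩
  rintro ⟨j, q, q', w, rfl, -, ⟨a1, a2, a3⟩, ⟨b1, b2, b3⟩, hw, k, -⟩
  rw [Nat.div_one] at k
  obtain ⟨u, p, s1, s2, s3, u1, u2, u3, k1, k2, k3, k4, k5⟩ := Good.squares k hw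
  apply m2
  have hX' := (mem_Ioc.1 m1).2
  have w0 : 0 < w := by omega
  have p2 : 2 ^ 102 ≤ P := (Nat.pow_le_pow_right two_pos (by omega)).trans hK
  have hle : ∀ {a b : ℕ}, 0 < b → q * q' * w = a * b → a ≤ X := fun hb e =>
    (Nat.le_mul_of_pos_right _ hb).trans
      (e ▸ (Nat.le_mul_of_pos_left _ (by positivity)).trans hX')
  have hq : ∀ q : ℕ, q.Prime → q ≡ 1 [MOD 2 ^ (t + 2)] → q ≤ X → HadOn (Fin (4 * q)) := by
    intro q a b d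
    obtain ⟨l, hl⟩ := (Nat.modEq_iff_exists_eq_add a.one_le).1 b.symm
    have e : 2 ^ (t + 2) * l = 2 * (2 ^ (t + 1) * l) := by ring
    have hl0 : 0 < l := Nat.pos_of_ne_zero (by rintro rfl; have := a.one_lt; omega)
    have hl1 : l ≤ 2 ^ (t + 2) * l := Nat.le_mul_of_pos_left l (by positivity)
    exact H7.miyamoto4 a (by omega) (((hG l hl0 (by omega)).had hl0).of_card (by simp; omega))
  have H1 := hq q a1 a2 (hle (mul_pos b1.pos w0) (by ring))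
  have H2 := hq q' b1 b2 (hle (mul_pos a1.pos w0) (by ring))
  have wX : w ≤ X := hle (mul_pos a1.pos b1.pos) (by ring)
  have d0 : ∀ a b c, a * b ≤ c → (P ^ a) ^ b ≤ P ^ c := fun a b c e => by
    rw [← pow_mul]; exact Nat.pow_le_pow_right (by omega) e
  have d1 := d0 5 500 5000 (by norm_num)
  have d2 : w - u ^ 2 * (p + 1) + u ^ 2 * 2 ^ (t + 4) ≤ P ^ 5 := by
    have e1 : u ^ 2 * 2 ^ (t + 4) ≤ (256 * P) ^ 2 * (4 * P) :=
      Nat.mul_le_mul (Nat.pow_le_pow_left u3 2) (by rw [pow_add 2 t 4]; rw [pow_add] at hK; omega)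
    have e2 : 2 ^ 102 * P ^ 3 ≤ P ^ 4 := by rw [pow_succ' P 3]; exact Nat.mul_le_mul_right _ p2
    have e3 : 2 ^ 102 * P ^ 4 ≤ P ^ 5 := by rw [pow_succ' P 4]; exact Nat.mul_le_mul_right _ p2
    rw [show (256 * P) ^ 2 * (4 * P) = 2 ^ 18 * P ^ 3 by ring] at e1
    omega
  have H3 : HadOn (Fin (4 * (2 ^ j * q))) :=
    ((hadOn_two_pow j).prod H1).of_card (by simp; ring)
  exact (key8 (fun l l1 l2 => hG l l1 (l2.trans wX)) hw u1 (by omega) k1 k2 k3 k5 d2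
    ((d1.trans a3).trans (Nat.le_mul_of_pos_left _ (by positivity))) (d1.trans b3) H3 H2).of_card
    (by simp; ring)

open Classical in
theorem density_8 :
    Tendsto (fun X : ℕ => (#{m ∈ Ioc 0 X | HadOn (Fin (8 * m))} : ℝ) / X) atTop (nhds 1) :=
  H88d.density_one _ few_exceptions

end Pool.Agent.MP_d8b1b3_co.H68.Od
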